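import Pool.Agent.StabM.StabLat

set_option autoImplicit false

/-!
# Block instances

PAPER PROOF. `q = 0`: `Fin 0`, one matching, one stable matching, `1 = N ^ 0`, no men.
`q > 0`: with `e = finProdFinEquiv : Fin q × Fin k ≃ Fin (q * k)` (value of `e (b, i)` is
`i + k * b`) let the rank of the woman `e (b', j)` for the man `e (b, i)` be
`e (Equiv.swap 0 b b', mp0 i j)` and the same for the women with `wp0`. So everybody prefers all
members of the own block `b` (ranks below `k`) to all others, and inside the block the ranks are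
those of the given instance.
* a stable `σ` maps blocks to blocks: otherwise some man of a block `b` is matched outside `b`, so
  (counting) some woman of `b` is matched outside `b`; the two prefer each other to their partners:
  not stable. So `σ (e (b, i)) = e (b, σ_b i)` and every `σ_b` is stable for `mp0, wp0`.
* conversely such a `σ` is stable: a pair of two blocks does not block since everybody prefers the
  own block.
So the stable matchings are the families `(σ_b)` of stable matchings of the given instance: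
`N ^ q` of them, and the partners of `e (b, i)` are the `e (b, j)`, `j` a stable partner of `i`.
-/

open Finset

namespace Pool.Agent.SMP

open Pool.Agent.StabM

private lemma lt_iff {q k : ℕ} (u v : Fin q) (s t : Fin k) :
    (finProdFinEquiv (u, s) : Fin (q * k)) < finProdFinEquiv (v, t) ↔ u < v ∨ (u = v ∧ s < t) := by
  rw [Fin.lt_def, finProdFinEquiv_apply_val, finProdFinEquiv_apply_val]
  simp only
  rcases lt_trichotomy u v with h | h | h
  · have h1 : (u : ℕ) + 1 ≤ (v : ℕ) := h
    have h2 : k * ((u : ℕ) + 1) ≤ k * (v : ℕ) := Nat.mul_le_mul_left k h1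
    have h3 := s.isLt
    rw [Nat.mul_add, Nat.mul_one] at h2
    exact ⟨fun _ => Or.inl h, fun _ => by omega⟩
  · subst h
    constructor
    · intro h2
      exact Or.inr ⟨rfl, by rw [Fin.lt_def]; omega⟩
    · rintro (h2 | ⟨_, h2⟩)
      · exact absurd h2 (lt_irrefl _)
      · rw [Fin.lt_def] at h2
        omega
  · have h1 : (v : ℕ) + 1 ≤ (u : ℕ) := h
    have h2 : k * ((v : ℕ) + 1) ≤ k * (u : ℕ) := Nat.mul_le_mul_left k h1
    have h3 := t.isLt
    rw [Nat.mul_add, Nat.mul_one] at h2
    constructor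
    · intro h4
      omega
    · rintro (h4 | ⟨h4, _⟩)
      · exact absurd h4 (not_lt.mpr h.le)
      · exact absurd h4.symm (ne_of_lt h)

/-- preferences of the block instance -/
private def bp {q k : ℕ} [NeZero q] (p : Fin k → Equiv.Perm (Fin k)) :
    Fin (q * k) → Equiv.Perm (Fin (q * k)) := fun m =>
  (finProdFinEquiv.symm.trans (Equiv.prodCongr (Equiv.swap 0 (finProdFinEquiv.symm m).1)
    (p (finProdFinEquiv.symm m).2))).trans finProdFinEquiv

private lemma bp_apply {q k : ℕ} [NeZero q] (p : Fin k → Equiv.Perm (Fin k)) (x y : Fin q × Fin k) :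
    bp p (finProdFinEquiv x) (finProdFinEquiv y) =
      finProdFinEquiv (Equiv.swap 0 x.1 y.1, p x.2 y.2) := by
  simp [bp, Equiv.prodCongr_apply, Prod.map]

/-- the block matching -/
private def bm {q k : ℕ} (f : Fin q → Equiv.Perm (Fin k)) : Equiv.Perm (Fin (q * k)) :=
  (finProdFinEquiv.symm.trans (Equiv.prodShear (Equiv.refl (Fin q)) f)).trans finProdFinEquiv

private lemma bm_apply {q k : ℕ} (f : Fin q → Equiv.Perm (Fin k)) (b : Fin q) (i : Fin k) :
    bm f (finProdFinEquiv (b, i)) = finProdFinEquiv (b, f b i) := by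
  simp [bm, Equiv.prodShear]

private lemma bm_symm_apply {q k : ℕ} (f : Fin q → Equiv.Perm (Fin k)) (b : Fin q) (i : Fin k) :
    (bm f).symm (finProdFinEquiv (b, i)) = finProdFinEquiv (b, (f b).symm i) := by
  rw [Equiv.symm_apply_eq, bm_apply, Equiv.apply_symm_apply]

private lemma stable_bm {q k : ℕ} [NeZero q] {mp0 wp0 : Fin k → Equiv.Perm (Fin k)}
    (f : Fin q → Equiv.Perm (Fin k)) :
    Stable (bp (q := q) mp0) (bp (q := q) wp0) (bm f) ↔ ∀ b, Stable mp0 wp0 (f b) := by
  constructor
  · rintro h b i j ⟨h1, h2⟩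
    apply h (finProdFinEquiv (b, i)) (finProdFinEquiv (b, j))
    rw [bm_apply, bm_symm_apply, bp_apply, bp_apply, bp_apply, bp_apply, lt_iff, lt_iff]
    exact ⟨Or.inr ⟨rfl, h1⟩, Or.inr ⟨rfl, h2⟩⟩
  · intro h m w
    obtain ⟨⟨b, i⟩, rfl⟩ := finProdFinEquiv.surjective m
    obtain ⟨⟨c, j⟩, rfl⟩ := finProdFinEquiv.surjective w
    rw [bm_apply, bm_symm_apply, bp_apply, bp_apply, bp_apply, bp_apply, lt_iff, lt_iff]
    simp only [Equiv.swap_apply_right]
    rintro ⟨h1, h2⟩
    have hbc : Equiv.swap 0 b c = 0 := by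
      rcases h1 with h1 | ⟨h1, _⟩
      · exact absurd h1 (not_lt.mpr (Fin.zero_le _))
      · exact h1
    have hcb : c = b := by
      have := congrArg (Equiv.swap 0 b) hbc
      rwa [Equiv.swap_apply_self, Equiv.swap_apply_left] at this
    subst hcb
    rcases h1 with h1 | ⟨_, h1⟩
    · exact absurd h1 (not_lt.mpr (by rw [hbc]))
    rcases h2 with h2 | ⟨_, h2⟩
    · exact absurd h2 (not_lt.mpr (by rw [Equiv.swap_apply_right]))
    exact h c i j ⟨h1, h2⟩

private lemma stable_block {q k : ℕ} [NeZero q] {mp0 wp0 : Fin k → Equiv.Perm (Fin k)}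
    {σ : Equiv.Perm (Fin (q * k))} (h : Stable (bp (q := q) mp0) (bp (q := q) wp0) σ)
    (x : Fin q × Fin k) : (finProdFinEquiv.symm (σ (finProdFinEquiv x))).1 = x.1 := by
  classical
  by_contra hx
  set S : Finset (Fin (q * k)) := univ.filter (fun y => (finProdFinEquiv.symm y).1 = x.1) with hS
  by_cases hall : ∀ y ∈ S, σ.symm y ∈ S
  · have himg : S.image σ.symm = S := by
      apply Finset.eq_of_subset_of_card_le
      · intro z hz
        rw [Finset.mem_image] at hz
        obtain ⟨y, hy, rfl⟩ := hz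
        exact hall y hy
      · rw [Finset.card_image_of_injective _ σ.symm.injective]
    have hxS : finProdFinEquiv x ∈ S := by
      rw [hS, Finset.mem_filter, Equiv.symm_apply_apply]
      exact ⟨Finset.mem_univ _, rfl⟩
    rw [← himg, Finset.mem_image] at hxS
    obtain ⟨y, hy, hyx⟩ := hxS
    rw [Equiv.symm_apply_eq] at hyx
    rw [← hyx] at hx
    rw [hS, Finset.mem_filter] at hy
    exact hx hy.2
  · push Not at hall
    obtain ⟨y, hy, hy2⟩ := hall
    rw [hS, Finset.mem_filter] at hy hy2
    have hy1 := hy.2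
    have hy3 : (finProdFinEquiv.symm (σ.symm y)).1 ≠ x.1 := fun hh => hy2 ⟨Finset.mem_univ _, hh⟩
    obtain ⟨⟨b, j⟩, rfl⟩ := finProdFinEquiv.surjective y
    rw [Equiv.symm_apply_apply] at hy1
    simp only at hy1
    obtain ⟨x1, x2⟩ := x
    simp only at hy1 hy3 hx
    subst hy1
    apply h (finProdFinEquiv (b, x2)) (finProdFinEquiv (b, j))
    obtain ⟨⟨u, u2⟩, hu⟩ := finProdFinEquiv.surjective (σ (finProdFinEquiv (b, x2)))
    obtain ⟨⟨v, v2⟩, hv⟩ := finProdFinEquiv.surjective (σ.symm (finProdFinEquiv (b, j)))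
    rw [← hu, Equiv.symm_apply_apply] at hx
    rw [← hv, Equiv.symm_apply_apply] at hy3
    simp only at hx hy3
    rw [← hu, ← hv, bp_apply, bp_apply, bp_apply, bp_apply, lt_iff, lt_iff]
    simp only [Equiv.swap_apply_right]
    have key : ∀ c : Fin q, c ≠ b → (0 : Fin q) < Equiv.swap 0 b c := by
      intro c hc
      rw [Fin.pos_iff_ne_zero]
      intro h0
      apply hc
      have := congrArg (Equiv.swap 0 b) h0
      rwa [Equiv.swap_apply_self, Equiv.swap_apply_left] at this
    exact ⟨Or.inl (key u hx), Or.inl (key v hy3)⟩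

private lemma exists_bm {q k : ℕ} {σ : Equiv.Perm (Fin (q * k))}
    (h : ∀ x : Fin q × Fin k, (finProdFinEquiv.symm (σ (finProdFinEquiv x))).1 = x.1) :
    ∃ f : Fin q → Equiv.Perm (Fin k), σ = bm f := by
  have h1 : ∀ (b : Fin q) (i : Fin k), σ (finProdFinEquiv (b, i)) =
      finProdFinEquiv (b, (finProdFinEquiv.symm (σ (finProdFinEquiv (b, i)))).2) := by
    intro b i
    rw [← Equiv.symm_apply_eq]
    exact Prod.ext (h (b, i)) rfl
  have h2 : ∀ (b : Fin q) (j : Fin k), σ.symm (finProdFinEquiv (b, j)) =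
      finProdFinEquiv (b, (finProdFinEquiv.symm (σ.symm (finProdFinEquiv (b, j)))).2) := by
    intro b j
    rw [← Equiv.symm_apply_eq]
    refine Prod.ext ?_ rfl
    have := h (finProdFinEquiv.symm (σ.symm (finProdFinEquiv (b, j))))
    rw [Equiv.apply_symm_apply, Equiv.apply_symm_apply, Equiv.symm_apply_apply] at this
    exact this.symm
  refine ⟨fun b => ⟨fun i => (finProdFinEquiv.symm (σ (finProdFinEquiv (b, i)))).2,
    fun j => (finProdFinEquiv.symm (σ.symm (finProdFinEquiv (b, j)))).2, ?_, ?_⟩, ?_⟩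
  · intro i
    simp only
    rw [← h1, Equiv.symm_apply_apply, Equiv.symm_apply_apply]
  · intro j
    simp only
    rw [← h2, Equiv.apply_symm_apply, Equiv.symm_apply_apply]
  · ext m
    obtain ⟨⟨b, i⟩, rfl⟩ := finProdFinEquiv.surjective m
    rw [bm_apply, h1]
    rfl

/-- the version with the distances of the stable matchings -/
theorem blocks_dist {k : ℕ} (mp0 wp0 : Fin k → Equiv.Perm (Fin k)) (q : ℕ) :
    ∃ mp wp : Fin (q * k) → Equiv.Perm (Fin (q * k)),
      (stabS mp wp).card = (stabS mp0 wp0).card ^ q ∧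
      (∀ c, (∀ m, ((stabS mp0 wp0).image (fun σ => σ m)).card ≤ c) →
        ∀ m, ((stabS mp wp).image (fun σ => σ m)).card ≤ c) ∧
      ∀ c, (∀ σ ∈ stabS mp0 wp0, ∀ τ ∈ stabS mp0 wp0, σ ≠ τ →
          c ≤ (univ.filter (fun m => σ m ≠ τ m)).card) →
        ∀ σ ∈ stabS mp wp, ∀ τ ∈ stabS mp wp, σ ≠ τ →
          c ≤ (univ.filter (fun m => σ m ≠ τ m)).card := by
  classical
  rcases Nat.eq_zero_or_pos q with hq | hq
  · subst hq
    have : IsEmpty (Fin (0 * k)) := by rw [Nat.zero_mul]; infer_instance
    refine ⟨fun _ => 1, fun _ => 1, ?_, fun c _ m => isEmptyElim m,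
      fun c _ σ _ τ _ h => absurd (Equiv.ext fun m => isEmptyElim m) h⟩
    have hs : stabS (fun _ : Fin (0 * k) => (1 : Equiv.Perm (Fin (0 * k)))) (fun _ => 1) =
        Finset.univ := by
      ext σ
      rw [stabS, Finset.mem_filter]
      exact ⟨fun _ => Finset.mem_univ _, fun _ => ⟨Finset.mem_univ _, fun m => isEmptyElim m⟩⟩
    rw [hs, pow_zero, Finset.card_univ, Fintype.card_eq_one_iff]
    exact ⟨1, fun y => Equiv.ext fun m => isEmptyElim m⟩
  · have : NeZero q := ⟨hq.ne'⟩
    have himg : stabS (bp (q := q) mp0) (bp (q := q) wp0) =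
        (Fintype.piFinset (fun _ : Fin q => stabS mp0 wp0)).image bm := by
      ext σ
      rw [Finset.mem_image]
      constructor
      · intro hσ
        rw [stabS, Finset.mem_filter] at hσ
        obtain ⟨f, rfl⟩ := exists_bm (stable_block hσ.2)
        refine ⟨f, ?_, rfl⟩
        rw [Fintype.mem_piFinset]
        intro b
        rw [stabS, Finset.mem_filter]
        exact ⟨Finset.mem_univ _, (stable_bm f).mp hσ.2 b⟩
      · rintro ⟨f, hf, rfl⟩
        rw [stabS, Finset.mem_filter]
        refine ⟨Finset.mem_univ _, (stable_bm f).mpr fun b => ?_⟩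
        rw [Fintype.mem_piFinset] at hf
        have := hf b
        rw [stabS, Finset.mem_filter] at this
        exact this.2
    refine ⟨bp mp0, bp wp0, ?_, ?_, ?_⟩
    · rw [himg, Finset.card_image_of_injective, Fintype.card_piFinset_const]
      intro f g hfg
      funext b
      ext i
      have := congrArg (fun σ => σ (finProdFinEquiv (b, i))) hfg
      simp only [bm_apply] at this
      have h3 := finProdFinEquiv.injective this
      rw [Prod.mk.injEq] at h3
      rw [h3.2]
    · intro c hc m
      obtain ⟨⟨b, i⟩, rfl⟩ := finProdFinEquiv.surjective m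
      refine le_trans (Finset.card_le_card (?_ : _ ⊆ ((stabS mp0 wp0).image (fun σ => σ i)).image
        (fun j => (finProdFinEquiv (b, j) : Fin (q * k))))) (Finset.card_image_le.trans (hc i))
      intro z hz
      rw [Finset.mem_image] at hz
      obtain ⟨σ, hσ, rfl⟩ := hz
      rw [himg, Finset.mem_image] at hσ
      obtain ⟨f, hf, rfl⟩ := hσ
      rw [Fintype.mem_piFinset] at hf
      simp only [bm_apply]
      exact Finset.mem_image_of_mem _ (Finset.mem_image_of_mem (fun σ : Equiv.Perm (Fin k) => σ i) (hf b))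
    · intro c hc σ hσ τ hτ hne
      rw [himg, Finset.mem_image] at hσ hτ
      obtain ⟨f, hf, rfl⟩ := hσ
      obtain ⟨g, hg, rfl⟩ := hτ
      rw [Fintype.mem_piFinset] at hf hg
      obtain ⟨b, hb⟩ : ∃ b, f b ≠ g b := by
        by_contra hcon
        push Not at hcon
        exact hne (congrArg bm (funext hcon))
      refine (hc (f b) (hf b) (g b) (hg b) hb).trans ?_
      refine Finset.card_le_card_of_injOn (fun i => (finProdFinEquiv (b, i) : Fin (q * k))) ?_ ?_
      · intro i hi
        rw [Finset.mem_coe, Finset.mem_filter] at hi ⊢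
        refine ⟨Finset.mem_univ _, ?_⟩
        rw [bm_apply, bm_apply]
        intro h
        have h2 := finProdFinEquiv.injective h
        rw [Prod.mk.injEq] at h2
        exact hi.2 h2.2
      · intro i _ j _ h
        have h2 := finProdFinEquiv.injective h
        rw [Prod.mk.injEq] at h2
        exact h2.2

theorem blocks {k : ℕ} (mp0 wp0 : Fin k → Equiv.Perm (Fin k)) (q : ℕ) :
    ∃ mp wp : Fin (q * k) → Equiv.Perm (Fin (q * k)),
      (stabS mp wp).card = (stabS mp0 wp0).card ^ q ∧
      ∀ c, (∀ m, ((stabS mp0 wp0).image (fun σ => σ m)).card ≤ c) →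
        ∀ m, ((stabS mp wp).image (fun σ => σ m)).card ≤ c := by
  obtain ⟨mp, wp, h1, h2, _⟩ := blocks_dist mp0 wp0 q
  exact ⟨mp, wp, h1, h2⟩

end Pool.Agent.SMP
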