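import Pool.Agent.StabM.StabLat

set_option autoImplicit false

/-!
# Cyclic instances

PAPER PROOF. `1 ≤ k ≤ d`. The man `m` (an element of `Fin d`) gives the woman `w` the rank
`w - m`; the woman `w` gives the man `m` the rank `k - 1 - j` if `j = w - m < k` and `j` otherwise.
The stable matchings are the `k` shifts `m ↦ m + s`, `s < k`.
* Let `σ` be stable, `a m = σ m - m`. If `a m ≥ k`, then `m` and `w = m + (k - 1)` block: `w` ranks
  `m` first. So all `a m < k`. If `a m > a (m + 1)` let `w = σ (m + 1)`; `w - m = a (m + 1) + 1`,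
  this is at most `a m` and not equal to it (`σ` is injective), so `m, w` block. So
  `a m ≤ a (m + 1)` for all `m`, summing over `m` gives equality.
* A shift by `s < k` is stable: `w - m < s` implies `k - 1 - (w - m) > k - 1 - s`.
-/

open Finset

namespace Pool.Agent.SMP

open Pool.Agent.StabM

private def fl {k d : ℕ} (hkd : k ≤ d) (j : Fin d) : Fin d :=
  if h : j.val < k then ⟨k - 1 - j.val, by omega⟩ else j

private lemma fl_val {k d : ℕ} (hkd : k ≤ d) (j : Fin d) :
    (fl hkd j).val = if j.val < k then k - 1 - j.val else j.val := by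
  unfold fl
  split_ifs <;> rfl

private lemma fl_invol {k d : ℕ} (hkd : k ≤ d) : Function.Involutive (fl hkd) := by
  intro j
  apply Fin.ext
  rw [fl_val, fl_val]
  split_ifs <;> omega

private def cm {d : ℕ} [NeZero d] : Fin d → Equiv.Perm (Fin d) := fun m => Equiv.subRight m

private def cw {k d : ℕ} [NeZero d] (hkd : k ≤ d) : Fin d → Equiv.Perm (Fin d) := fun w =>
  (Equiv.subLeft w).trans (Function.Involutive.toPerm (fl hkd) (fl_invol hkd))

private lemma cm_apply {d : ℕ} [NeZero d] (m w : Fin d) : cm m w = w - m := rfl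

private lemma cw_apply {k d : ℕ} [NeZero d] (hkd : k ≤ d) (w m : Fin d) :
    cw hkd w m = fl hkd (w - m) := rfl

private lemma shift_stable {k d : ℕ} [NeZero d] (hkd : k ≤ d) (s : Fin d) (hs : s.val < k) :
    Stable (cm (d := d)) (cw hkd) (Equiv.addRight s) := by
  rintro m w ⟨h1, h2⟩
  have e1 : (Equiv.addRight s).symm w = w - s := by
    rw [Equiv.symm_apply_eq]
    exact (sub_add_cancel w s).symm
  rw [cm_apply, cm_apply, Equiv.coe_addRight, add_sub_cancel_left] at h1
  rw [cw_apply, cw_apply, e1, sub_sub_cancel, Fin.lt_def, fl_val, fl_val] at h2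
  rw [Fin.lt_def] at h1
  rw [if_pos hs, if_pos (by omega)] at h2
  omega

private lemma stable_shift {k d : ℕ} [NeZero d] (hk : 1 ≤ k) (hkd : k ≤ d)
    {σ : Equiv.Perm (Fin d)} (h : Stable (cm (d := d)) (cw hkd) σ) :
    ∃ s : Fin k, σ = Equiv.addRight (Fin.castLE hkd s) := by
  obtain ⟨a, ha⟩ : ∃ a : Fin d → Fin d, a = fun m => σ m - m := ⟨_, rfl⟩
  have haσ : ∀ m, σ m = m + a m := by
    intro m
    rw [ha]
    simp
  -- the entries are smaller than `k`
  have h1 : ∀ m, (a m).val < k := by
    intro m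
    by_contra hc
    push Not at hc
    obtain ⟨j, hj⟩ : ∃ j : Fin d, j.val = k - 1 := ⟨⟨k - 1, by omega⟩, rfl⟩
    have hne : σ.symm (m + j) ≠ m := by
      intro h2
      rw [Equiv.symm_apply_eq, haσ] at h2
      have h3 := add_left_cancel h2
      rw [← h3] at hc
      omega
    apply h m (m + j)
    rw [cm_apply, cm_apply, haσ, add_sub_cancel_left, add_sub_cancel_left]
    refine ⟨by rw [Fin.lt_def]; omega, ?_⟩
    have h4 : (cw hkd (m + j) m).val = 0 := by
      rw [cw_apply, add_sub_cancel_left, fl_val, if_pos (by omega)]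
      omega
    have h5 : (cw hkd (m + j) (σ.symm (m + j))).val ≠ 0 := by
      intro h6
      exact hne ((cw hkd (m + j)).injective (Fin.ext (h6.trans h4.symm)))
    rw [Fin.lt_def]
    omega
  -- the step
  have h2 : ∀ m, (a m).val ≤ (a (m + 1)).val := by
    intro m
    by_contra hc
    push Not at hc
    have hd : (a m).val < d := (a m).isLt
    have e1 : (1 : Fin d).val = 1 := by
      rw [Fin.val_one']
      exact Nat.mod_eq_of_lt (by omega)
    have e2 : (a (m + 1) + 1).val = (a (m + 1)).val + 1 := by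
      rw [Fin.val_add, e1]
      exact Nat.mod_eq_of_lt (by omega)
    have e3 : σ (m + 1) - m = a (m + 1) + 1 := by
      rw [haσ (m + 1)]
      abel
    have hne : a (m + 1) + 1 ≠ a m := by
      intro h3
      have h4 : σ (m + 1) = σ m := by
        rw [haσ m, ← h3, haσ (m + 1)]
        abel
      have h5 := σ.injective h4
      have h6 : (1 : Fin d) = 0 := by
        have : m + 1 = m + 0 := by rw [h5, add_zero]
        exact add_left_cancel this
      rw [h6] at e1
      simp at e1
    have hne' : (a (m + 1)).val + 1 ≠ (a m).val := by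
      rw [← e2]
      exact fun h3 => hne (Fin.ext h3)
    apply h m (σ (m + 1))
    rw [cm_apply, cm_apply, e3, haσ m, add_sub_cancel_left, Equiv.symm_apply_apply, cw_apply,
      cw_apply, e3, haσ (m + 1), add_sub_cancel_left, Fin.lt_def, Fin.lt_def, fl_val, fl_val, e2]
    have h7 := h1 m
    rw [if_pos (by omega), if_pos (by omega)]
    omega
  have h3 : ∀ m, (a m).val = (a (m + 1)).val := by
    have h4 : ∑ m, (a m).val = ∑ m, (a (m + 1)).val :=
      (Equiv.sum_comp (Equiv.addRight (1 : Fin d)) (fun m => (a m).val)).symm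
    intro m
    exact (Finset.sum_eq_sum_iff_of_le (fun m _ => h2 m)).1 h4 m (Finset.mem_univ m)
  have h4 : ∀ i (hi : i < d), (a ⟨i, hi⟩).val = (a 0).val := by
    intro i
    induction i with
    | zero => intro hi; rfl
    | succ i ih =>
      intro hi
      rw [← ih (by omega), h3 ⟨i, by omega⟩]
      congr 2
      apply Fin.ext
      rw [Fin.val_add, Fin.val_one', Nat.mod_eq_of_lt (show 1 < d by omega)]
      exact (Nat.mod_eq_of_lt hi).symm
  refine ⟨⟨(a 0).val, h1 0⟩, Equiv.ext fun m => ?_⟩
  rw [haσ, Equiv.coe_addRight]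
  congr 1
  apply Fin.ext
  exact h4 m.val m.isLt

theorem cyclic_instance (k d : ℕ) (hk : 1 ≤ k) (hkd : k ≤ d) :
    ∃ mp wp : Fin d → Equiv.Perm (Fin d), (stabS mp wp).card = k ∧
      ∀ σ ∈ stabS mp wp, ∀ τ ∈ stabS mp wp, σ ≠ τ → ∀ m, σ m ≠ τ m := by
  classical
  have : NeZero d := ⟨by omega⟩
  have himg : stabS (cm (d := d)) (cw hkd) =
      (univ : Finset (Fin k)).image (fun s => Equiv.addRight (Fin.castLE hkd s)) := by
    ext σ
    rw [stabS, Finset.mem_filter, Finset.mem_image]
    constructor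
    · rintro ⟨_, h⟩
      obtain ⟨s, hs⟩ := stable_shift hk hkd h
      exact ⟨s, Finset.mem_univ _, hs.symm⟩
    · rintro ⟨s, _, rfl⟩
      exact ⟨Finset.mem_univ _, shift_stable hkd _ s.isLt⟩
  have hdist : ∀ (s s' : Fin k) (m : Fin d),
      Equiv.addRight (Fin.castLE hkd s) m = Equiv.addRight (Fin.castLE hkd s') m → s = s' := by
    intro s s' m h
    rw [Equiv.coe_addRight, Equiv.coe_addRight] at h
    exact Fin.castLE_injective hkd (add_left_cancel h)
  refine ⟨cm, cw hkd, ?_, ?_⟩
  · rw [himg, Finset.card_image_of_injective, Finset.card_univ, Fintype.card_fin]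
    intro s s' h
    exact hdist s s' 0 (congrArg (fun σ : Equiv.Perm (Fin d) => σ 0) h)
  · rw [himg]
    intro σ hσ τ hτ hne m h
    obtain ⟨s, _, rfl⟩ := Finset.mem_image.1 hσ
    obtain ⟨s', _, rfl⟩ := Finset.mem_image.1 hτ
    rw [hdist s s' m h] at hne
    exact hne rfl

end Pool.Agent.SMP
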