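import Mathlib

set_option autoImplicit false

/-!
# Stable matchings with few stable partners: definitions

`n` men, a finite type `R` of rotations, every man has a list `ch m` of rotations (his chain).
An assignment `x : R → Bool` is counted if it is decreasing along every chain.
THEOREM to be proved (files `Part`): if every rotation lies in the chains of exactly two men, every
chain has at most three entries and two rotations which are common to two men with three entries
are not adjacent in both chains, then `count ch ^ 4 ≤ 10 ^ n`; with two instead of three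
`count ch ^ 4 ≤ 7 ^ n`.
-/

open Finset

namespace Pool.Agent.SMP

/-- `x` is decreasing along the list `l` -/
def Dec {R : Type} (l : List R) (x : R → Bool) : Prop :=
  l.Pairwise (fun a b => x b = true → x a = true)

/-- the men with the rotation `ρ` -/
def men {n : ℕ} {R : Type} [DecidableEq R] (ch : Fin n → List R) (ρ : R) : Finset (Fin n) :=
  univ.filter (fun m => ρ ∈ ch m)

open Classical in
/-- the number of assignments decreasing along all chains -/
noncomputable def count {n : ℕ} {R : Type} [Fintype R] (ch : Fin n → List R) : ℕ :=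
  (univ.filter (fun x : R → Bool => ∀ m, Dec (ch m) x)).card

/-- the rotations of the men of `A` -/
def lab {n : ℕ} {R : Type} [DecidableEq R] (ch : Fin n → List R) (A : Finset (Fin n)) :
    Finset R :=
  A.biUnion (fun m => (ch m).toFinset)

open Classical in
/-- the rotations of the men of `A` which also belong to a man outside `A` -/
noncomputable def ext {n : ℕ} {R : Type} [DecidableEq R] (ch : Fin n → List R)
    (A : Finset (Fin n)) : Finset R :=
  (lab ch A).filter (fun ρ => ∃ m, m ∉ A ∧ ρ ∈ ch m)

open Classical in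
/-- the local assignments of the group `A` (zero off the rotations of `A`) -/
noncomputable def St {n : ℕ} {R : Type} [Fintype R] [DecidableEq R] (ch : Fin n → List R)
    (A : Finset (Fin n)) : Finset (R → Bool) :=
  univ.filter (fun x : R → Bool => (∀ ρ, ρ ∉ lab ch A → x ρ = false) ∧ ∀ m ∈ A, Dec (ch m) x)

open Classical in
/-- number of pairs of local assignments of `A` which agree on the outer rotations -/
noncomputable def cost {n : ℕ} {R : Type} [Fintype R] [DecidableEq R] (ch : Fin n → List R)
    (A : Finset (Fin n)) : ℕ :=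
  ((St ch A ×ˢ St ch A).filter (fun p => ∀ ρ ∈ ext ch A, p.1 ρ = p.2 ρ)).card

/-- `σ` comes directly after `ρ` in `l` -/
def Nxt {R : Type} [DecidableEq R] (l : List R) (ρ σ : R) : Prop :=
  ρ ∈ l ∧ σ ∈ l ∧ l.idxOf ρ + 1 = l.idxOf σ

/-- adjacent in the list `l` -/
def Adj {R : Type} [DecidableEq R] (l : List R) (ρ σ : R) : Prop := Nxt l ρ σ ∨ Nxt l σ ρ

/-- the hypotheses on the chains; `K = 3` or `K = 2` -/
structure Net {n : ℕ} {R : Type} [DecidableEq R] (K : ℕ) (ch : Fin n → List R) : Prop where
  nodup : ∀ m, (ch m).Nodup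
  len : ∀ m, (ch m).length ≤ K
  two : ∀ ρ, (men ch ρ).card = 2
  par : ∀ m x, m ≠ x → (ch m).length = K → (ch x).length = K → ∀ ρ σ,
    ¬ (Adj (ch m) ρ σ ∧ Adj (ch x) ρ σ)

/-- the men `c` and `l` have a common rotation which is the middle rotation of a man (one of the
two) with three rotations -/
def Joined {n : ℕ} {R : Type} (ch : Fin n → List R) (c l : Fin n) : Prop :=
  ∃ ρ, ρ ∈ ch c ∧ ρ ∈ ch l ∧
    (((ch c).length = 3 ∧ (ch c)[1]? = some ρ) ∨ ((ch l).length = 3 ∧ (ch l)[1]? = some ρ))

/-- the men `c` and `l` have a common rotation -/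
def Share {n : ℕ} {R : Type} (ch : Fin n → List R) (c l : Fin n) : Prop :=
  ∃ ρ, ρ ∈ ch c ∧ ρ ∈ ch l

lemma mem_men {n : ℕ} {R : Type} [DecidableEq R] {ch : Fin n → List R} {ρ : R} {m : Fin n} :
    m ∈ men ch ρ ↔ ρ ∈ ch m := by
  simp [men]

lemma mem_lab {n : ℕ} {R : Type} [DecidableEq R] {ch : Fin n → List R} {A : Finset (Fin n)}
    {ρ : R} : ρ ∈ lab ch A ↔ ∃ m ∈ A, ρ ∈ ch m := by
  simp [lab]

lemma mem_ext {n : ℕ} {R : Type} [DecidableEq R] {ch : Fin n → List R} {A : Finset (Fin n)}
    {ρ : R} : ρ ∈ ext ch A ↔ (∃ m ∈ A, ρ ∈ ch m) ∧ ∃ m, m ∉ A ∧ ρ ∈ ch m := by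
  classical
  rw [ext, Finset.mem_filter, mem_lab]

lemma mem_St {n : ℕ} {R : Type} [Fintype R] [DecidableEq R] {ch : Fin n → List R}
    {A : Finset (Fin n)} {x : R → Bool} :
    x ∈ St ch A ↔ (∀ ρ, ρ ∉ lab ch A → x ρ = false) ∧ ∀ m ∈ A, Dec (ch m) x := by
  classical
  rw [St, Finset.mem_filter]
  simp

lemma Dec.sublist {R : Type} {l l' : List R} (h : l'.Sublist l) {x : R → Bool} (hx : Dec l x) :
    Dec l' x :=
  List.Pairwise.sublist h hx

end Pool.Agent.SMP
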