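import Pool.Agent.StabM.StabLat

set_option autoImplicit false

/-!
# Two instances with four men

Ranks (value of `mp m` at the woman `w`; smaller is better).
Ten stable matchings:
`mp = ![(0,1,2,3), (1,0,3,2), (2,3,0,1), (3,2,1,0)]`,
`wp = ![(3,2,1,0), (2,3,0,1), (1,0,3,2), (0,1,2,3)]` (all four women are partners of each man).
Seven stable matchings, three partners for every man:
`mp = ![(0,2,3,1), (2,3,0,1), (1,0,2,3), (3,2,0,1)]`,
`wp = ![(2,1,3,0), (3,0,2,1), (0,3,1,2), (1,2,0,3)]`.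
The permutations are given with their inverses; the matchings are counted by `decide +kernel` over
the 24 permutations.
-/

open Finset

namespace Pool.Agent.SMP

open Pool.Agent.StabM

/-- a permutation of four points given by its values and the values of its inverse -/
private def pm (f g : Fin 4 → Fin 4) (h1 : ∀ x, g (f x) = x) (h2 : ∀ x, f (g x) = x) :
    Equiv.Perm (Fin 4) := ⟨f, g, h1, h2⟩

private def mp10 : Fin 4 → Equiv.Perm (Fin 4) :=
  ![pm ![0, 1, 2, 3] ![0, 1, 2, 3] (by decide) (by decide),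
    pm ![1, 0, 3, 2] ![1, 0, 3, 2] (by decide) (by decide),
    pm ![2, 3, 0, 1] ![2, 3, 0, 1] (by decide) (by decide),
    pm ![3, 2, 1, 0] ![3, 2, 1, 0] (by decide) (by decide)]

private def wp10 : Fin 4 → Equiv.Perm (Fin 4) :=
  ![pm ![3, 2, 1, 0] ![3, 2, 1, 0] (by decide) (by decide),
    pm ![2, 3, 0, 1] ![2, 3, 0, 1] (by decide) (by decide),
    pm ![1, 0, 3, 2] ![1, 0, 3, 2] (by decide) (by decide),
    pm ![0, 1, 2, 3] ![0, 1, 2, 3] (by decide) (by decide)]

private def mp7 : Fin 4 → Equiv.Perm (Fin 4) :=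
  ![pm ![0, 2, 3, 1] ![0, 3, 1, 2] (by decide) (by decide),
    pm ![2, 3, 0, 1] ![2, 3, 0, 1] (by decide) (by decide),
    pm ![1, 0, 2, 3] ![1, 0, 2, 3] (by decide) (by decide),
    pm ![3, 2, 0, 1] ![2, 3, 1, 0] (by decide) (by decide)]

private def wp7 : Fin 4 → Equiv.Perm (Fin 4) :=
  ![pm ![2, 1, 3, 0] ![3, 1, 0, 2] (by decide) (by decide),
    pm ![3, 0, 2, 1] ![1, 3, 2, 0] (by decide) (by decide),
    pm ![0, 3, 1, 2] ![0, 2, 3, 1] (by decide) (by decide),
    pm ![1, 2, 0, 3] ![2, 0, 1, 3] (by decide) (by decide)]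

theorem base10 : ∃ mp wp : Fin 4 → Equiv.Perm (Fin 4), (stabS mp wp).card = 10 :=
  ⟨mp10, wp10, by decide +kernel⟩

theorem base7 : ∃ mp wp : Fin 4 → Equiv.Perm (Fin 4), (stabS mp wp).card = 7 ∧
    ∀ m, ((stabS mp wp).image (fun σ => σ m)).card ≤ 3 :=
  ⟨mp7, wp7, by decide +kernel, by decide +kernel⟩

end Pool.Agent.SMP
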