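import Mathlib

set_option autoImplicit false

/-!
# Consecutive rotations with two common men

PAPER PROOF. `A` = points moved from `ρ'` to `ρ`, `B` = points moved from `σ'` to `σ`; `m, x` are in
both, `σ' m = ρ m`, `σ' x = ρ x`, `σ m ≠ ρ' m`, `σ x ≠ ρ' x`.
(1) `A.card = 2`: `A = {m, x}` and `ρ', ρ` agree elsewhere, so `ρ m = ρ' x`, `ρ x = ρ' m`. Then
`σ m ≠ ρ' m = ρ x = σ' x` and `σ m ≠ σ' m`; so `y = σ'⁻¹ (σ m)` is different from `m`, `x`, and
`y ∈ B` (otherwise `σ y = σ' y = σ m`, `y = m`). In the same way `σ x ≠ ρ' x = ρ m = σ' m`,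
`z = σ'⁻¹ (σ x) ∈ B` different from `m, x`, and `y ≠ z`. So `m, x, y, z ∈ B`.
(2) `B.card = 2`: `B = {m, x}`, `σ m = σ' x = ρ x`, `σ x = σ' m = ρ m`; so `ρ x ≠ ρ' m` and
`ρ m ≠ ρ' x`; `y = ρ'⁻¹ (ρ m)` and `z = ρ'⁻¹ (ρ x)` are in `A`, different, and different from
`m, x`.
-/

open Finset

namespace Pool.Agent.SMP

private lemma two {n : ℕ} (τ' τ : Equiv.Perm (Fin n)) (m x : Fin n) (hmx : m ≠ x)
    (hm : τ' m ≠ τ m) (hx : τ' x ≠ τ x)
    (hc : (univ.filter (fun y => τ' y ≠ τ y)).card = 2) : τ m = τ' x ∧ τ x = τ' m := by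
  have hA : ({m, x} : Finset (Fin n)) = univ.filter (fun y => τ' y ≠ τ y) := by
    refine Finset.eq_of_subset_of_card_le ?_ ?_
    · intro y hy
      rw [Finset.mem_insert, Finset.mem_singleton] at hy
      rw [Finset.mem_filter]
      rcases hy with rfl | rfl
      · exact ⟨Finset.mem_univ _, hm⟩
      · exact ⟨Finset.mem_univ _, hx⟩
    · rw [hc, Finset.card_pair hmx]
  have hout : ∀ w, w ≠ m → w ≠ x → τ' w = τ w := by
    intro w h1 h2
    by_contra h
    have h3 : w ∈ ({m, x} : Finset (Fin n)) := by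
      rw [hA, Finset.mem_filter]
      exact ⟨Finset.mem_univ _, h⟩
    rw [Finset.mem_insert, Finset.mem_singleton] at h3
    rcases h3 with h3 | h3
    · exact h1 h3
    · exact h2 h3
  constructor
  · obtain ⟨w, hw⟩ := τ'.surjective (τ m)
    have h1 : w ≠ m := by
      rintro rfl
      exact hm hw
    by_cases h2 : w = x
    · rw [← hw, h2]
    · exfalso
      apply h1
      apply τ.injective
      rw [← hout w h1 h2, hw]
  · obtain ⟨w, hw⟩ := τ'.surjective (τ x)
    have h1 : w ≠ x := by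
      rintro rfl
      exact hx hw
    by_cases h2 : w = m
    · rw [← hw, h2]
    · exfalso
      apply h1
      apply τ.injective
      rw [← hout w h2 h1, hw]

private lemma four {n : ℕ} (τ' τ : Equiv.Perm (Fin n)) (m x : Fin n) (hmx : m ≠ x)
    (hm : τ' m ≠ τ m) (hx : τ' x ≠ τ x) (h1 : τ m ≠ τ' x) (h2 : τ x ≠ τ' m) :
    4 ≤ (univ.filter (fun y => τ' y ≠ τ y)).card := by
  obtain ⟨y, hy⟩ := τ'.surjective (τ m)
  obtain ⟨z, hz⟩ := τ'.surjective (τ x)
  have a1 : y ≠ m := by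
    rintro rfl
    exact hm hy
  have a2 : y ≠ x := by
    rintro rfl
    exact h1 hy.symm
  have a3 : z ≠ x := by
    rintro rfl
    exact hx hz
  have a4 : z ≠ m := by
    rintro rfl
    exact h2 hz.symm
  have a5 : y ≠ z := by
    rintro rfl
    exact hmx (τ.injective (hy.symm.trans hz))
  have a6 : τ' y ≠ τ y := by
    intro h
    exact a1 (τ.injective (h.symm.trans hy))
  have a7 : τ' z ≠ τ z := by
    intro h
    exact a3 (τ.injective (h.symm.trans hz))
  have h3 : ({m, x, y, z} : Finset (Fin n)).card = 4 := by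
    rw [Finset.card_insert_of_notMem, Finset.card_insert_of_notMem, Finset.card_pair a5]
    · rw [Finset.mem_insert, Finset.mem_singleton]
      rintro (h | h)
      · exact a2 h.symm
      · exact a3 h.symm
    · rw [Finset.mem_insert, Finset.mem_insert, Finset.mem_singleton]
      rintro (h | h | h)
      · exact hmx h
      · exact a1 h.symm
      · exact a4 h.symm
  rw [← h3]
  refine Finset.card_le_card fun w hw => ?_
  rw [Finset.mem_insert, Finset.mem_insert, Finset.mem_insert, Finset.mem_singleton] at hw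
  rw [Finset.mem_filter]
  rcases hw with rfl | rfl | rfl | rfl
  · exact ⟨Finset.mem_univ _, hm⟩
  · exact ⟨Finset.mem_univ _, hx⟩
  · exact ⟨Finset.mem_univ _, a6⟩
  · exact ⟨Finset.mem_univ _, a7⟩

theorem women {n : ℕ} (ρ' ρ σ' σ : Equiv.Perm (Fin n)) (m x : Fin n) (hmx : m ≠ x)
    (h1 : ρ' m ≠ ρ m) (h1' : ρ' x ≠ ρ x) (h2 : σ' m = ρ m) (h2' : σ' x = ρ x)
    (h3 : σ' m ≠ σ m) (h3' : σ' x ≠ σ x) (h4 : σ m ≠ ρ' m) (h4' : σ x ≠ ρ' x) :
    ((univ.filter (fun y => ρ' y ≠ ρ y)).card = 2 →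
      4 ≤ (univ.filter (fun y => σ' y ≠ σ y)).card) ∧
    ((univ.filter (fun y => σ' y ≠ σ y)).card = 2 →
      4 ≤ (univ.filter (fun y => ρ' y ≠ ρ y)).card) := by
  constructor
  · intro hc
    obtain ⟨e1, e2⟩ := two ρ' ρ m x hmx h1 h1' hc
    refine four σ' σ m x hmx h3 h3' ?_ ?_
    · rw [h2', e2]
      exact h4
    · rw [h2, e1]
      exact h4'
  · intro hc
    obtain ⟨e1, e2⟩ := two σ' σ m x hmx h3 h3' hc
    refine four ρ' ρ m x hmx h1 h1' ?_ ?_
    · rw [← h2, ← e2]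
      exact h4'
    · rw [← h2', ← e1]
      exact h4

end Pool.Agent.SMP
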