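import Pool.Agent.SMP.Pre
import Pool.Agent.SMP.Wom

set_option autoImplicit false

/-!
# The chains of rotations of a good family

PAPER PROOF. `β` from `exists_bot`, `R = {ρ // IsRot S r β ρ}` (a subtype of the permutations; finite
and with decidable equality classically), `pre ρ` from `exists_pre`,
`rk ρ = (∑ q, (r q (ρ q) - r q (β q))).toNat` (all terms are nonnegative; `Ple r ρ σ`, `ρ ≠ σ` give
`rk ρ < rk σ` since `r q` is injective), `cf m` = the rotations `ρ` with `pre ρ m ≠ ρ m`, sorted by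
`rk` (`List.mergeSort` or `insertionSort` of `Finset.toList`).
* By `exists_pre`, `pre ρ m ≠ ρ m` iff `ρ m ∈ low S r β m` and `ji S r m (ρ m) = ρ`. So
  `ρ ↦ ρ m` maps the entries of `cf m` injectively to `low S r β m` (in fact bijectively, the inverse
  is `ji S r m`), and for two entries `ρ, σ`: `Ple r ρ σ ↔ r m (ρ m) ≤ r m (σ m)` (`ji_spec`). So
  the entries of `cf m` are pairwise comparable, `rk` is injective on them and increases along
  `cf m` with `r m (ρ m)`; this gives the first clause.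
* `men cf ρ = {x : pre ρ x ≠ ρ x}`, at least two elements (`two_le_moved`).
* length: `(cf m).length ≤ (low S r β m).card ≤ (S.image (fun σ => σ m)).card - 1 ≤ K`
  (`β m` is in the image and not in `low`).
* the adjacency clause: let `Nxt (cf m) ρ σ`. Then `pre σ m = ρ m`: `r m (ρ m) < r m (σ m)`, so by the
  gap clause of `exists_pre` for `σ`: `r m (ρ m) ≤ r m (pre σ m)`; if this were strict, then
  `ν = ji S r m (pre σ m)` would be an entry of `cf m` strictly between `ρ` and `σ` (`pre σ m` is in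
  `low S r β m`), which `Nxt` excludes. Also `pre σ m ≠ σ m`, `pre ρ m ≠ ρ m` and
  `r m (pre ρ m) < r m (ρ m) < r m (σ m)`, so `σ m ≠ pre ρ m`. The same for `x`: apply `women`.
* `S.card ≤ count cf`: the map `σ ↦ (fun ρ => decide (Ple r ρ σ))` is injective on `S`: if `σ, τ`
  have the same image then for each `m`: `σ m = β m` or `σ m ∈ low S r β m` and
  `ji S r m (σ m)` is below `σ`, hence below `τ`, `r m (σ m) ≤ r m (τ m)`; and symmetrically. The
  image is decreasing along `cf m` because earlier entries are `Ple` later ones.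
-/

open Finset

namespace Pool.Agent.SMP

open Pool.Agent.StabM

section aux

private lemma idx_lt {R : Type} [DecidableEq R] {l : List R} {rk : R → ℕ}
    (h : l.Pairwise (fun a b => rk a < rk b)) {a b : R} (ha : a ∈ l) (hb : b ∈ l) :
    l.idxOf a < l.idxOf b ↔ rk a < rk b := by
  have key : ∀ {a b : R}, a ∈ l → b ∈ l → l.idxOf a < l.idxOf b → rk a < rk b := by
    intro a b ha hb hab
    have h1 := List.pairwise_iff_getElem.mp h (l.idxOf a) (l.idxOf b)
      (List.idxOf_lt_length_of_mem ha) (List.idxOf_lt_length_of_mem hb) hab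
    rwa [List.getElem_idxOf, List.getElem_idxOf] at h1
  refine ⟨key ha hb, fun h1 => ?_⟩
  rcases lt_trichotomy (l.idxOf a) (l.idxOf b) with h2 | h2 | h2
  · exact h2
  · have h3 : a = b := (List.idxOf_inj ha).mp h2
    rw [h3] at h1
    exact absurd h1 (lt_irrefl _)
  · exact absurd (key hb ha h2) (by omega)

private lemma exists_sorted {R : Type} [DecidableEq R] (s : Finset R) (rk : R → ℕ)
    (hinj : ∀ a ∈ s, ∀ b ∈ s, rk a = rk b → a = b) :
    ∃ l : List R, l.Pairwise (fun a b => rk a < rk b) ∧ (∀ a, a ∈ l ↔ a ∈ s) ∧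
      l.length = s.card := by
  obtain ⟨l, hl⟩ : ∃ l, l = s.toList.insertionSort (fun a b => rk a ≤ rk b) := ⟨_, rfl⟩
  have hp : l.Perm s.toList := by
    rw [hl]
    exact List.perm_insertionSort _ _
  have hmem : ∀ a, a ∈ l ↔ a ∈ s := fun a => by rw [hp.mem_iff, Finset.mem_toList]
  have hs : l.Pairwise (fun a b => rk a ≤ rk b) := by
    rw [hl]
    haveI : Std.Total (fun a b : R => rk a ≤ rk b) := ⟨fun a b => le_total _ _⟩
    haveI : IsTrans R (fun a b : R => rk a ≤ rk b) := ⟨fun a b c h1 h2 => le_trans h1 h2⟩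
    exact List.pairwise_insertionSort _ _
  have hn : l.Nodup := hp.nodup_iff.mpr s.nodup_toList
  refine ⟨l, ?_, hmem, by rw [hp.length_eq, Finset.length_toList]⟩
  have h1 := hs.and hn
  refine List.Pairwise.imp_of_mem ?_ h1
  intro a b ha hb h
  exact lt_of_le_of_ne h.1 (fun he => h.2 (hinj a ((hmem a).mp ha) b ((hmem b).mp hb) he))

variable {n : ℕ} {S : Finset (Equiv.Perm (Fin n))} {r : Fin n → Fin n → ℤ}
  {β : Equiv.Perm (Fin n)}

private def rkz (r : Fin n → Fin n → ℤ) (β ρ : Equiv.Perm (Fin n)) : ℤ :=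
  ∑ q, (r q (ρ q) - r q (β q))

private lemma rkz_lt (hg : Good S r) {ρ σ : Equiv.Perm (Fin n)} (h : Ple r ρ σ) (hne : ρ ≠ σ) :
    rkz r β ρ < rkz r β σ := by
  unfold rkz
  apply Finset.sum_lt_sum
  · intro q _
    have := h q
    omega
  · obtain ⟨q, hq⟩ : ∃ q, ρ q ≠ σ q := by
      by_contra hcon
      push Not at hcon
      exact hne (Equiv.ext hcon)
    refine ⟨q, mem_univ _, ?_⟩
    have h1 := h q
    have h2 : r q (ρ q) ≠ r q (σ q) := fun h => hq (hg.inj q h)
    omega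

private lemma rkz_nonneg {σ : Equiv.Perm (Fin n)} (hb : Ple r β σ) : 0 ≤ rkz r β σ :=
  Finset.sum_nonneg (fun q _ => by
    have := hb q
    omega)

private lemma card_le_count {R : Type} [Fintype R] (cf : Fin n → List R) {α : Type}
    (A : Finset α) (f : α → R → Bool) (h1 : ∀ a ∈ A, ∀ m, Dec (cf m) (f a))
    (h2 : Set.InjOn f (A : Set α)) : A.card ≤ count cf := by
  classical
  unfold count
  refine Finset.card_le_card_of_injOn f ?_ h2
  intro a ha
  rw [Finset.mem_coe, Finset.mem_filter]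
  exact ⟨Finset.mem_univ _, h1 a ha⟩

end aux

theorem exists_chains {n : ℕ} {S : Finset (Equiv.Perm (Fin n))} {r : Fin n → Fin n → ℤ}
    (hg : Good S r) (hS : S.Nonempty) (K : ℕ)
    (hK : ∀ m, (S.image (fun σ => σ m)).card ≤ K + 1) :
    ∃ (R : Type) (_ : Fintype R) (_ : DecidableEq R) (cf : Fin n → List R) (rk : R → ℕ),
      (∀ m, (cf m).Pairwise (fun a b => rk a < rk b)) ∧
      (∀ ρ, 2 ≤ (men cf ρ).card) ∧
      (∀ m x, m ≠ x → ∀ ρ σ, Nxt (cf m) ρ σ → Nxt (cf x) ρ σ →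
        ((men cf ρ).card = 2 → 4 ≤ (men cf σ).card) ∧
        ((men cf σ).card = 2 → 4 ≤ (men cf ρ).card)) ∧
      (∀ m, (cf m).length ≤ K) ∧ S.card ≤ count cf := by
  classical
  obtain ⟨β, hβ, hb⟩ := exists_bot hg hS
  have hspec := fun {m w : Fin n} (hw : w ∈ low S r β m) => ji_spec hg hβ hb hw
  have hex := fun ρ : {ρ : Equiv.Perm (Fin n) // IsRot S r β ρ} => exists_pre hg hβ hb ρ.2
  choose pre hpS hple hpne hmax hmv hgap using hex
  have hRS : ∀ ρ : {ρ : Equiv.Perm (Fin n) // IsRot S r β ρ}, ρ.1 ∈ S := by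
    rintro ⟨ρ, m, w, hw, rfl⟩
    exact (hspec hw).1
  -- the rank
  obtain ⟨rk, hrk⟩ : ∃ rk : {ρ : Equiv.Perm (Fin n) // IsRot S r β ρ} → ℕ,
    rk = fun ρ => (rkz r β ρ.1).toNat := ⟨_, rfl⟩
  have hrk_lt : ∀ ρ σ, Ple r ρ.1 σ.1 → ρ ≠ σ → rk ρ < rk σ := by
    intro ρ σ h hne
    have h1 : rkz r β ρ.1 < rkz r β σ.1 := rkz_lt hg h (fun h => hne (Subtype.ext h))
    have h2 : 0 ≤ rkz r β ρ.1 := rkz_nonneg (hb _ (hRS ρ))
    rw [hrk]
    show (rkz r β ρ.1).toNat < (rkz r β σ.1).toNat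
    omega
  have hrk_le : ∀ ρ σ, Ple r ρ.1 σ.1 → rk ρ ≤ rk σ := by
    intro ρ σ h
    by_cases hne : ρ = σ
    · rw [hne]
    · exact (hrk_lt ρ σ h hne).le
  -- comparison of entries
  have hcmp : ∀ (m : Fin n) (ρ : {ρ : Equiv.Perm (Fin n) // IsRot S r β ρ}), pre ρ m ≠ ρ.1 m →
      ∀ τ ∈ S, (Ple r ρ.1 τ ↔ r m (ρ.1 m) ≤ r m (τ m)) := by
    intro m ρ h τ hτ
    obtain ⟨h1, h2⟩ := (hmv ρ m).mp h
    have h3 := (hspec h1).2.2 τ hτ
    rwa [h2] at h3
  have hinj : ∀ m (ρ σ : {ρ : Equiv.Perm (Fin n) // IsRot S r β ρ}), pre ρ m ≠ ρ.1 m →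
      pre σ m ≠ σ.1 m → rk ρ = rk σ → ρ = σ := by
    intro m ρ σ h1 h2 h
    by_contra hne
    rcases le_total (r m (ρ.1 m)) (r m (σ.1 m)) with h3 | h3
    · have := hrk_lt ρ σ ((hcmp m ρ h1 _ (hRS σ)).mpr h3) hne
      omega
    · have := hrk_lt σ ρ ((hcmp m σ h2 _ (hRS ρ)).mpr h3) (fun h => hne h.symm)
      omega
  have hlist := fun m => exists_sorted
    (univ.filter fun ρ : {ρ : Equiv.Perm (Fin n) // IsRot S r β ρ} => pre ρ m ≠ ρ.1 m) rk (by
      intro a ha b hb h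
      exact hinj m a b (Finset.mem_filter.mp ha).2 (Finset.mem_filter.mp hb).2 h)
  choose cf hcf1 hcf2 hcf3 using hlist
  have hmem : ∀ m ρ, ρ ∈ cf m ↔ pre ρ m ≠ ρ.1 m := by
    intro m ρ
    rw [hcf2, Finset.mem_filter]
    simp
  have hlt : ∀ m ρ σ, ρ ∈ cf m → σ ∈ cf m → (rk ρ < rk σ ↔ r m (ρ.1 m) < r m (σ.1 m)) := by
    intro m ρ σ h1 h2
    constructor
    · intro h
      by_contra hcon
      push Not at hcon
      have := hrk_le σ ρ ((hcmp m σ ((hmem m σ).mp h2) _ (hRS ρ)).mpr hcon)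
      omega
    · intro h
      refine hrk_lt ρ σ ((hcmp m ρ ((hmem m ρ).mp h1) _ (hRS σ)).mpr h.le) ?_
      rintro rfl
      exact lt_irrefl _ h
  have hmen : ∀ ρ, men cf ρ = univ.filter (fun x => pre ρ x ≠ ρ.1 x) := by
    intro ρ
    ext m
    rw [mem_men, hmem, Finset.mem_filter]
    simp
  -- consecutive entries
  have hnxt : ∀ m ρ σ, Nxt (cf m) ρ σ → pre ρ m ≠ ρ.1 m ∧ pre σ m = ρ.1 m ∧ pre σ m ≠ σ.1 m ∧
      σ.1 m ≠ pre ρ m := by
    intro m ρ σ h
    obtain ⟨h1, h2, h3⟩ := h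
    have h4 : r m (ρ.1 m) < r m (σ.1 m) := by
      rw [← hlt m ρ σ h1 h2, ← idx_lt (hcf1 m) h1 h2]
      omega
    have h1' := (hmem m ρ).mp h1
    have h2' := (hmem m σ).mp h2
    have h5 := hgap ρ m h1'
    have h6 := hgap σ m h2'
    have h7 : r m (ρ.1 m) ≤ r m (pre σ m) := by
      rcases h6.2 ρ.1 (hRS ρ) with h7 | h7
      · exact h7
      · omega
    refine ⟨h1', ?_, h2', ?_⟩
    · by_contra hne
      have h8 : r m (ρ.1 m) < r m (pre σ m) :=
        lt_of_le_of_ne h7 (fun h => hne (hg.inj m h).symm)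
      have h9 : pre σ m ∈ low S r β m := by
        rw [mem_low]
        exact ⟨⟨pre σ, hpS σ, rfl⟩, lt_of_le_of_lt (hb _ (hRS ρ) m) h8⟩
      obtain ⟨h10, h11, h12⟩ := hspec h9
      let ν : {ρ : Equiv.Perm (Fin n) // IsRot S r β ρ} := ⟨ji S r m (pre σ m), m, _, h9, rfl⟩
      have hνm : ν.1 m = pre σ m := h11
      have h13 : ν ∈ cf m := by
        rw [hmem, hmv ν m, hνm]
        exact ⟨h9, rfl⟩
      have h14 : rk ρ < rk ν := by
        rw [hlt m ρ ν h1 h13, hνm]
        exact h8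
      have h15 : rk ν < rk σ := by
        rw [hlt m ν σ h13 h2, hνm]
        exact h6.1
      rw [← idx_lt (hcf1 m) h1 h13] at h14
      rw [← idx_lt (hcf1 m) h13 h2] at h15
      omega
    · intro h
      rw [h] at h4
      have := h5.1
      omega
  refine ⟨{ρ : Equiv.Perm (Fin n) // IsRot S r β ρ}, inferInstance, inferInstance, cf, rk, hcf1,
    ?_, ?_, ?_, ?_⟩
  · intro ρ
    have h1 := hmen ρ
    have h2 := two_le_moved (hpne ρ)
    rw [← h1] at h2
    exact h2
  · intro m x hmx ρ σ h1 h2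
    obtain ⟨a1, a2, a3, a4⟩ := hnxt m ρ σ h1
    obtain ⟨b1, b2, b3, b4⟩ := hnxt x ρ σ h2
    have h3 := women (pre ρ) ρ.1 (pre σ) σ.1 m x hmx a1 b1 a2 b2 a3 b3 a4 b4
    rw [← hmen ρ, ← hmen σ] at h3
    exact h3
  · intro m
    have h1 : (cf m).length ≤ (low S r β m).card := by
      rw [hcf3 m]
      refine Finset.card_le_card_of_injOn (fun ρ => ρ.1 m) ?_ ?_
      · intro ρ hρ
        have h2 := (Finset.mem_filter.mp hρ).2
        exact ((hmv ρ m).mp h2).1
      · intro ρ hρ σ hσ h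
        have h2 := ((hmv ρ m).mp (Finset.mem_filter.mp hρ).2).2
        have h3 := ((hmv σ m).mp (Finset.mem_filter.mp hσ).2).2
        apply Subtype.ext
        rw [← h2, ← h3]
        exact congrArg (ji S r m) h
    have h2 : low S r β m ⊂ S.image (fun σ => σ m) := by
      have h2 : low S r β m ⊆ S.image (fun σ => σ m) := Finset.filter_subset _ _
      rw [Finset.ssubset_iff_of_subset h2]
      refine ⟨β m, Finset.mem_image_of_mem (fun σ : Equiv.Perm (Fin n) => σ m) hβ, ?_⟩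
      intro h
      exact lt_irrefl _ (mem_low.mp h).2
    have h3 := Finset.card_lt_card h2
    have h4 := hK m
    omega
  · refine card_le_count cf S (fun σ ρ => decide (Ple r ρ.1 σ)) ?_ ?_
    · intro σ hσ m
      refine List.Pairwise.imp_of_mem ?_ (hcf1 m)
      intro a b ha hb' hab h
      have h1 : Ple r b.1 σ := of_decide_eq_true h
      have h2 : Ple r a.1 b.1 :=
        (hcmp m a ((hmem m a).mp ha) _ (hRS b)).mpr ((hlt m a b ha hb').mp hab).le
      exact decide_eq_true (fun q => (h2 q).trans (h1 q))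
    · intro σ hσ τ hτ h
      have key : ∀ σ ∈ S, ∀ τ ∈ S, (∀ ρ : {ρ : Equiv.Perm (Fin n) // IsRot S r β ρ},
          Ple r ρ.1 σ → Ple r ρ.1 τ) → ∀ m, r m (σ m) ≤ r m (τ m) := by
        intro σ hσ τ hτ h m
        by_cases h1 : r m (σ m) ≤ r m (β m)
        · exact h1.trans (hb τ hτ m)
        · push Not at h1
          have h2 : σ m ∈ low S r β m := mem_low.mpr ⟨⟨σ, hσ, rfl⟩, h1⟩
          obtain ⟨h3, h4, h5⟩ := hspec h2
          have h6 : Ple r (ji S r m (σ m)) σ := (h5 σ hσ).mpr le_rfl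
          exact (h5 τ hτ).mp (h ⟨ji S r m (σ m), m, _, h2, rfl⟩ h6)
      have h1 : ∀ ρ : {ρ : Equiv.Perm (Fin n) // IsRot S r β ρ}, (Ple r ρ.1 σ ↔ Ple r ρ.1 τ) := by
        intro ρ
        have h2 := congrFun h ρ
        exact decide_eq_decide.mp h2
      refine Equiv.ext fun m => hg.inj m (le_antisymm ?_ ?_)
      · exact key σ hσ τ hτ (fun ρ => (h1 ρ).mp) m
      · exact key τ hτ σ hσ (fun ρ => (h1 ρ).mpr) m

end Pool.Agent.SMP
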