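import Pool.Agent.SMP.Hol

set_option autoImplicit false

/-!
# The number of assignments is at most the product of the square roots of the group costs

PAPER PROOF. Let `A i = {m : g m = i}`, `N i = ext ch (A i)`, `W` the union of the `N i`
(= the rotations whose two men are in different groups). For `y : R → Bool` let
`F i y = #{x in St ch (A i) : x ρ = y ρ for all ρ in ext ch (A i)}` (as a real number).
* `count ch ≤ ∑ y in supp W, ∏ i, F i y`: the map sending a counted `x` to the pair
  (`y` = `x` on `W` and `false` off `W`, the family of the `x` restricted to `lab ch (A i)`) is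
  injective since every rotation belongs to a man (`two`), hence to `lab ch (A i)` for some `i`;
  the number of `x` with given `y` is at most `∏ i, F i y` (`Finset.card_le_card_of_injOn` into a
  `Fintype.piFinset`).
* every `ρ` in `W` is in `N i` for at least two `i` (the groups of its two men), so `holder` gives
  `∑ y in supp W, ∏ i, F i y ≤ ∏ i, sqrt (∑ y in supp (N i), F i y ^ 2)`.
* `∑ y in supp (N i), F i y ^ 2 = cost ch (A i)` (only `≤` is needed): fibre the set of pairs of
  `cost` over the common values on `ext ch (A i)`.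
* square.
-/

open Finset

namespace Pool.Agent.SMP

open Classical in
/-- the local assignments of `A` with the values `y` on the outer rotations -/
private noncomputable def EE {n : ℕ} {R : Type} [Fintype R] [DecidableEq R] (ch : Fin n → List R)
    (A : Finset (Fin n)) (y : R → Bool) : Finset (R → Bool) :=
  (St ch A).filter (fun x => ∀ ρ ∈ ext ch A, x ρ = y ρ)

private lemma mem_EE {n : ℕ} {R : Type} [Fintype R] [DecidableEq R] {ch : Fin n → List R}
    {A : Finset (Fin n)} {y x : R → Bool} :
    x ∈ EE ch A y ↔ x ∈ St ch A ∧ ∀ ρ ∈ ext ch A, x ρ = y ρ := by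
  classical
  rw [EE, Finset.mem_filter]

private lemma ext_sub_lab {n : ℕ} {R : Type} [DecidableEq R] {ch : Fin n → List R}
    {A : Finset (Fin n)} {ρ : R} (h : ρ ∈ ext ch A) : ρ ∈ lab ch A :=
  mem_lab.2 (mem_ext.1 h).1

private lemma mem_supp {V : Type} [Fintype V] [DecidableEq V] {W : Finset V} {x : V → Bool} :
    x ∈ supp W ↔ ∀ v, v ∉ W → x v = false := by
  rw [supp, Finset.mem_filter]
  simp

/-- the fibres -/
private lemma fib_le {n : ℕ} {R : Type} [Fintype R] [DecidableEq R] (ch : Fin n → List R)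
    (two : ∀ ρ, (men ch ρ).card = 2) (g : Fin n → Fin n) (W : Finset R)
    (hW : ∀ i, ext ch (univ.filter (fun m => g m = i)) ⊆ W) (y : R → Bool) (T : Finset (R → Bool))
    (hT : ∀ x ∈ T, (∀ m, Dec (ch m) x) ∧ ∀ ρ ∈ W, x ρ = y ρ) :
    T.card ≤ ∏ i, (EE ch (univ.filter (fun m => g m = i)) y).card := by
  classical
  rw [← Fintype.card_piFinset]
  refine Finset.card_le_card_of_injOn (fun x => fun i => fun ρ =>
    if ρ ∈ lab ch (univ.filter (fun m => g m = i)) then x ρ else false) ?_ ?_
  · intro x hx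
    have hx' := hT x (Finset.mem_coe.1 hx)
    rw [Finset.mem_coe, Fintype.mem_piFinset]
    intro i
    rw [mem_EE, mem_St]
    refine ⟨⟨fun ρ hρ => by simp [hρ], fun m hm => ?_⟩, fun ρ hρ => ?_⟩
    · have h1 := hx'.1 m
      unfold Dec at h1 ⊢
      refine List.Pairwise.imp_of_mem ?_ h1
      intro a b ha hb hab
      have ha' : a ∈ lab ch (univ.filter (fun m => g m = i)) := mem_lab.2 ⟨m, hm, ha⟩
      have hb' : b ∈ lab ch (univ.filter (fun m => g m = i)) := mem_lab.2 ⟨m, hm, hb⟩
      simp only [ha', hb', if_true]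
      exact hab
    · have h2 := ext_sub_lab hρ
      simp only [h2, if_true]
      exact hx'.2 ρ (hW i hρ)
  · intro x _ x' _ hxx
    funext ρ
    have h3 : (men ch ρ).Nonempty := by
      rw [← Finset.card_pos, two ρ]
      norm_num
    obtain ⟨m, hm⟩ := h3
    rw [mem_men] at hm
    have h4 : ρ ∈ lab ch (univ.filter (fun m' => g m' = g m)) :=
      mem_lab.2 ⟨m, by simp, hm⟩
    have h5 := congrFun (congrFun hxx (g m)) ρ
    simp only [h4, if_true] at h5
    exact h5

/-- the sum of squares -/
private lemma sq_le {n : ℕ} {R : Type} [Fintype R] [DecidableEq R] (ch : Fin n → List R)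
    (A : Finset (Fin n)) :
    ∑ y ∈ supp (ext ch A), (EE ch A y).card ^ 2 ≤ cost ch A := by
  classical
  have h1 : ∑ y ∈ supp (ext ch A), (EE ch A y).card ^ 2 =
      ((supp (ext ch A)).sigma (fun y => EE ch A y ×ˢ EE ch A y)).card := by
    rw [Finset.card_sigma]
    exact Finset.sum_congr rfl fun y _ => by rw [Finset.card_product, sq]
  rw [h1]
  unfold cost
  refine Finset.card_le_card_of_injOn (fun z => z.2) ?_ ?_
  · intro z hz
    rw [Finset.mem_coe, Finset.mem_sigma, Finset.mem_product, mem_EE, mem_EE] at hz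
    rw [Finset.mem_coe, Finset.mem_filter, Finset.mem_product]
    exact ⟨⟨hz.2.1.1, hz.2.2.1⟩, fun ρ hρ => (hz.2.1.2 ρ hρ).trans (hz.2.2.2 ρ hρ).symm⟩
  · rintro ⟨y, p⟩ hz ⟨y', p'⟩ hz' hpp
    simp only at hpp
    subst hpp
    rw [Finset.mem_coe, Finset.mem_sigma, Finset.mem_product, mem_EE, mem_EE] at hz hz'
    simp only at hz hz'
    have h2 : y = y' := by
      funext ρ
      by_cases hρ : ρ ∈ ext ch A
      · rw [← hz.2.1.2 ρ hρ, ← hz'.2.1.2 ρ hρ]
      · rw [mem_supp.1 hz.1 ρ hρ, mem_supp.1 hz'.1 ρ hρ]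
    rw [h2]

theorem count_sq_le {n : ℕ} {R : Type} [Fintype R] [DecidableEq R] (ch : Fin n → List R)
    (two : ∀ ρ, (men ch ρ).card = 2) (g : Fin n → Fin n) :
    count ch ^ 2 ≤ ∏ i, cost ch (univ.filter (fun m => g m = i)) := by
  classical
  set N : Fin n → Finset R := fun i => ext ch (univ.filter (fun m => g m = i)) with hN
  set W : Finset R := univ.biUnion N with hWdef
  have hNW : ∀ i, N i ⊆ W := fun i => Finset.subset_biUnion_of_mem N (Finset.mem_univ i)
  have hN2 : ∀ v ∈ W, 2 ≤ (univ.filter (fun i => v ∈ N i)).card := by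
    intro v hv
    rw [hWdef, Finset.mem_biUnion] at hv
    obtain ⟨i, -, hi⟩ := hv
    obtain ⟨⟨m, hm, hvm⟩, m', hm', hvm'⟩ := mem_ext.1 hi
    rw [Finset.mem_filter] at hm hm'
    have hne : g m' ≠ i := fun hc => hm' ⟨Finset.mem_univ _, hc⟩
    have h1 : i ∈ univ.filter (fun i => v ∈ N i) := Finset.mem_filter.2 ⟨Finset.mem_univ _, hi⟩
    have h2 : g m' ∈ univ.filter (fun i => v ∈ N i) := by
      refine Finset.mem_filter.2 ⟨Finset.mem_univ _, mem_ext.2 ⟨⟨m', by simp, hvm'⟩, m, ?_, hvm⟩⟩
      rw [Finset.mem_filter, hm.2]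
      exact fun hc => hne hc.2.symm
    exact Finset.one_lt_card.2 ⟨i, h1, g m', h2, hne.symm⟩
  set F : Fin n → (R → Bool) → ℝ := fun i y =>
    ((EE ch (univ.filter (fun m => g m = i)) y).card : ℝ) with hF
  have hFc : ∀ i x y, (∀ v ∈ N i, x v = y v) → F i x = F i y := by
    intro i x y hxy
    have h1 : EE ch (univ.filter (fun m => g m = i)) x = EE ch (univ.filter (fun m => g m = i)) y := by
      ext z
      rw [mem_EE, mem_EE]
      refine and_congr_right fun _ => forall₂_congr fun ρ hρ => ?_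
      rw [hxy ρ hρ]
    simp only [hF, h1]
  have hhol := holder W N hNW hN2 F (fun i x => Nat.cast_nonneg _) hFc
  -- the first step
  have hcount : (count ch : ℝ) ≤ ∑ y ∈ supp W, ∏ i, F i y := by
    have h1 : count ch ≤ ∑ y ∈ supp W, ∏ i, (EE ch (univ.filter (fun m => g m = i)) y).card := by
      unfold count
      rw [Finset.card_eq_sum_card_fiberwise (f := fun x : R → Bool => fun ρ =>
        if ρ ∈ W then x ρ else false) (t := supp W)]
      · refine Finset.sum_le_sum fun y hy => ?_
        refine fib_le ch two g W hNW y _ fun x hx => ?_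
        rw [Finset.mem_filter, Finset.mem_filter] at hx
        refine ⟨hx.1.2, fun ρ hρ => ?_⟩
        rw [← hx.2]
        simp [hρ]
      · intro x _
        rw [Finset.mem_coe, mem_supp]
        intro v hv
        simp [hv]
    have h2 : (count ch : ℝ) ≤
        ((∑ y ∈ supp W, ∏ i, (EE ch (univ.filter (fun m => g m = i)) y).card : ℕ) : ℝ) := by
      exact_mod_cast h1
    refine h2.trans (le_of_eq ?_)
    push_cast
    rfl
  have hsq : ∀ i, ∑ x ∈ supp (N i), F i x ^ 2 ≤ (cost ch (univ.filter (fun m => g m = i)) : ℝ) := by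
    intro i
    have h1 := sq_le ch (univ.filter (fun m => g m = i))
    have h2 : ((∑ y ∈ supp (ext ch (univ.filter (fun m => g m = i))),
        (EE ch (univ.filter (fun m => g m = i)) y).card ^ 2 : ℕ) : ℝ) ≤
        (cost ch (univ.filter (fun m => g m = i)) : ℝ) := by exact_mod_cast h1
    refine le_trans (le_of_eq ?_) h2
    push_cast
    rfl
  have h3 : (count ch : ℝ) ≤ ∏ i, Real.sqrt (∑ x ∈ supp (N i), F i x ^ 2) := hcount.trans hhol
  have h4 : (count ch : ℝ) ^ 2 ≤ ∏ i, (∑ x ∈ supp (N i), F i x ^ 2) := by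
    calc (count ch : ℝ) ^ 2 ≤ (∏ i, Real.sqrt (∑ x ∈ supp (N i), F i x ^ 2)) ^ 2 :=
          pow_le_pow_left₀ (Nat.cast_nonneg _) h3 2
      _ = ∏ i, (∑ x ∈ supp (N i), F i x ^ 2) := by
          rw [← Finset.prod_pow]
          exact Finset.prod_congr rfl fun i _ =>
            Real.sq_sqrt (Finset.sum_nonneg fun x _ => sq_nonneg _)
  have h5 : (count ch : ℝ) ^ 2 ≤ ∏ i, (cost ch (univ.filter (fun m => g m = i)) : ℝ) :=
    h4.trans (Finset.prod_le_prod (fun i _ => Finset.sum_nonneg fun x _ => sq_nonneg _)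
      fun i _ => hsq i)
  exact_mod_cast h5

end Pool.Agent.SMP
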