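import Pool.Agent.SMP.EnV

set_option autoImplicit false

/-!
# Costs of pairs and triples of men (helper58)
-/

open Finset

namespace Pool.Agent.SMP

variable {n : ℕ} {R : Type} [Fintype R] [DecidableEq R] {ch : Fin n → List R}

omit [Fintype R] in
private lemma not_three {K : ℕ} (h : Net K ch) {c u w : Fin n} (hcu : c ≠ u) (hcw : c ≠ w)
    (huw : u ≠ w) (ρ : R) : ¬ (ρ ∈ ch c ∧ ρ ∈ ch u ∧ ρ ∈ ch w) := by
  rintro ⟨h1, h2, h3⟩
  have hsub : ({c, u, w} : Finset (Fin n)) ⊆ men ch ρ := by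
    intro x hx
    simp only [Finset.mem_insert, Finset.mem_singleton] at hx
    rcases hx with e | e | e <;> subst e <;> rw [mem_men] <;> assumption
  have h4 := Finset.card_le_card hsub
  rw [h.two ρ, Finset.card_eq_three.2 ⟨c, u, w, hcu, hcw, huw, rfl⟩] at h4
  omega

omit [Fintype R] in
private lemma exists_other {K : ℕ} (h : Net K ch) {c : Fin n} {ρ : R} (hc : ρ ∈ ch c) :
    ∃ m, m ≠ c ∧ ρ ∈ ch m := by
  obtain ⟨a, b, hab, he⟩ := Finset.card_eq_two.1 (h.two ρ)
  have hcm : c ∈ men ch ρ := mem_men.2 hc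
  rw [he, Finset.mem_insert, Finset.mem_singleton] at hcm
  have ha : a ∈ men ch ρ := by rw [he]; simp
  have hb : b ∈ men ch ρ := by rw [he]; simp
  rcases hcm with e | e
  · exact ⟨b, by rw [e]; exact hab.symm, mem_men.1 hb⟩
  · exact ⟨a, by rw [e]; exact hab, mem_men.1 ha⟩

private lemma cost3 {K : ℕ} (h : Net K ch) (hK : K ≤ 3) {c u w : Fin n} (hcu : c ≠ u)
    (hcw : c ≠ w) (huw : u ≠ w) (hu : (ch u).length = K) (hw : (ch w).length = K) {f : Bool}
    (hf : f = true → (ch c).length = K) {jx jy : ℕ → ℕ → ℕ → Bool}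
    (hjx : jx (px (ch c) (ch u) 0) (px (ch c) (ch u) 1) (px (ch c) (ch u) 2) = true)
    (hjy : jy (py (ch c) (ch u) (ch w) 0) (py (ch c) (ch u) (ch w) 1)
      (py (ch c) (ch u) (ch w) 2) = true) {bd : ℕ}
    (hc : chk (ch c).length K K bd f jx jy = true) : cost ch {c, u, w} ≤ bd := by
  rw [cost]
  refine list_bound (h.nodup c) (h.nodup u) (h.nodup w) ((h.len c).trans hK)
    ((h.len u).trans hK) ((h.len w).trans hK) (not_three h hcu hcw huw) f
    (fun e => h.par c u hcu (hf e) hu) (fun e => h.par c w hcw (hf e) hw)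
    (h.par u w huw hu hw) hjx hjy (by rw [hu, hw]; exact hc) _ ?_
  intro p hp
  rw [Finset.mem_filter, Finset.mem_product, mem_St, mem_St] at hp
  obtain ⟨⟨⟨z1, d1⟩, ⟨z2, d2⟩⟩, he⟩ := hp
  have hmem : ∀ m, m ∈ ({c, u, w} : Finset (Fin n)) ↔ m = c ∨ m = u ∨ m = w := by
    intro m
    simp
  have hc' := (hmem c).2 (Or.inl rfl)
  have hu' := (hmem u).2 (Or.inr (Or.inl rfl))
  have hw' := (hmem w).2 (Or.inr (Or.inr rfl))
  refine ⟨⟨d1 c hc', d1 u hu', d1 w hw'⟩, ⟨d2 c hc', d2 u hu', d2 w hw'⟩, ?_, ?_⟩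
  · intro ρ m0 m1 m2
    have hl : ρ ∉ lab ch {c, u, w} := by
      rw [mem_lab]
      rintro ⟨m, hm, hρ⟩
      rcases (hmem m).1 hm with e | e | e <;> subst e <;> contradiction
    exact ⟨z1 ρ hl, z2 ρ hl⟩
  · intro ρ ho
    refine he ρ (mem_ext.2 ?_)
    rcases ho with ⟨m0, m1, m2⟩ | ⟨m0, m1, m2⟩ | ⟨m0, m1, m2⟩
    · obtain ⟨m, hm, hρ⟩ := exists_other h m0
      refine ⟨⟨c, hc', m0⟩, m, ?_, hρ⟩
      rw [hmem]
      rintro (e | e | e)
      · exact hm e
      · subst e; exact m1 hρ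
      · subst e; exact m2 hρ
    · obtain ⟨m, hm, hρ⟩ := exists_other h m1
      refine ⟨⟨u, hu', m1⟩, m, ?_, hρ⟩
      rw [hmem]
      rintro (e | e | e)
      · subst e; exact m0 hρ
      · exact hm e
      · subst e; exact m2 hρ
    · obtain ⟨m, hm, hρ⟩ := exists_other h m2
      refine ⟨⟨w, hw', m2⟩, m, ?_, hρ⟩
      rw [hmem]
      rintro (e | e | e)
      · subst e; exact m0 hρ
      · subst e; exact m1 hρ
      · exact hm e

private lemma cost2 {K : ℕ} (h : Net K ch) (hK : K ≤ 3) {c u : Fin n} (hcu : c ≠ u)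
    (hu : (ch u).length = K) {f : Bool}
    (hf : f = true → (ch c).length = K) {jx : ℕ → ℕ → ℕ → Bool}
    (hjx : jx (px (ch c) (ch u) 0) (px (ch c) (ch u) 1) (px (ch c) (ch u) 2) = true) {bd : ℕ}
    (hc : chk (ch c).length K 0 bd f jx tr = true) : cost ch {c, u} ≤ bd := by
  rw [cost]
  have hnil : ∀ (L : List R) (ρ σ : R), ¬ (Adj L ρ σ ∧ Adj ([] : List R) ρ σ) := by
    rintro L ρ σ ⟨_, h1 | h1⟩
    · exact absurd h1.1 (by simp)
    · exact absurd h1.1 (by simp)
  refine list_bound (L2 := []) (h.nodup c) (h.nodup u) List.nodup_nil ((h.len c).trans hK)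
    ((h.len u).trans hK) (by simp) (fun ρ hρ => by simpa using hρ.2.2) f
    (fun e => h.par c u hcu (hf e) hu) (fun _ => hnil _)
    (hnil _) hjx (jy := tr) rfl (by rw [hu]; exact hc) _ ?_
  intro p hp
  rw [Finset.mem_filter, Finset.mem_product, mem_St, mem_St] at hp
  obtain ⟨⟨⟨z1, d1⟩, ⟨z2, d2⟩⟩, he⟩ := hp
  have hmem : ∀ m, m ∈ ({c, u} : Finset (Fin n)) ↔ m = c ∨ m = u := by
    intro m
    simp
  have hc' := (hmem c).2 (Or.inl rfl)
  have hu' := (hmem u).2 (Or.inr rfl)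
  refine ⟨⟨d1 c hc', d1 u hu', List.Pairwise.nil⟩, ⟨d2 c hc', d2 u hu', List.Pairwise.nil⟩, ?_, ?_⟩
  · intro ρ m0 m1 _
    have hl : ρ ∉ lab ch {c, u} := by
      rw [mem_lab]
      rintro ⟨m, hm, hρ⟩
      rcases (hmem m).1 hm with e | e <;> subst e <;> contradiction
    exact ⟨z1 ρ hl, z2 ρ hl⟩
  · intro ρ ho
    refine he ρ (mem_ext.2 ?_)
    rcases ho with ⟨m0, m1, _⟩ | ⟨m0, m1, _⟩ | ⟨_, _, m2⟩
    · obtain ⟨m, hm, hρ⟩ := exists_other h m0
      refine ⟨⟨c, hc', m0⟩, m, ?_, hρ⟩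
      rw [hmem]
      rintro (e | e)
      · exact hm e
      · subst e; exact m1 hρ
    · obtain ⟨m, hm, hρ⟩ := exists_other h m1
      refine ⟨⟨u, hu', m1⟩, m, ?_, hρ⟩
      rw [hmem]
      rintro (e | e)
      · subst e; exact m0 hρ
      · exact hm e
    · exact absurd m2 (by simp)

/-! ### the conditions `jn`, `sh`, `md` -/

omit [Fintype R] in
private lemma jn_px {c u : Fin n} (h : Net 3 ch) (hj : Joined ch c u) :
    jn (ch c).length (px (ch c) (ch u) 0) (px (ch c) (ch u) 1) (px (ch c) (ch u) 2) = true := by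
  obtain ⟨ρ, h1, h2, ⟨h3, h4⟩ | ⟨h3, h4⟩⟩ := hj
  · rcases exists_pos3 (h.len u) h2 with h' | h' | h' <;>
      simp [jn, px_eq (h.nodup c) h' h4, h3]
  · rcases px_cases (ch c) (ch u) (h.len c) 1 with ⟨_, _, _, g⟩ | ⟨_, g⟩
    · have e : Nat.blt (px (ch c) (ch u) 1) 3 = true := by rw [Nat.blt_eq]; exact g
      simp only [jn, e, Bool.true_or]
    · exact absurd h1 (g ρ h4)

omit [Fintype R] in
private lemma jn_py {c u w : Fin n} (h : Net 3 ch) (hj : Joined ch c w) :
    jn (ch c).length (py (ch c) (ch u) (ch w) 0) (py (ch c) (ch u) (ch w) 1)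
      (py (ch c) (ch u) (ch w) 2) = true := by
  obtain ⟨ρ, h1, h2, ⟨h3, h4⟩ | ⟨h3, h4⟩⟩ := hj
  · rcases exists_pos3 (h.len w) h2 with h' | h' | h' <;>
      simp [jn, py_eq0 (L1 := ch u) (h.nodup c) h' h4, h3]
  · obtain ⟨i, hi⟩ := List.mem_iff_getElem?.1 h1
    have hlt : i < (ch c).length := (List.getElem?_eq_some_iff.1 hi).1
    have h5 := h.len c
    have e : Nat.blt (py (ch c) (ch u) (ch w) 1) 3 = true := by
      rw [py_eq0 (L1 := ch u) (h.nodup c) h4 hi, Nat.blt_eq]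
      omega
    simp only [jn, e, Bool.true_or]

omit [Fintype R] in
private lemma sh_px {c u : Fin n} (h : Net 2 ch) (hj : Share ch c u) :
    sh (px (ch c) (ch u) 0) (px (ch c) (ch u) 1) (px (ch c) (ch u) 2) = true := by
  obtain ⟨ρ, h1, h2⟩ := hj
  obtain ⟨i, hi⟩ := List.mem_iff_getElem?.1 h1
  have hlt : i < (ch c).length := (List.getElem?_eq_some_iff.1 hi).1
  have h5 := h.len c
  have e : Nat.blt i 3 = true := by rw [Nat.blt_eq]; omega
  rcases exists_pos3 ((h.len u).trans (by norm_num)) h2 with h' | h' | h' <;>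
    simp only [sh, px_eq (h.nodup c) h' hi, e, Bool.true_or, Bool.or_true]

omit [Fintype R] in
private lemma sh_py {c u w : Fin n} (h : Net 2 ch) (hj : Share ch c w) :
    sh (py (ch c) (ch u) (ch w) 0) (py (ch c) (ch u) (ch w) 1)
      (py (ch c) (ch u) (ch w) 2) = true := by
  obtain ⟨ρ, h1, h2⟩ := hj
  obtain ⟨i, hi⟩ := List.mem_iff_getElem?.1 h1
  have hlt : i < (ch c).length := (List.getElem?_eq_some_iff.1 hi).1
  have h5 := h.len c
  have e : Nat.blt i 3 = true := by rw [Nat.blt_eq]; omega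
  rcases exists_pos3 ((h.len w).trans (by norm_num)) h2 with h' | h' | h' <;>
    simp only [sh, py_eq0 (L1 := ch u) (h.nodup c) h' hi, e, Bool.true_or, Bool.or_true]

omit [Fintype R] [DecidableEq R] in
private lemma pos_of_mem {ρ : R} {c : Fin n} (h : ρ ∈ ch c) : 1 ≤ (ch c).length :=
  List.length_pos_of_mem h

theorem cost_pair3 (h : Net 3 ch) {c l : Fin n} (hcl : c ≠ l) (hl : (ch l).length = 3)
    (hj : Joined ch c l) : cost ch {c, l} ≤ 10 := by
  have hjx := jn_px h hj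
  have h1 : 1 ≤ (ch c).length := pos_of_mem hj.choose_spec.1
  have h2 := h.len c
  have h3 : (ch c).length = 3 ∨ (ch c).length = 2 ∨ (ch c).length = 1 := by omega
  rcases h3 with e | e | e
  · rw [e] at hjx
    exact cost2 h le_rfl hcl hl (f := true) (fun _ => e) hjx (by rw [e]; exact en330)
  · rw [e] at hjx
    exact cost2 h le_rfl hcl hl (f := false) (by simp) hjx (by rw [e]; exact en230)
  · rw [e] at hjx
    exact cost2 h le_rfl hcl hl (f := false) (by simp) hjx (by rw [e]; exact en130)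

theorem cost_triple3 (h : Net 3 ch) {c u w : Fin n} (hcu : c ≠ u) (hcw : c ≠ w) (huw : u ≠ w)
    (hu : (ch u).length = 3) (hw : (ch w).length = 3) (hju : Joined ch c u)
    (hjw : Joined ch c w) : cost ch {c, u, w} ≤ 29 := by
  have hjx := jn_px h hju
  have hjy := jn_py (u := u) h hjw
  have h1 : 1 ≤ (ch c).length := pos_of_mem hju.choose_spec.1
  have h2 := h.len c
  have h3 : (ch c).length = 3 ∨ (ch c).length = 2 ∨ (ch c).length = 1 := by omega
  rcases h3 with e | e | e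
  · rw [e] at hjx hjy
    exact cost3 h le_rfl hcu hcw huw hu hw (f := true) (fun _ => e) hjx hjy
      (by rw [e]; exact en333)
  · rw [e] at hjx hjy
    exact cost3 h le_rfl hcu hcw huw hu hw (f := false) (by simp) hjx hjy
      (by rw [e]; exact en233)
  · rw [e] at hjx hjy
    exact cost3 h le_rfl hcu hcw huw hu hw (f := false) (by simp) hjx hjy
      (by rw [e]; exact en133)

theorem cost_ends3 (h : Net 3 ch) {c u w : Fin n} (hcu : c ≠ u) (hcw : c ≠ w) (huw : u ≠ w)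
    (hc : (ch c).length = 3) (hu : (ch u).length = 3) (hw : (ch w).length = 3)
    (hju : (ch u)[1]? = (ch c)[0]?) (hjw : (ch w)[1]? = (ch c)[2]?) :
    cost ch {c, u, w} ≤ 24 := by
  obtain ⟨ρ, hρ⟩ : ∃ ρ, (ch c)[0]? = some ρ := ⟨(ch c)[0], by simp [hc]⟩
  obtain ⟨σ, hσ⟩ : ∃ σ, (ch c)[2]? = some σ := ⟨(ch c)[2], by simp [hc]⟩
  have e1 : px (ch c) (ch u) 1 = 0 := px_eq (h.nodup c) (hju.trans hρ) hρ
  have e2 : py (ch c) (ch u) (ch w) 1 = 2 := py_eq0 (h.nodup c) (hjw.trans hσ) hσ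
  exact cost3 h le_rfl hcu hcw huw hu hw (f := true) (fun _ => hc) (jx := md 0) (jy := md 2)
    (by rw [e1]; rfl) (by rw [e2]; rfl) (by rw [hc]; exact ends333)

theorem cost_pair2 (h : Net 2 ch) {c l : Fin n} (hcl : c ≠ l) (hl : (ch l).length = 2)
    (hj : Share ch c l) : cost ch {c, l} ≤ 7 := by
  have hjx := sh_px h hj
  have h1 : 1 ≤ (ch c).length := pos_of_mem hj.choose_spec.1
  have h2 := h.len c
  have h3 : (ch c).length = 2 ∨ (ch c).length = 1 := by omega
  rcases h3 with e | e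
  · exact cost2 h (by norm_num) hcl hl (f := true) (fun _ => e) hjx (by rw [e]; exact en220)
  · exact cost2 h (by norm_num) hcl hl (f := false) (by simp) hjx (by rw [e]; exact en120)

theorem cost_triple2 (h : Net 2 ch) {c u w : Fin n} (hcu : c ≠ u) (hcw : c ≠ w) (huw : u ≠ w)
    (hu : (ch u).length = 2) (hw : (ch w).length = 2) (hju : Share ch c u)
    (hjw : Share ch c w) : cost ch {c, u, w} ≤ 18 := by
  have hjx := sh_px h hju
  have hjy := sh_py (u := u) h hjw
  have h1 : 1 ≤ (ch c).length := pos_of_mem hju.choose_spec.1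
  have h2 := h.len c
  have h3 : (ch c).length = 2 ∨ (ch c).length = 1 := by omega
  rcases h3 with e | e
  · exact cost3 h (by norm_num) hcu hcw huw hu hw (f := true) (fun _ => e) hjx hjy
      (by rw [e]; exact en222)
  · exact cost3 h (by norm_num) hcu hcw huw hu hw (f := false) (by simp) hjx hjy
      (by rw [e]; exact en122)

end Pool.Agent.SMP
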