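import Mathlib

set_option autoImplicit false

/-!
# Enumeration of the patterns of at most three chains

The three chains have at most three entries. `X j` says where the entry `j` of the second chain
is in the first chain (`3`: nowhere), `Y j` where the entry `j` of the third chain is in the first
(`< 3`) or second (`3, 4, 5`) chain (`6`: nowhere).
-/

namespace Pool.Agent.SMP

/-- all levels -/
def lvl (a b c : ℕ) : List (ℕ × ℕ × ℕ) :=
  (List.range (a + 1)).product ((List.range (b + 1)).product (List.range (c + 1)))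

/-- consistency of entry `j` of the second chain -/
def c1 (X j : ℕ) (k : ℕ × ℕ × ℕ) : Bool :=
  Nat.ble 3 X || (Nat.blt j k.2.1 == Nat.blt X k.1)

/-- consistency of entry `j` of the third chain -/
def c2 (Y j : ℕ) (k : ℕ × ℕ × ℕ) : Bool :=
  bif Nat.blt Y 3 then (Nat.blt j k.2.2 == Nat.blt Y k.1)
  else (Nat.ble 6 Y || (Nat.blt j k.2.2 == Nat.blt (Y - 3) k.2.1))

/-- consistency -/
def con (X0 X1 X2 Y0 Y1 Y2 : ℕ) (k : ℕ × ℕ × ℕ) : Bool :=
  c1 X0 0 k && c1 X1 1 k && c1 X2 2 k && c2 Y0 0 k && c2 Y1 1 k && c2 Y2 2 k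

/-- agreement on the entry `i` of the first chain if it is outer -/
def a0 (X0 X1 X2 Y0 Y1 Y2 i : ℕ) (p : (ℕ × ℕ × ℕ) × (ℕ × ℕ × ℕ)) : Bool :=
  (Nat.blt i p.1.1 == Nat.blt i p.2.1) ||
    (Nat.beq X0 i || Nat.beq X1 i || Nat.beq X2 i || Nat.beq Y0 i || Nat.beq Y1 i || Nat.beq Y2 i)

/-- agreement on the entry `i` of the second chain if it is outer -/
def a1 (X Y0 Y1 Y2 i : ℕ) (p : (ℕ × ℕ × ℕ) × (ℕ × ℕ × ℕ)) : Bool :=
  (Nat.blt i p.1.2.1 == Nat.blt i p.2.2.1) ||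
    (Nat.blt X 3 || Nat.beq Y0 (3 + i) || Nat.beq Y1 (3 + i) || Nat.beq Y2 (3 + i))

/-- agreement on the entry `i` of the third chain if it is outer -/
def a2 (Y i : ℕ) (p : (ℕ × ℕ × ℕ) × (ℕ × ℕ × ℕ)) : Bool :=
  (Nat.blt i p.1.2.2 == Nat.blt i p.2.2.2) || Nat.blt Y 6

/-- agreement on the outer entries -/
def agr (X0 X1 X2 Y0 Y1 Y2 : ℕ) (p : (ℕ × ℕ × ℕ) × (ℕ × ℕ × ℕ)) : Bool :=
  a0 X0 X1 X2 Y0 Y1 Y2 0 p && a0 X0 X1 X2 Y0 Y1 Y2 1 p && a0 X0 X1 X2 Y0 Y1 Y2 2 p &&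
  a1 X0 Y0 Y1 Y2 0 p && a1 X1 Y0 Y1 Y2 1 p && a1 X2 Y0 Y1 Y2 2 p &&
  a2 Y0 0 p && a2 Y1 1 p && a2 Y2 2 p

/-- the pairs of levels -/
def prs (a b c X0 X1 X2 Y0 Y1 Y2 : ℕ) : List ((ℕ × ℕ × ℕ) × (ℕ × ℕ × ℕ)) :=
  (((lvl a b c).filter (con X0 X1 X2 Y0 Y1 Y2)).product
    ((lvl a b c).filter (con X0 X1 X2 Y0 Y1 Y2))).filter (agr X0 X1 X2 Y0 Y1 Y2)

/-- `X` different or nowhere -/
def dX (X X' : ℕ) : Bool := Nat.ble 3 X || !(Nat.beq X X')

/-- `Y` different or nowhere -/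
def dY (Y Y' : ℕ) : Bool := Nat.ble 6 Y || !(Nat.beq Y Y')

/-- no common neighbours -/
def nb (X X' : ℕ) : Bool :=
  Nat.ble 3 X || Nat.ble 3 X' || !(Nat.beq (X + 1) X' || Nat.beq (X' + 1) X)

/-- no common neighbours of second and third chain -/
def nc (Y Y' : ℕ) : Bool :=
  Nat.blt Y 3 || Nat.blt Y' 3 || Nat.ble 6 Y || Nat.ble 6 Y' ||
    !(Nat.beq (Y + 1) Y' || Nat.beq (Y' + 1) Y)

/-- entry `X` of the second chain is in bounds -/
def bX (a b j X : ℕ) : Bool := Nat.beq X 3 || (Nat.blt X a && Nat.blt j b)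

/-- entry `Y` of the third chain is in bounds -/
def bY (a b c j Y : ℕ) : Bool :=
  Nat.beq Y 6 || (Nat.blt j c && (Nat.blt Y a || (Nat.ble 3 Y && Nat.blt Y (3 + b))))

/-- validity of the `X` part -/
def vX (a b X0 X1 X2 : ℕ) : Bool :=
  bX a b 0 X0 && bX a b 1 X1 && bX a b 2 X2 && dX X0 X1 && dX X0 X2 && dX X1 X2

/-- the entry `Y` is not an entry in all three chains -/
def tY (X0 X1 X2 Y : ℕ) : Bool :=
  (Nat.blt Y 3 && !(Nat.beq X0 Y) && !(Nat.beq X1 Y) && !(Nat.beq X2 Y)) ||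
  (Nat.ble 6 Y) ||
  (Nat.beq Y 3 && Nat.beq X0 3) || (Nat.beq Y 4 && Nat.beq X1 3) || (Nat.beq Y 5 && Nat.beq X2 3)

/-- validity of the `Y` part -/
def vY (a b c X0 X1 X2 Y0 Y1 Y2 : ℕ) : Bool :=
  bY a b c 0 Y0 && bY a b c 1 Y1 && bY a b c 2 Y2 && dY Y0 Y1 && dY Y0 Y2 && dY Y1 Y2 &&
  tY X0 X1 X2 Y0 && tY X0 X1 X2 Y1 && tY X0 X1 X2 Y2

/-- joined to the first chain -/
def jn (a X0 X1 X2 : ℕ) : Bool :=
  Nat.blt X1 3 || (Nat.beq a 3 && (Nat.beq X0 1 || Nat.beq X1 1 || Nat.beq X2 1))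

/-- conditions on the second chain -/
def cX (a b : ℕ) (f : Bool) (jx : ℕ → ℕ → ℕ → Bool) (X0 X1 X2 : ℕ) : Bool :=
  vX a b X0 X1 X2 && (!f || (nb X0 X1 && nb X1 X2)) && jx X0 X1 X2

/-- conditions on the third chain -/
def cY (a b c : ℕ) (f : Bool) (jy : ℕ → ℕ → ℕ → Bool) (X0 X1 X2 Y0 Y1 Y2 : ℕ) : Bool :=
  vY a b c X0 X1 X2 Y0 Y1 Y2 && (!f || (nb Y0 Y1 && nb Y1 Y2)) && nc Y0 Y1 && nc Y1 Y2 &&
    jy Y0 Y1 Y2

/-- the whole check -/
def chk (a b c bd : ℕ) (f : Bool) (jx jy : ℕ → ℕ → ℕ → Bool) : Bool :=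
  (List.range 4).all fun X0 => (List.range 4).all fun X1 => (List.range 4).all fun X2 =>
    !(cX a b f jx X0 X1 X2) ||
      (List.range 7).all fun Y0 => (List.range 7).all fun Y1 => !(dY Y0 Y1) ||
        (List.range 7).all fun Y2 => !(cY a b c f jy X0 X1 X2 Y0 Y1 Y2) ||
          Nat.ble (prs a b c X0 X1 X2 Y0 Y1 Y2).length bd

/-- shares a rotation with the first chain -/
def sh (X0 X1 X2 : ℕ) : Bool := Nat.blt X0 3 || Nat.blt X1 3 || Nat.blt X2 3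

/-- the middle entry is the entry `i` of the first chain -/
def md (i : ℕ) (_X0 X1 _X2 : ℕ) : Bool := Nat.beq X1 i

/-- no condition -/
def tr (_X0 _X1 _X2 : ℕ) : Bool := true

theorem en333 : chk 3 3 3 29 true (jn 3) (jn 3) = true := by
  decide +kernel

theorem en233 : chk 2 3 3 29 false (jn 2) (jn 2) = true := by
  decide +kernel

theorem en133 : chk 1 3 3 29 false (jn 1) (jn 1) = true := by
  decide +kernel

theorem ends333 : chk 3 3 3 24 true (md 0) (md 2) = true := by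
  decide +kernel

theorem en330 : chk 3 3 0 10 true (jn 3) tr = true := by
  decide +kernel

theorem en230 : chk 2 3 0 10 false (jn 2) tr = true := by
  decide +kernel

theorem en130 : chk 1 3 0 10 false (jn 1) tr = true := by
  decide +kernel

theorem en222 : chk 2 2 2 18 true sh sh = true := by
  decide +kernel

theorem en122 : chk 1 2 2 18 false sh sh = true := by
  decide +kernel

theorem en220 : chk 2 2 0 7 true sh tr = true := by
  decide +kernel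

theorem en120 : chk 1 2 0 7 false sh tr = true := by
  decide +kernel

end Pool.Agent.SMP
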