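import Pool.Agent.SMP.Bas
import Pool.Agent.SMP.EnC

set_option autoImplicit false

/-!
# From the groups of men to the patterns
-/

open Finset

namespace Pool.Agent.SMP

variable {R : Type} [DecidableEq R]

/-- position of the entry `j` of `L1` in `L0` -/
def px (L0 L1 : List R) (j : ℕ) : ℕ :=
  match L1[j]? with
  | some ρ => if ρ ∈ L0 then L0.idxOf ρ else 3
  | none => 3

/-- position of the entry `j` of `L2` in `L0` or `L1` -/
def py (L0 L1 L2 : List R) (j : ℕ) : ℕ :=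
  match L2[j]? with
  | some ρ => if ρ ∈ L0 then L0.idxOf ρ else if ρ ∈ L1 then 3 + L1.idxOf ρ else 6
  | none => 6

/-- the level -/
def lv (L : List R) (x : R → Bool) : ℕ := L.countP x

omit [DecidableEq R] in
lemma lv_le (L : List R) (x : R → Bool) : lv L x ≤ L.length := List.countP_le_length

omit [DecidableEq R] in
lemma lv_blt {L : List R} {x : R → Bool} (h : Dec L x) {i : ℕ} {ρ : R} (hi : L[i]? = some ρ) :
    Nat.blt i (lv L x) = x ρ := by
  induction L generalizing i with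
  | nil => simp at hi
  | cons a l ih =>
    rw [Dec, List.pairwise_cons] at h
    obtain ⟨h1, h2⟩ := h
    have hblt : ∀ p q : ℕ, Nat.blt p q = decide (p < q) := by
      intro p q
      rw [Bool.eq_iff_iff]
      simp [Nat.blt_eq]
    rcases Bool.eq_false_or_eq_true (x a) with hx | hx
    · have hlv : lv (a :: l) x = lv l x + 1 := by simp [lv, hx]
      cases i with
      | zero =>
        simp at hi
        subst hi
        rw [hblt, hlv, hx]
        simp
      | succ i =>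
        have hi' : l[i]? = some ρ := by simpa using hi
        have := ih h2 hi'
        rw [hblt] at this ⊢
        rw [hlv, ← this]
        simp
    · have hall : ∀ b ∈ l, x b = false := by
        intro b hb
        by_contra hc
        have := h1 b hb (by simpa using hc)
        rw [hx] at this
        exact absurd this (by decide)
      have hlv : lv (a :: l) x = 0 := by
        rw [lv, List.countP_eq_zero]
        intro b hb
        rcases List.mem_cons.1 hb with h | h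
        · subst h; simp [hx]
        · simp [hall b h]
      have hρ : x ρ = false := by
        have hm : ρ ∈ a :: l := List.mem_of_getElem? hi
        rcases List.mem_cons.1 hm with h | h
        · subst h; exact hx
        · exact hall ρ h
      rw [hblt, hlv, hρ]
      simp

omit [DecidableEq R] in
lemma lv_blt_none {L : List R} {x : R → Bool} {i : ℕ} (hi : L[i]? = none) :
    Nat.blt i (lv L x) = false := by
  have h1 : L.length ≤ i := List.getElem?_eq_none_iff.1 hi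
  have h2 := lv_le L x
  rw [Bool.eq_false_iff]
  intro hc
  rw [Nat.blt_eq] at hc
  omega

lemma getElem?_idxOf' {L : List R} {ρ : R} (h : ρ ∈ L) : L[L.idxOf ρ]? = some ρ := by
  have h1 : L.idxOf ρ < L.length := List.idxOf_lt_length_of_mem h
  rw [List.getElem?_eq_getElem h1]
  simp

lemma idxOf_eq' {L : List R} (hn : L.Nodup) {ρ : R} {i : ℕ} (h : L[i]? = some ρ) :
    L.idxOf ρ = i := by
  obtain ⟨h1, h2⟩ := List.getElem?_eq_some_iff.1 h
  subst h2
  exact hn.idxOf_getElem i h1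

lemma px_eq {L0 L1 : List R} (h0 : L0.Nodup) {j i : ℕ} {ρ : R} (hj : L1[j]? = some ρ)
    (hi : L0[i]? = some ρ) : px L0 L1 j = i := by
  have hm : ρ ∈ L0 := List.mem_of_getElem? hi
  simp only [px, hj, if_pos hm]
  exact idxOf_eq' h0 hi

lemma px_cases (L0 L1 : List R) (l0 : L0.length ≤ 3) (j : ℕ) :
    (∃ ρ, L1[j]? = some ρ ∧ L0[px L0 L1 j]? = some ρ ∧ px L0 L1 j < 3) ∨
      (px L0 L1 j = 3 ∧ ∀ ρ, L1[j]? = some ρ → ρ ∉ L0) := by
  rcases h : L1[j]? with _ | ρ
  · right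
    simp [px, h]
  · by_cases hm : ρ ∈ L0
    · left
      refine ⟨ρ, rfl, ?_, ?_⟩
      · simp only [px, h, if_pos hm]
        exact getElem?_idxOf' hm
      · simp only [px, h, if_pos hm]
        exact lt_of_lt_of_le (List.idxOf_lt_length_of_mem hm) l0
    · right
      refine ⟨by simp only [px, h, if_neg hm], ?_⟩
      intro σ hσ
      have : ρ = σ := by simpa using hσ
      subst this
      exact hm

lemma py_eq0 {L0 L1 L2 : List R} (h0 : L0.Nodup) {j i : ℕ} {ρ : R} (hj : L2[j]? = some ρ)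
    (hi : L0[i]? = some ρ) : py L0 L1 L2 j = i := by
  have hm : ρ ∈ L0 := List.mem_of_getElem? hi
  simp only [py, hj, if_pos hm]
  exact idxOf_eq' h0 hi

lemma py_eq1 {L0 L1 L2 : List R} (h1 : L1.Nodup) {j i : ℕ} {ρ : R} (hj : L2[j]? = some ρ)
    (hi : L1[i]? = some ρ) (hm0 : ρ ∉ L0) : py L0 L1 L2 j = 3 + i := by
  have hm : ρ ∈ L1 := List.mem_of_getElem? hi
  simp only [py, hj, if_neg hm0, if_pos hm]
  rw [idxOf_eq' h1 hi]

lemma py_cases (L0 L1 L2 : List R) (l0 : L0.length ≤ 3) (l1 : L1.length ≤ 3) (j : ℕ) :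
    (∃ ρ, L2[j]? = some ρ ∧ L0[py L0 L1 L2 j]? = some ρ ∧ py L0 L1 L2 j < 3) ∨
    (∃ ρ, L2[j]? = some ρ ∧ L1[py L0 L1 L2 j - 3]? = some ρ ∧ ρ ∉ L0 ∧
      3 ≤ py L0 L1 L2 j ∧ py L0 L1 L2 j < 6) ∨
      (py L0 L1 L2 j = 6 ∧ ∀ ρ, L2[j]? = some ρ → ρ ∉ L0 ∧ ρ ∉ L1) := by
  rcases h : L2[j]? with _ | ρ
  · right; right
    simp [py, h]
  · by_cases hm : ρ ∈ L0
    · left
      refine ⟨ρ, rfl, ?_, ?_⟩
      · simp only [py, h, if_pos hm]
        exact getElem?_idxOf' hm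
      · simp only [py, h, if_pos hm]
        exact lt_of_lt_of_le (List.idxOf_lt_length_of_mem hm) l0
    · by_cases hm1 : ρ ∈ L1
      · right; left
        have e : py L0 L1 L2 j = 3 + L1.idxOf ρ := by
          simp only [py, h, if_neg hm, if_pos hm1]
        have hlt := List.idxOf_lt_length_of_mem hm1
        refine ⟨ρ, rfl, ?_, hm, by omega, by omega⟩
        rw [e, Nat.add_sub_cancel_left]
        exact getElem?_idxOf' hm1
      · right; right
        refine ⟨by simp only [py, h, if_neg hm, if_neg hm1], ?_⟩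
        intro σ hσ
        have : ρ = σ := by simpa using hσ
        subst this
        exact ⟨hm, hm1⟩

/-- the levels of `x` -/
def lev (L0 L1 L2 : List R) (x : R → Bool) : ℕ × ℕ × ℕ := (lv L0 x, lv L1 x, lv L2 x)

lemma c1_px {L0 L1 : List R} (L2 : List R) (l0 : L0.length ≤ 3) {x : R → Bool} (d0 : Dec L0 x)
    (d1 : Dec L1 x) (j : ℕ) : c1 (px L0 L1 j) j (lev L0 L1 L2 x) = true := by
  rcases px_cases L0 L1 l0 j with ⟨ρ, h1, h2, h3⟩ | ⟨h, _⟩
  · simp only [c1, lev, lv_blt d1 h1, lv_blt d0 h2, beq_self_eq_true, Bool.or_true]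
  · rw [h]
    rfl

lemma c2_py {L0 L1 L2 : List R} (l0 : L0.length ≤ 3) (l1 : L1.length ≤ 3) {x : R → Bool}
    (d0 : Dec L0 x) (d1 : Dec L1 x) (d2 : Dec L2 x) (j : ℕ) :
    c2 (py L0 L1 L2 j) j (lev L0 L1 L2 x) = true := by
  rcases py_cases L0 L1 L2 l0 l1 j with ⟨ρ, h1, h2, h3⟩ | ⟨ρ, h1, h2, _, h3, h4⟩ | ⟨h, _⟩
  · have e : Nat.blt (py L0 L1 L2 j) 3 = true := by rw [Nat.blt_eq]; exact h3
    simp only [c2, lev, e, cond_true, lv_blt d2 h1, lv_blt d0 h2, beq_self_eq_true]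
  · have e : Nat.blt (py L0 L1 L2 j) 3 = false := by
      rw [Bool.eq_false_iff]
      intro hc
      rw [Nat.blt_eq] at hc
      omega
    simp only [c2, lev, e, cond_false, lv_blt d2 h1, lv_blt d1 h2, beq_self_eq_true, Bool.or_true]
  · rw [h]
    rfl

/-- `ρ` is in exactly one of the lists -/
def Onl (L0 L1 L2 : List R) (ρ : R) : Prop :=
  (ρ ∈ L0 ∧ ρ ∉ L1 ∧ ρ ∉ L2) ∨ (ρ ∉ L0 ∧ ρ ∈ L1 ∧ ρ ∉ L2) ∨ (ρ ∉ L0 ∧ ρ ∉ L1 ∧ ρ ∈ L2)

omit [DecidableEq R] in
lemma exists_pos3 {L : List R} (l : L.length ≤ 3) {ρ : R} (h : ρ ∈ L) :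
    L[0]? = some ρ ∨ L[1]? = some ρ ∨ L[2]? = some ρ := by
  obtain ⟨i, hi⟩ := List.mem_iff_getElem?.1 h
  have hlt : i < L.length := (List.getElem?_eq_some_iff.1 hi).1
  have : i = 0 ∨ i = 1 ∨ i = 2 := by omega
  rcases this with h | h | h <;> subst h <;> simp [hi]

lemma agr_lev {L0 L1 L2 : List R} (n0 : L0.Nodup) (n1 : L1.Nodup)
    (l0 : L0.length ≤ 3) (l1 : L1.length ≤ 3) (l2 : L2.length ≤ 3) {x y : R → Bool}
    (d0 : Dec L0 x) (d1 : Dec L1 x) (d2 : Dec L2 x)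
    (e0 : Dec L0 y) (e1 : Dec L1 y) (e2 : Dec L2 y) (ho : ∀ ρ, Onl L0 L1 L2 ρ → x ρ = y ρ) :
    agr (px L0 L1 0) (px L0 L1 1) (px L0 L1 2) (py L0 L1 L2 0) (py L0 L1 L2 1) (py L0 L1 L2 2)
      (lev L0 L1 L2 x, lev L0 L1 L2 y) = true := by
  have A0 : ∀ i, a0 (px L0 L1 0) (px L0 L1 1) (px L0 L1 2) (py L0 L1 L2 0) (py L0 L1 L2 1)
      (py L0 L1 L2 2) i (lev L0 L1 L2 x, lev L0 L1 L2 y) = true := by
    intro i
    rcases h : L0[i]? with _ | ρ
    · simp only [a0, lev, lv_blt_none h, beq_self_eq_true, Bool.true_or]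
    · by_cases h1 : ρ ∈ L1
      · rcases exists_pos3 l1 h1 with h' | h' | h' <;>
        simp [a0, px_eq n0 h' h]
      · by_cases h2 : ρ ∈ L2
        · rcases exists_pos3 l2 h2 with h' | h' | h' <;>
          simp [a0, py_eq0 (L1 := L1) n0 h' h]
        · have : x ρ = y ρ := ho ρ (Or.inl ⟨List.mem_of_getElem? h, h1, h2⟩)
          simp only [a0, lev, lv_blt d0 h, lv_blt e0 h, this, beq_self_eq_true, Bool.true_or]
  have A1 : ∀ i, a1 (px L0 L1 i) (py L0 L1 L2 0) (py L0 L1 L2 1)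
      (py L0 L1 L2 2) i (lev L0 L1 L2 x, lev L0 L1 L2 y) = true := by
    intro i
    rcases h : L1[i]? with _ | ρ
    · simp only [a1, lev, lv_blt_none h, beq_self_eq_true, Bool.true_or]
    · by_cases h0 : ρ ∈ L0
      · have hlt : px L0 L1 i < 3 := by
          rcases px_cases L0 L1 l0 i with ⟨_, _, _, h3⟩ | ⟨_, h3⟩
          · exact h3
          · exact absurd h0 (h3 ρ h)
        have e : Nat.blt (px L0 L1 i) 3 = true := by rw [Nat.blt_eq]; exact hlt
        simp only [a1, e, Bool.true_or, Bool.or_true]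
      · by_cases h2 : ρ ∈ L2
        · rcases exists_pos3 l2 h2 with h' | h' | h' <;>
          simp [a1, py_eq1 n1 h' h h0]
        · have : x ρ = y ρ := ho ρ (Or.inr (Or.inl ⟨h0, List.mem_of_getElem? h, h2⟩))
          simp only [a1, lev, lv_blt d1 h, lv_blt e1 h, this, beq_self_eq_true, Bool.true_or]
  have A2 : ∀ i, a2 (py L0 L1 L2 i) i (lev L0 L1 L2 x, lev L0 L1 L2 y) = true := by
    intro i
    rcases h : L2[i]? with _ | ρ
    · simp only [a2, lev, lv_blt_none h, beq_self_eq_true, Bool.true_or]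
    · by_cases hlt : py L0 L1 L2 i < 6
      · have e : Nat.blt (py L0 L1 L2 i) 6 = true := by rw [Nat.blt_eq]; exact hlt
        simp only [a2, e, Bool.or_true]
      · have hno : ρ ∉ L0 ∧ ρ ∉ L1 := by
          rcases py_cases L0 L1 L2 l0 l1 i with ⟨_, _, _, h3⟩ | ⟨_, _, _, _, _, h3⟩ | ⟨_, h3⟩
          · omega
          · omega
          · exact h3 ρ h
        have : x ρ = y ρ := ho ρ (Or.inr (Or.inr ⟨hno.1, hno.2, List.mem_of_getElem? h⟩))
        simp only [a2, lev, lv_blt d2 h, lv_blt e2 h, this, beq_self_eq_true, Bool.true_or]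
  simp only [agr, A0, A1, A2, Bool.and_self]

omit [DecidableEq R] in
lemma lev_inj {L : List R} {x y : R → Bool} (d : Dec L x) (e : Dec L y) (h : lv L x = lv L y)
    {ρ : R} (hρ : ρ ∈ L) : x ρ = y ρ := by
  obtain ⟨i, hi⟩ := List.mem_iff_getElem?.1 hρ
  rw [← lv_blt d hi, ← lv_blt e hi, h]

theorem card_le_prs {L0 L1 L2 : List R} (n0 : L0.Nodup) (n1 : L1.Nodup)
    (l0 : L0.length ≤ 3) (l1 : L1.length ≤ 3) (l2 : L2.length ≤ 3)
    (P : Finset ((R → Bool) × (R → Bool)))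
    (hP : ∀ p ∈ P, (Dec L0 p.1 ∧ Dec L1 p.1 ∧ Dec L2 p.1) ∧ (Dec L0 p.2 ∧ Dec L1 p.2 ∧ Dec L2 p.2) ∧
      (∀ ρ, ρ ∉ L0 → ρ ∉ L1 → ρ ∉ L2 → p.1 ρ = false ∧ p.2 ρ = false) ∧
      ∀ ρ, Onl L0 L1 L2 ρ → p.1 ρ = p.2 ρ) :
    P.card ≤ (prs L0.length L1.length L2.length (px L0 L1 0) (px L0 L1 1) (px L0 L1 2)
      (py L0 L1 L2 0) (py L0 L1 L2 1) (py L0 L1 L2 2)).length := by
  classical
  refine le_trans ?_ (List.toFinset_card_le _)
  refine Finset.card_le_card_of_injOn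
    (fun p => (lev L0 L1 L2 p.1, lev L0 L1 L2 p.2)) ?_ ?_
  · intro p hp
    obtain ⟨⟨d0, d1, d2⟩, ⟨e0, e1, e2⟩, _, ho⟩ := hP p hp
    have hl : ∀ x : R → Bool, lev L0 L1 L2 x ∈ lvl L0.length L1.length L2.length := by
      intro x
      have h0 := lv_le L0 x
      have h1 := lv_le L1 x
      have h2 := lv_le L2 x
      exact List.pair_mem_product.2 ⟨List.mem_range.2 (by omega),
        List.pair_mem_product.2 ⟨List.mem_range.2 (by omega), List.mem_range.2 (by omega)⟩⟩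
    have hc : ∀ x : R → Bool, Dec L0 x → Dec L1 x → Dec L2 x →
        con (px L0 L1 0) (px L0 L1 1) (px L0 L1 2) (py L0 L1 L2 0) (py L0 L1 L2 1)
          (py L0 L1 L2 2) (lev L0 L1 L2 x) = true := by
      intro x a b c
      simp only [con, c1_px L2 l0 a b, c2_py l0 l1 a b c, Bool.and_self]
    simp only [Finset.mem_coe, List.mem_toFinset, prs]
    exact List.mem_filter.2 ⟨List.pair_mem_product.2
      ⟨List.mem_filter.2 ⟨hl _, hc _ d0 d1 d2⟩, List.mem_filter.2 ⟨hl _, hc _ e0 e1 e2⟩⟩,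
      agr_lev n0 n1 l0 l1 l2 d0 d1 d2 e0 e1 e2 ho⟩
  · intro p hp q hq h
    have hp' := hP p hp
    have hq' := hP q hq
    obtain ⟨⟨d0, d1, d2⟩, ⟨e0, e1, e2⟩, hz, _⟩ := hp'
    obtain ⟨⟨d0', d1', d2'⟩, ⟨e0', e1', e2'⟩, hz', _⟩ := hq'
    simp only [lev, Prod.mk.injEq] at h
    obtain ⟨⟨g0, g1, g2⟩, ⟨k0, k1, k2⟩⟩ := h
    have E1 : p.1 = q.1 := by
      funext ρ
      by_cases m0 : ρ ∈ L0
      · exact lev_inj d0 d0' g0 m0
      · by_cases m1 : ρ ∈ L1
        · exact lev_inj d1 d1' g1 m1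
        · by_cases m2 : ρ ∈ L2
          · exact lev_inj d2 d2' g2 m2
          · rw [(hz ρ m0 m1 m2).1, (hz' ρ m0 m1 m2).1]
    have E2 : p.2 = q.2 := by
      funext ρ
      by_cases m0 : ρ ∈ L0
      · exact lev_inj e0 e0' k0 m0
      · by_cases m1 : ρ ∈ L1
        · exact lev_inj e1 e1' k1 m1
        · by_cases m2 : ρ ∈ L2
          · exact lev_inj e2 e2' k2 m2
          · rw [(hz ρ m0 m1 m2).2, (hz' ρ m0 m1 m2).2]
    exact Prod.ext E1 E2

end Pool.Agent.SMP
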