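import Pool.Agent.SMP.EnB

set_option autoImplicit false

/-!
# Validity of the patterns and the bound for lists
-/

open Finset

namespace Pool.Agent.SMP

variable {R : Type} [DecidableEq R]

private lemma blt_t {p q : ℕ} (h : p < q) : Nat.blt p q = true := by rw [Nat.blt_eq]; exact h

private lemma ble_t {p q : ℕ} (h : p ≤ q) : Nat.ble p q = true := Nat.ble_eq_true_of_le h

private lemma beq_t {p q : ℕ} (h : p = q) : Nat.beq p q = true := by rw [Nat.beq_eq]; exact h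

private lemma beq_f {p q : ℕ} (h : p ≠ q) : Nat.beq p q = false := by
  rw [Bool.eq_false_iff]
  intro hc
  rw [Nat.beq_eq] at hc
  exact h hc

lemma px_le (L0 L1 : List R) (l0 : L0.length ≤ 3) (j : ℕ) : px L0 L1 j < 4 := by
  rcases px_cases L0 L1 l0 j with ⟨_, _, _, h⟩ | ⟨h, _⟩ <;> omega

lemma py_le (L0 L1 L2 : List R) (l0 : L0.length ≤ 3) (l1 : L1.length ≤ 3) (j : ℕ) :
    py L0 L1 L2 j < 7 := by
  rcases py_cases L0 L1 L2 l0 l1 j with ⟨_, _, _, h⟩ | ⟨_, _, _, _, _, h⟩ | ⟨h, _⟩ <;> omega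

lemma bX_px (L0 L1 : List R) (l0 : L0.length ≤ 3) (j : ℕ) :
    bX L0.length L1.length j (px L0 L1 j) = true := by
  rcases px_cases L0 L1 l0 j with ⟨ρ, h1, h2, _⟩ | ⟨h, _⟩
  · have g1 : j < L1.length := (List.getElem?_eq_some_iff.1 h1).1
    have g2 : px L0 L1 j < L0.length := (List.getElem?_eq_some_iff.1 h2).1
    simp only [bX, blt_t g1, blt_t g2, Bool.and_self, Bool.or_true]
  · rw [h]
    rfl

omit [DecidableEq R] in
lemma nodup_pos {L : List R} (n : L.Nodup) {i j : ℕ} {ρ : R} (hi : L[i]? = some ρ)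
    (hj : L[j]? = some ρ) : i = j := by
  obtain ⟨h1, h2⟩ := List.getElem?_eq_some_iff.1 hi
  obtain ⟨h3, h4⟩ := List.getElem?_eq_some_iff.1 hj
  exact (n.getElem_inj_iff (hi := h1) (hj := h3)).1 (h2.trans h4.symm)

lemma dX_px {L0 L1 : List R} (n1 : L1.Nodup) (l0 : L0.length ≤ 3) {i j : ℕ} (hij : i ≠ j) :
    dX (px L0 L1 i) (px L0 L1 j) = true := by
  by_cases e : px L0 L1 i = px L0 L1 j
  · rcases px_cases L0 L1 l0 i with ⟨ρ, h1, h2, h3⟩ | ⟨h, _⟩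
    · rcases px_cases L0 L1 l0 j with ⟨σ, k1, k2, k3⟩ | ⟨h, _⟩
      · exfalso
        rw [e, k2] at h2
        have : σ = ρ := by simpa using h2
        subst this
        exact hij (nodup_pos n1 h1 k1)
      · rw [e, h]
        rfl
    · rw [h]
      rfl
  · simp only [dX, beq_f e, Bool.not_false, Bool.or_true]

lemma bY_py (L0 L1 L2 : List R) (l0 : L0.length ≤ 3) (l1 : L1.length ≤ 3) (j : ℕ) :
    bY L0.length L1.length L2.length j (py L0 L1 L2 j) = true := by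
  rcases py_cases L0 L1 L2 l0 l1 j with ⟨ρ, h1, h2, _⟩ | ⟨ρ, h1, h2, _, h3, h4⟩ | ⟨h, _⟩
  · have g1 : j < L2.length := (List.getElem?_eq_some_iff.1 h1).1
    have g2 : py L0 L1 L2 j < L0.length := (List.getElem?_eq_some_iff.1 h2).1
    simp only [bY, blt_t g1, blt_t g2, Bool.true_or, Bool.and_self, Bool.or_true]
  · have g1 : j < L2.length := (List.getElem?_eq_some_iff.1 h1).1
    have g2 : py L0 L1 L2 j - 3 < L1.length := (List.getElem?_eq_some_iff.1 h2).1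
    have g3 : py L0 L1 L2 j < 3 + L1.length := by omega
    simp only [bY, blt_t g1, blt_t g3, ble_t h3, Bool.and_self, Bool.or_true]
  · rw [h]
    rfl

lemma dY_py {L0 L1 L2 : List R} (n2 : L2.Nodup) (l0 : L0.length ≤ 3) (l1 : L1.length ≤ 3)
    {i j : ℕ} (hij : i ≠ j) : dY (py L0 L1 L2 i) (py L0 L1 L2 j) = true := by
  by_cases e : py L0 L1 L2 i = py L0 L1 L2 j
  · rcases py_cases L0 L1 L2 l0 l1 i with ⟨ρ, h1, h2, h3⟩ | ⟨ρ, h1, h2, _, h3, h4⟩ | ⟨h, _⟩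
    · rcases py_cases L0 L1 L2 l0 l1 j with ⟨σ, k1, k2, k3⟩ | ⟨σ, k1, k2, _, k3, k4⟩ | ⟨h, _⟩
      · exfalso
        rw [e, k2] at h2
        have : σ = ρ := by simpa using h2
        subst this
        exact hij (nodup_pos n2 h1 k1)
      · omega
      · omega
    · rcases py_cases L0 L1 L2 l0 l1 j with ⟨σ, k1, k2, k3⟩ | ⟨σ, k1, k2, _, k3, k4⟩ | ⟨h, _⟩
      · omega
      · exfalso
        rw [e, k2] at h2
        have : σ = ρ := by simpa using h2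
        subst this
        exact hij (nodup_pos n2 h1 k1)
      · omega
    · rw [h]
      rfl
  · simp only [dY, beq_f e, Bool.not_false, Bool.or_true]

lemma tY_py {L0 L1 L2 : List R} (l0 : L0.length ≤ 3) (l1 : L1.length ≤ 3)
    (h3 : ∀ ρ, ¬ (ρ ∈ L0 ∧ ρ ∈ L1 ∧ ρ ∈ L2)) (j : ℕ) :
    tY (px L0 L1 0) (px L0 L1 1) (px L0 L1 2) (py L0 L1 L2 j) = true := by
  rcases py_cases L0 L1 L2 l0 l1 j with ⟨ρ, h1, h2, h4⟩ | ⟨ρ, h1, h2, h5, h6, h7⟩ | ⟨h, _⟩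
  · have key : ∀ i, px L0 L1 i ≠ py L0 L1 L2 j := by
      intro i hi
      rcases px_cases L0 L1 l0 i with ⟨σ, k1, k2, k3⟩ | ⟨h, _⟩
      · rw [hi, h2] at k2
        have : ρ = σ := by simpa using k2
        subst this
        exact h3 ρ ⟨List.mem_of_getElem? h2, List.mem_of_getElem? k1, List.mem_of_getElem? h1⟩
      · omega
    simp only [tY, blt_t h4, beq_f (key 0), beq_f (key 1), beq_f (key 2), Bool.not_false,
      Bool.and_self, Bool.true_or]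
  · have key : ∀ i, py L0 L1 L2 j = 3 + i → px L0 L1 i = 3 := by
      intro i hi
      rw [hi, Nat.add_sub_cancel_left] at h2
      rcases px_cases L0 L1 l0 i with ⟨σ, k1, k2, k3⟩ | ⟨h, _⟩
      · exfalso
        rw [h2] at k1
        have : ρ = σ := by simpa using k1
        subst this
        exact h5 (List.mem_of_getElem? k2)
      · exact h
    have : py L0 L1 L2 j = 3 + 0 ∨ py L0 L1 L2 j = 3 + 1 ∨ py L0 L1 L2 j = 3 + 2 := by omega
    rcases this with h | h | h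
    · have e := key 0 h
      simp only [tY, h, e]
      rfl
    · have e := key 1 h
      simp only [tY, h, e, Nat.reduceAdd, beq_t, Bool.and_self, Bool.or_true, Bool.true_or]
    · have e := key 2 h
      simp only [tY, h, e, Nat.reduceAdd, beq_t, Bool.and_self, Bool.or_true]
  · rw [h]
    simp [tY]

lemma nxt_of {L : List R} (n : L.Nodup) {i : ℕ} {ρ σ : R} (h : L[i]? = some ρ)
    (h' : L[i + 1]? = some σ) : Nxt L ρ σ := by
  refine ⟨List.mem_of_getElem? h, List.mem_of_getElem? h', ?_⟩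
  rw [idxOf_eq' n h, idxOf_eq' n h']

lemma nb_px {L0 L1 : List R} (n0 : L0.Nodup) (n1 : L1.Nodup) (l0 : L0.length ≤ 3)
    (hp : ∀ ρ σ, ¬ (Adj L0 ρ σ ∧ Adj L1 ρ σ)) (j : ℕ) :
    nb (px L0 L1 j) (px L0 L1 (j + 1)) = true := by
  rcases px_cases L0 L1 l0 j with ⟨ρ, h1, h2, h3⟩ | ⟨h, _⟩
  · rcases px_cases L0 L1 l0 (j + 1) with ⟨σ, k1, k2, k3⟩ | ⟨h, _⟩
    · have e1 : px L0 L1 j + 1 ≠ px L0 L1 (j + 1) := by
        intro he
        rw [← he] at k2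
        exact hp ρ σ ⟨Or.inl (nxt_of n0 h2 k2), Or.inl (nxt_of n1 h1 k1)⟩
      have e2 : px L0 L1 (j + 1) + 1 ≠ px L0 L1 j := by
        intro he
        rw [← he] at h2
        exact hp ρ σ ⟨Or.inr (nxt_of n0 k2 h2), Or.inl (nxt_of n1 h1 k1)⟩
      simp only [nb, beq_f e1, beq_f e2, Bool.or_self, Bool.not_false, Bool.or_true]
    · simp only [nb, h, ble_t (le_refl 3), Bool.or_true, Bool.true_or]
  · simp only [nb, h, ble_t (le_refl 3), Bool.true_or]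

lemma nb_py {L0 L1 L2 : List R} (n0 : L0.Nodup) (n2 : L2.Nodup) (l0 : L0.length ≤ 3)
    (l1 : L1.length ≤ 3) (hp : ∀ ρ σ, ¬ (Adj L0 ρ σ ∧ Adj L2 ρ σ)) (j : ℕ) :
    nb (py L0 L1 L2 j) (py L0 L1 L2 (j + 1)) = true := by
  rcases py_cases L0 L1 L2 l0 l1 j with ⟨ρ, h1, h2, h3⟩ | ⟨ρ, h1, h2, _, h3, h4⟩ | ⟨h, _⟩
  · rcases py_cases L0 L1 L2 l0 l1 (j + 1) with ⟨σ, k1, k2, k3⟩ | ⟨σ, k1, k2, _, k3, k4⟩ | ⟨h, _⟩
    · have e1 : py L0 L1 L2 j + 1 ≠ py L0 L1 L2 (j + 1) := by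
        intro he
        rw [← he] at k2
        exact hp ρ σ ⟨Or.inl (nxt_of n0 h2 k2), Or.inl (nxt_of n2 h1 k1)⟩
      have e2 : py L0 L1 L2 (j + 1) + 1 ≠ py L0 L1 L2 j := by
        intro he
        rw [← he] at h2
        exact hp ρ σ ⟨Or.inr (nxt_of n0 k2 h2), Or.inl (nxt_of n2 h1 k1)⟩
      simp only [nb, beq_f e1, beq_f e2, Bool.or_self, Bool.not_false, Bool.or_true]
    · simp only [nb, ble_t k3, Bool.or_true, Bool.true_or]
    · have : 3 ≤ py L0 L1 L2 (j + 1) := by omega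
      simp only [nb, ble_t this, Bool.or_true, Bool.true_or]
  · simp only [nb, ble_t h3, Bool.true_or]
  · have : 3 ≤ py L0 L1 L2 j := by omega
    simp only [nb, ble_t this, Bool.true_or]

lemma nc_py {L0 L1 L2 : List R} (n1 : L1.Nodup) (n2 : L2.Nodup) (l0 : L0.length ≤ 3)
    (l1 : L1.length ≤ 3) (hp : ∀ ρ σ, ¬ (Adj L1 ρ σ ∧ Adj L2 ρ σ)) (j : ℕ) :
    nc (py L0 L1 L2 j) (py L0 L1 L2 (j + 1)) = true := by
  rcases py_cases L0 L1 L2 l0 l1 j with ⟨ρ, h1, h2, h3⟩ | ⟨ρ, h1, h2, _, h3, h4⟩ | ⟨h, _⟩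
  · simp only [nc, blt_t h3, Bool.true_or]
  · rcases py_cases L0 L1 L2 l0 l1 (j + 1) with ⟨σ, k1, k2, k3⟩ | ⟨σ, k1, k2, _, k3, k4⟩ | ⟨h, _⟩
    · simp only [nc, blt_t k3, Bool.or_true, Bool.true_or]
    · have e1 : py L0 L1 L2 j + 1 ≠ py L0 L1 L2 (j + 1) := by
        intro he
        have he' : py L0 L1 L2 (j + 1) - 3 = py L0 L1 L2 j - 3 + 1 := by omega
        rw [he'] at k2
        exact hp ρ σ ⟨Or.inl (nxt_of n1 h2 k2), Or.inl (nxt_of n2 h1 k1)⟩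
      have e2 : py L0 L1 L2 (j + 1) + 1 ≠ py L0 L1 L2 j := by
        intro he
        have he' : py L0 L1 L2 j - 3 = py L0 L1 L2 (j + 1) - 3 + 1 := by omega
        rw [he'] at h2
        exact hp ρ σ ⟨Or.inr (nxt_of n1 k2 h2), Or.inl (nxt_of n2 h1 k1)⟩
      simp only [nc, beq_f e1, beq_f e2, Bool.or_self, Bool.not_false, Bool.or_true]
    · simp only [nc, h, ble_t (le_refl 6), Bool.or_true, Bool.true_or]
  · simp only [nc, h, ble_t (le_refl 6), Bool.or_true, Bool.true_or]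

lemma chk_use {a b c bd : ℕ} {f : Bool} {jx jy : ℕ → ℕ → ℕ → Bool}
    (h : chk a b c bd f jx jy = true) {X0 X1 X2 Y0 Y1 Y2 : ℕ} (hX0 : X0 < 4) (hX1 : X1 < 4)
    (hX2 : X2 < 4) (hY0 : Y0 < 7) (hY1 : Y1 < 7) (hY2 : Y2 < 7) (hX : cX a b f jx X0 X1 X2 = true)
    (hd : dY Y0 Y1 = true) (hY : cY a b c f jy X0 X1 X2 Y0 Y1 Y2 = true) :
    (prs a b c X0 X1 X2 Y0 Y1 Y2).length ≤ bd := by
  rw [chk, List.all_eq_true] at h
  have h := h X0 (List.mem_range.2 hX0)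
  rw [List.all_eq_true] at h
  have h := h X1 (List.mem_range.2 hX1)
  rw [List.all_eq_true] at h
  have h := h X2 (List.mem_range.2 hX2)
  rw [hX, Bool.not_true, Bool.false_or, List.all_eq_true] at h
  have h := h Y0 (List.mem_range.2 hY0)
  rw [List.all_eq_true] at h
  have h := h Y1 (List.mem_range.2 hY1)
  rw [hd, Bool.not_true, Bool.false_or, List.all_eq_true] at h
  have h := h Y2 (List.mem_range.2 hY2)
  rw [hY, Bool.not_true, Bool.false_or] at h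
  exact Nat.le_of_ble_eq_true h

theorem list_bound {L0 L1 L2 : List R} (n0 : L0.Nodup) (n1 : L1.Nodup) (n2 : L2.Nodup)
    (l0 : L0.length ≤ 3) (l1 : L1.length ≤ 3) (l2 : L2.length ≤ 3)
    (h3 : ∀ ρ, ¬ (ρ ∈ L0 ∧ ρ ∈ L1 ∧ ρ ∈ L2)) (f : Bool)
    (p01 : f = true → ∀ ρ σ, ¬ (Adj L0 ρ σ ∧ Adj L1 ρ σ))
    (p02 : f = true → ∀ ρ σ, ¬ (Adj L0 ρ σ ∧ Adj L2 ρ σ))
    (p12 : ∀ ρ σ, ¬ (Adj L1 ρ σ ∧ Adj L2 ρ σ)) {jx jy : ℕ → ℕ → ℕ → Bool}
    (hjx : jx (px L0 L1 0) (px L0 L1 1) (px L0 L1 2) = true)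
    (hjy : jy (py L0 L1 L2 0) (py L0 L1 L2 1) (py L0 L1 L2 2) = true) {bd : ℕ}
    (hc : chk L0.length L1.length L2.length bd f jx jy = true)
    (P : Finset ((R → Bool) × (R → Bool)))
    (hP : ∀ p ∈ P, (Dec L0 p.1 ∧ Dec L1 p.1 ∧ Dec L2 p.1) ∧ (Dec L0 p.2 ∧ Dec L1 p.2 ∧ Dec L2 p.2) ∧
      (∀ ρ, ρ ∉ L0 → ρ ∉ L1 → ρ ∉ L2 → p.1 ρ = false ∧ p.2 ρ = false) ∧
      ∀ ρ, Onl L0 L1 L2 ρ → p.1 ρ = p.2 ρ) : P.card ≤ bd := by
  refine (card_le_prs n0 n1 l0 l1 l2 P hP).trans ?_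
  have hd : ∀ i j, i ≠ j → dY (py L0 L1 L2 i) (py L0 L1 L2 j) = true :=
    fun i j hij => dY_py n2 l0 l1 hij
  have hdx : ∀ i j, i ≠ j → dX (px L0 L1 i) (px L0 L1 j) = true :=
    fun i j hij => dX_px n1 l0 hij
  refine chk_use hc (px_le _ _ l0 _) (px_le _ _ l0 _) (px_le _ _ l0 _) (py_le _ _ _ l0 l1 _)
    (py_le _ _ _ l0 l1 _) (py_le _ _ _ l0 l1 _) ?_ (hd 0 1 (by decide)) ?_
  · have hnb : (!f || (nb (px L0 L1 0) (px L0 L1 1) && nb (px L0 L1 1) (px L0 L1 2))) = true := by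
      cases f
      · rfl
      · rw [nb_px n0 n1 l0 (p01 rfl) 0, nb_px n0 n1 l0 (p01 rfl) 1]
        rfl
    simp only [cX, vX, bX_px _ _ l0, hdx 0 1 (by decide), hdx 0 2 (by decide),
      hdx 1 2 (by decide), hnb, hjx, Bool.and_self]
  · have hnb : (!f || (nb (py L0 L1 L2 0) (py L0 L1 L2 1) &&
        nb (py L0 L1 L2 1) (py L0 L1 L2 2))) = true := by
      cases f
      · rfl
      · rw [nb_py n0 n2 l0 l1 (p02 rfl) 0, nb_py n0 n2 l0 l1 (p02 rfl) 1]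
        rfl
    simp only [cY, vY, bY_py _ _ _ l0 l1, hd 0 1 (by decide), hd 0 2 (by decide),
      hd 1 2 (by decide), tY_py l0 l1 h3, hnb, nc_py n1 n2 l0 l1 p12 0,
      nc_py n1 n2 l0 l1 p12 1, hjy, Bool.and_self]

end Pool.Agent.SMP
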