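import Pool.Agent.SMP.Bas

set_option autoImplicit false

/-!
# The costs of the empty group and of a single man

`cost_empty`: `St ch ∅` contains only the zero assignment.
`cost_single`: every rotation of `m` belongs to a second man, so `ext ch {m} = lab ch {m}` and the
pairs counted by `cost ch {m}` are the pairs `(x, x)`; so the cost is `(St ch {m}).card`, and the
decreasing assignments of a list of length `l` (zero off the list) are at most `l + 1`: `x` is
determined by the number of entries of the list (position counted by `List.countP` or by the first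
position with value `false`) with value `true`.
-/

open Finset

namespace Pool.Agent.SMP

private lemma sing_map {R : Type} (l : List R) (x : R → Bool) (h : Dec l x) :
    l.map x = List.replicate (l.countP x) true ++
      List.replicate (l.length - l.countP x) false := by
  induction l with
  | nil => simp
  | cons a l ih =>
    rw [Dec, List.pairwise_cons] at h
    have ih' := ih h.2
    rcases hx : x a with _ | _
    · have h0 : ∀ b ∈ l, x b = false := by
        intro b hb
        by_contra hne
        have h1 := h.1 b hb (by simpa using hne)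
        rw [hx] at h1
        exact Bool.false_ne_true h1
      have h1 : l.countP x = 0 := by
        rw [List.countP_eq_zero]
        intro b hb
        rw [h0 b hb]
        exact Bool.false_ne_true
      rw [h1] at ih'
      rw [List.map_cons, ih', List.countP_cons, h1, hx]
      simp [List.replicate_succ]
    · rw [List.map_cons, ih', List.countP_cons, hx]
      simp [List.replicate_succ]

private lemma sing_inj {R : Type} {l : List R} {x y : R → Bool} (hx : Dec l x) (hy : Dec l y)
    (h : l.countP x = l.countP y) : ∀ ρ ∈ l, x ρ = y ρ := by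
  have h1 : l.map x = l.map y := by rw [sing_map l x hx, sing_map l y hy, h]
  exact List.map_inj_left.1 h1

theorem cost_empty {n : ℕ} {R : Type} [Fintype R] [DecidableEq R] (ch : Fin n → List R) :
    cost ch ∅ = 1 := by
  classical
  rw [cost, Finset.card_eq_one]
  refine ⟨(fun _ => false, fun _ => false), ?_⟩
  ext ⟨x, y⟩
  rw [Finset.mem_filter, Finset.mem_product, Finset.mem_singleton, mem_St, mem_St]
  constructor
  · rintro ⟨⟨h1, h2⟩, _⟩
    have hx : x = fun _ => false := funext fun ρ => h1.1 ρ (by rw [mem_lab]; simp)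
    have hy : y = fun _ => false := funext fun ρ => h2.1 ρ (by rw [mem_lab]; simp)
    rw [hx, hy]
  · intro h
    rw [Prod.mk.injEq] at h
    obtain ⟨rfl, rfl⟩ := h
    exact ⟨⟨⟨fun _ _ => rfl, fun m hm => absurd hm (Finset.notMem_empty m)⟩,
      fun _ _ => rfl, fun m hm => absurd hm (Finset.notMem_empty m)⟩, fun _ _ => rfl⟩

theorem cost_single {n : ℕ} {R : Type} [Fintype R] [DecidableEq R] (ch : Fin n → List R)
    (two : ∀ ρ, (men ch ρ).card = 2) (m : Fin n) : cost ch {m} ≤ (ch m).length + 1 := by
  classical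
  have hext : ∀ ρ ∈ ch m, ρ ∈ ext ch {m} := by
    intro ρ hρ
    rw [mem_ext]
    refine ⟨⟨m, Finset.mem_singleton_self m, hρ⟩, ?_⟩
    have h1 : 1 < (men ch ρ).card := by rw [two ρ]; norm_num
    obtain ⟨a, ha, hne⟩ := Finset.exists_mem_ne h1 m
    exact ⟨a, by rwa [Finset.mem_singleton], mem_men.1 ha⟩
  rw [cost, ← Finset.card_range ((ch m).length + 1)]
  refine Finset.card_le_card_of_injOn (fun p => (ch m).countP p.1) ?_ ?_
  · intro p _
    rw [Finset.mem_coe, Finset.mem_range]
    exact Nat.lt_succ_of_le List.countP_le_length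
  · rintro ⟨x, y⟩ hp ⟨x', y'⟩ hq hc
    rw [Finset.mem_coe, Finset.mem_filter, Finset.mem_product, mem_St, mem_St] at hp hq
    obtain ⟨⟨⟨h1, h2⟩, h3, h4⟩, h5⟩ := hp
    obtain ⟨⟨⟨k1, k2⟩, k3, k4⟩, k5⟩ := hq
    simp only at h1 h2 h3 h4 h5 k1 k2 k3 k4 k5 hc
    have hnl : ∀ ρ, ρ ∉ ch m → ρ ∉ lab ch {m} := by
      intro ρ hρ h
      rw [mem_lab] at h
      obtain ⟨a, ha, hb⟩ := h
      rw [Finset.mem_singleton] at ha
      exact hρ (ha ▸ hb)
    have e1 : ∀ ρ, x ρ = x' ρ := by
      intro ρ
      by_cases hρ : ρ ∈ ch m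
      · exact sing_inj (h2 m (Finset.mem_singleton_self m)) (k2 m (Finset.mem_singleton_self m))
          hc ρ hρ
      · rw [h1 ρ (hnl ρ hρ), k1 ρ (hnl ρ hρ)]
    have e2 : ∀ ρ, x ρ = y ρ := by
      intro ρ
      by_cases hρ : ρ ∈ ch m
      · exact h5 ρ (hext ρ hρ)
      · rw [h1 ρ (hnl ρ hρ), h3 ρ (hnl ρ hρ)]
    have e3 : ∀ ρ, x' ρ = y' ρ := by
      intro ρ
      by_cases hρ : ρ ∈ ch m
      · exact k5 ρ (hext ρ hρ)
      · rw [k1 ρ (hnl ρ hρ), k3 ρ (hnl ρ hρ)]
    have f1 : x = x' := funext e1
    have f2 : y = y' := funext fun ρ => by rw [← e2 ρ, ← e3 ρ, e1 ρ]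
    rw [f1, f2]

end Pool.Agent.SMP
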