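import Mathlib

set_option autoImplicit false

/-!
# Star partition

PAPER PROOF. Call `g : Fin n → Fin n` admissible if `g (g m) = g m` for all `m` and `g m ≠ m`
implies `m ∈ F` and `D m (g m)` (the identity is admissible). `m ∈ F` is covered by `g` if
`g m ≠ m` or some `m' ≠ m` has `g m' = m`. Take an admissible `g` with the maximal number of
covered elements of `F` (`Finset.exists_max_image` over all functions). Suppose `m ∈ F` is not
covered: `g m = m` and no `m' ≠ m` has `g m' = m`. Let `D m x` (so `x ≠ m`).
* `g x = x`: change `g m` to `x`: admissible (nobody is mapped to `m`), covers `m` and all that was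
  covered before. Contradiction.
* `g x = c ≠ x` (then `g c = c`, `x ∈ F`, `D x c`, `c ≠ m`). If `c ∉ F` or another `x' ≠ x`,
  `x' ≠ c`, has `g x' = c`: change `g x` to `m` (nobody is mapped to `x`, since otherwise
  `g (g y) ≠ g y`): `x`, `m` are covered, `c` needs no cover or is covered by `x'`.
  Otherwise `c ∈ F` and `x` is the only one mapped to `c` besides `c`: change `g c` and `g m` to `x`
  and `g x` to `x` (`D c x` by symmetry): covers `x`, `c`, `m`. Contradiction.
-/

open Finset

namespace Pool.Agent.SMP

private def Adm {n : ℕ} (F : Finset (Fin n)) (D : Fin n → Fin n → Prop) (g : Fin n → Fin n) :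
    Prop :=
  (∀ m, g (g m) = g m) ∧ ∀ m, g m ≠ m → m ∈ F ∧ D m (g m)

private def Cov {n : ℕ} (g : Fin n → Fin n) (m : Fin n) : Prop :=
  g m ≠ m ∨ ∃ m', m' ≠ m ∧ g m' = m

theorem star {n : ℕ} (F : Finset (Fin n)) (D : Fin n → Fin n → Prop)
    (hs : ∀ a b, D a b → D b a) (hi : ∀ a, ¬ D a a) (hF : ∀ m ∈ F, ∃ x, D m x) :
    ∃ g : Fin n → Fin n, (∀ m, g (g m) = g m) ∧ (∀ m, g m ≠ m → m ∈ F ∧ D m (g m)) ∧
      ∀ m ∈ F, g m = m → ∃ m', m' ≠ m ∧ g m' = m := by
  classical
  obtain ⟨g, hg, hmax⟩ := Finset.exists_max_image (univ.filter fun g => Adm F D g)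
    (fun g => (F.filter fun m => Cov g m).card) ⟨id, by
      rw [Finset.mem_filter]
      exact ⟨Finset.mem_univ _, fun _ => rfl, fun _ h => absurd rfl h⟩⟩
  rw [Finset.mem_filter] at hg
  obtain ⟨-, h1, h2⟩ := hg
  refine ⟨g, h1, h2, fun m hm hgm => ?_⟩
  by_contra hcon
  push Not at hcon
  -- nobody else is mapped to m
  have hnm : ∀ y, g y = m → y = m := fun y hy => by
    by_contra h
    exact hcon y h hy
  have hncov : ¬ Cov g m := by
    rintro (h | ⟨m', h, h'⟩)
    · exact h hgm
    · exact hcon m' h h'
  have key : ∀ g' : Fin n → Fin n, Adm F D g' → (∀ y ∈ F, Cov g y → Cov g' y) → ¬ Cov g' m := by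
    intro g' hg' hc hm'
    have h3 := hmax g' (by rw [Finset.mem_filter]; exact ⟨Finset.mem_univ _, hg'⟩)
    have h4 : (F.filter fun m => Cov g m) ⊂ (F.filter fun m => Cov g' m) := by
      rw [Finset.ssubset_iff_of_subset]
      · exact ⟨m, by rw [Finset.mem_filter]; exact ⟨hm, hm'⟩, by
          rw [Finset.mem_filter]; exact fun h => hncov h.2⟩
      · intro y hy
        rw [Finset.mem_filter] at hy ⊢
        exact ⟨hy.1, hc y hy.1 hy.2⟩
    exact absurd h3 (not_le.2 (Finset.card_lt_card h4))
  obtain ⟨x, hx⟩ := hF m hm
  have hxm : x ≠ m := fun h => hi m (by rw [h] at hx; exact hx)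
  by_cases hgx : g x = x
  · -- change g m to x
    refine key (Function.update g m x) ⟨fun y => ?_, fun y hy => ?_⟩ (fun y hy hc => ?_) ?_
    · by_cases hym : y = m
      · subst hym
        rw [Function.update_self, Function.update_of_ne hxm, hgx]
      · rw [Function.update_of_ne hym]
        have h3 : g y ≠ m := fun h => hym (hnm y h)
        rw [Function.update_of_ne h3, h1]
    · by_cases hym : y = m
      · subst hym
        rw [Function.update_self]
        exact ⟨hm, hx⟩
      · rw [Function.update_of_ne hym] at hy ⊢
        exact h2 y hy
    · by_cases hym : y = m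
      · subst hym
        exact absurd hc hncov
      · rcases hc with h | ⟨y', h, h'⟩
        · left
          rw [Function.update_of_ne hym]
          exact h
        · right
          refine ⟨y', h, ?_⟩
          have h3 : y' ≠ m := by
            rintro rfl
            exact hym (h'.symm.trans hgm)
          rw [Function.update_of_ne h3]
          exact h'
    · left
      rw [Function.update_self]
      exact hxm
  · set c := g x with hc
    obtain ⟨hxF, hDc⟩ := h2 x hgx
    have hgc : g c = c := h1 x
    have hcm : c ≠ m := fun h => hxm (hnm x h)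
    have hnx : ∀ y, g y ≠ x := by
      intro y hy
      have := h1 y
      rw [hy] at this
      exact hgx this
    by_cases hA : c ∉ F ∨ ∃ x', x' ≠ x ∧ x' ≠ c ∧ g x' = c
    · -- change g x to m
      refine key (Function.update g x m) ⟨fun y => ?_, fun y hy => ?_⟩ (fun y hy hcv => ?_) ?_
      · by_cases hyx : y = x
        · subst hyx
          rw [Function.update_self, Function.update_of_ne hxm.symm, hgm]
        · rw [Function.update_of_ne hyx, Function.update_of_ne (hnx y), h1]
      · by_cases hyx : y = x
        · subst hyx
          rw [Function.update_self]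
          exact ⟨hxF, hs _ _ hx⟩
        · rw [Function.update_of_ne hyx] at hy ⊢
          exact h2 y hy
      · rcases hcv with h | ⟨y', h, h'⟩
        · left
          by_cases hyx : y = x
          · subst hyx
            rw [Function.update_self]
            exact hxm.symm
          · rw [Function.update_of_ne hyx]
            exact h
        · right
          by_cases hyx : y' = x
          · subst hyx
            have hyc : y = c := h'.symm.trans hc.symm
            rcases hA with hA | ⟨x', e1, e2, e3⟩
            · exact absurd (hyc ▸ hy) hA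
            · refine ⟨x', by rw [hyc]; exact e2, ?_⟩
              rw [Function.update_of_ne e1, e3, hyc]
          · refine ⟨y', h, ?_⟩
            rw [Function.update_of_ne hyx]
            exact h'
      · right
        exact ⟨x, hxm, by rw [Function.update_self]⟩
    · push Not at hA
      obtain ⟨hcF, hA⟩ := hA
      have hxc : x ≠ c := fun h => hgx h.symm
      -- change g c, g m, g x to x
      set g' : Fin n → Fin n := fun y => if y = c ∨ y = m ∨ y = x then x else g y with hg'
      have e1 : ∀ y, (y = c ∨ y = m ∨ y = x) → g' y = x := fun y hy => if_pos hy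
      have e2 : ∀ y, ¬ (y = c ∨ y = m ∨ y = x) → g' y = g y := fun y hy => if_neg hy
      refine key g' ⟨fun y => ?_, fun y hy => ?_⟩ (fun y hy hcv => ?_) ?_
      · by_cases h : y = c ∨ y = m ∨ y = x
        · rw [e1 y h, e1 x (Or.inr (Or.inr rfl))]
        · rw [e2 y h]
          push Not at h
          rw [e2 (g y) ?_, h1]
          rintro (h3 | h3 | h3)
          · exact hA y h.2.2 h.1 h3
          · exact h.2.1 (hnm y h3)
          · exact hnx y h3
      · by_cases h : y = c ∨ y = m ∨ y = x
        · rw [e1 y h] at hy ⊢
          rcases h with rfl | rfl | rfl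
          · exact ⟨hcF, hs _ _ hDc⟩
          · exact ⟨hm, hx⟩
          · exact absurd rfl hy
        · rw [e2 y h] at hy ⊢
          exact h2 y hy
      · by_cases h : y = c ∨ y = m ∨ y = x
        · by_cases hyx : y = x
          · right
            refine ⟨c, ?_, ?_⟩
            · rw [hyx]; exact hxc.symm
            · rw [e1 c (Or.inl rfl), hyx]
          · left
            rw [e1 y h]
            exact fun h => hyx h.symm
        · rcases hcv with h3 | ⟨y', h3, h4⟩
          · left
            rw [e2 y h]
            exact h3
          · right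
            refine ⟨y', h3, ?_⟩
            rw [e2 y' ?_]
            · exact h4
            · rintro (h5 | h5 | h5)
              · subst h5
                exact h (Or.inl (h4.symm.trans hgc))
              · subst h5
                exact h (Or.inr (Or.inl (h4.symm.trans hgm)))
              · subst h5
                exact h (Or.inl (h4.symm.trans hc.symm))
      · left
        rw [e1 m (Or.inr (Or.inl rfl))]
        exact hxm

end Pool.Agent.SMP
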