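import Pool.Agent.SMP.Cnt
import Pool.Agent.SMP.Sing
import Pool.Agent.SMP.Star
import Pool.Agent.SMP.En

set_option autoImplicit false

/-!
# The bound for at most two rotations per man (`7 ^ n`)

PAPER PROOF. `F` = the men with two rotations, `D a b` := `a ≠ b ∧ Share ch a b`. A man of `F` has a
rotation, which has a second man (`two`), so `star` gives `g`. Let `A c = {m : g m = c}`.
`count_sq_le` gives `count ^ 2 ≤ ∏ c, cost (A c)`; so it is enough that
`cost (A c) ^ 2 ≤ 7 ^ (A c).card` for all `c`, since the cardinalities of the `A c` add up to `n`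
(`Finset.card_eq_sum_card_fiberwise`).
* `A c = ∅` (if `g c ≠ c`; then nobody is mapped to `c` because `g (g m) = g m`): `cost_empty`.
* otherwise `g c = c ∈ A c`; the others `l ∈ A c`, `l ≠ c`, are in `F` and share a rotation with
  `c`; the shared rotations of different `l` are different (each rotation has exactly two men: `c`
  and `l`), and `c` has at most two rotations: at most two such `l`.
  - none: then `c ∉ F` (third property of `star`), `cost {c} ≤ length + 1 ≤ 2`, and `4 ≤ 7`;
  - one: `cost_pair2`, `7 ^ 2 ≤ 7 ^ 2`;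
  - two: `cost_triple2`, `18 ^ 2 = 324 ≤ 343 = 7 ^ 3`.
-/

open Finset

namespace Pool.Agent.SMP

private theorem leaf_card {n : ℕ} {R : Type} [Fintype R] [DecidableEq R] {ch : Fin n → List R}
    (h : Net 2 ch) (c : Fin n) (L : Finset (Fin n)) (hc : c ∉ L) (hL : ∀ l ∈ L, Share ch l c) :
    L.card ≤ 2 := by
  classical
  rcases L.eq_empty_or_nonempty with hL0 | ⟨l₀, hl₀⟩
  · rw [hL0, Finset.card_empty]
    norm_num
  have hR : Nonempty R := ⟨(hL l₀ hl₀).choose⟩
  choose! f hf1 hf2 using hL
  have h1 : L.card ≤ (ch c).toFinset.card := by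
    refine Finset.card_le_card_of_injOn f (fun l hl => List.mem_toFinset.2 (hf2 l hl)) ?_
    intro l hl l' hl' e
    by_contra hne
    have hl1 : l ∈ L := hl
    have hl2 : l' ∈ L := hl'
    have h2 := h.two (f l)
    have h3 : ({c, l, l'} : Finset (Fin n)) ⊆ men ch (f l) := by
      intro x hx
      simp only [Finset.mem_insert, Finset.mem_singleton] at hx
      rw [mem_men]
      rcases hx with rfl | rfl | rfl
      · exact hf2 l hl1
      · exact hf1 _ hl1
      · exact (show f l = f x from e) ▸ hf1 _ hl2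
    have h4 : ({c, l, l'} : Finset (Fin n)).card = 3 :=
      Finset.card_eq_three.2 ⟨c, l, l', fun e1 => hc (e1 ▸ hl1), fun e1 => hc (e1 ▸ hl2), hne, rfl⟩
    have h5 := Finset.card_le_card h3
    omega
  exact h1.trans ((List.toFinset_card_le _).trans (h.len c))

theorem net_bound2 {n : ℕ} {R : Type} [Fintype R] [DecidableEq R] {ch : Fin n → List R}
    (h : Net 2 ch) : count ch ^ 4 ≤ 7 ^ n := by
  classical
  obtain ⟨g, h1, h2, h3⟩ := star (univ.filter fun m => (ch m).length = 2)
    (fun a b => a ≠ b ∧ Share ch a b)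
    (fun a b hab => ⟨hab.1.symm, by obtain ⟨ρ, h4, h5⟩ := hab.2; exact ⟨ρ, h5, h4⟩⟩)
    (fun a ha => ha.1 rfl) (by
      intro m hm
      rw [Finset.mem_filter] at hm
      obtain ⟨ρ, hρ⟩ : ∃ ρ, ρ ∈ ch m := List.exists_mem_of_length_pos (by omega)
      obtain ⟨x, hx, hxm⟩ := Finset.exists_mem_ne (by rw [h.two ρ]; norm_num : 1 < (men ch ρ).card) m
      exact ⟨x, hxm.symm, ρ, hρ, mem_men.1 hx⟩)
  have hc : ∀ c, cost ch (univ.filter (fun m => g m = c)) ^ 2 ≤
      7 ^ (univ.filter (fun m => g m = c)).card := by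
    intro c
    by_cases hgc : g c = c
    · have hcA : c ∈ univ.filter (fun m => g m = c) := by
        rw [Finset.mem_filter]
        exact ⟨Finset.mem_univ _, hgc⟩
      obtain ⟨L, hL⟩ : ∃ L, L = (univ.filter (fun m => g m = c)).erase c := ⟨_, rfl⟩
      have hcL : c ∉ L := by
        rw [hL]
        exact Finset.notMem_erase c _
      have hA : univ.filter (fun m => g m = c) = insert c L := by
        rw [hL, Finset.insert_erase hcA]
      have hLm : ∀ l ∈ L, (ch l).length = 2 ∧ Share ch l c := by
        intro l hl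
        rw [hL, Finset.mem_erase, Finset.mem_filter] at hl
        obtain ⟨hlc, _, hgl⟩ := hl
        have h4 := h2 l (by rw [hgl]; exact fun e => hlc e.symm)
        rw [hgl] at h4
        exact ⟨(Finset.mem_filter.1 h4.1).2, h4.2.2⟩
      have hcard := leaf_card h c L hcL fun l hl => (hLm l hl).2
      have hsym : ∀ l, Share ch l c → Share ch c l := fun l hl => by
        obtain ⟨ρ, h4, h5⟩ := hl
        exact ⟨ρ, h5, h4⟩
      rw [hA, Finset.card_insert_of_notMem hcL]
      rcases (by omega : L.card = 0 ∨ L.card = 1 ∨ L.card = 2) with h4 | h4 | h4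
      · have hL0 : L = ∅ := Finset.card_eq_zero.1 h4
        have hcF : (ch c).length ≠ 2 := by
          intro h5
          obtain ⟨m', hm1, hm2⟩ := h3 c (by rw [Finset.mem_filter]; exact ⟨Finset.mem_univ _, h5⟩) hgc
          have h6 : m' ∈ L := by
            rw [hL, Finset.mem_erase, Finset.mem_filter]
            exact ⟨hm1, Finset.mem_univ _, hm2⟩
          rw [hL0] at h6
          exact absurd h6 (Finset.notMem_empty _)
        have h5 := h.len c
        have h6 : cost ch {c} ≤ 2 := (cost_single ch h.two c).trans (by omega)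
        rw [hL0, insert_empty_eq, Finset.card_empty]
        calc cost ch {c} ^ 2 ≤ 2 ^ 2 := Nat.pow_le_pow_left h6 2
          _ ≤ 7 ^ (0 + 1) := by norm_num
      · obtain ⟨l, hl⟩ := Finset.card_eq_one.1 h4
        have hlL : l ∈ L := by rw [hl]; exact Finset.mem_singleton_self l
        have h5 : cost ch {c, l} ≤ 7 := cost_pair2 h (fun e => hcL (e ▸ hlL)) (hLm l hlL).1
          (hsym l (hLm l hlL).2)
        rw [h4, hl]
        calc cost ch {c, l} ^ 2 ≤ 7 ^ 2 := Nat.pow_le_pow_left h5 2
          _ ≤ 7 ^ (1 + 1) := by norm_num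
      · obtain ⟨u, w, huw, hl⟩ := Finset.card_eq_two.1 h4
        have huL : u ∈ L := by rw [hl]; simp
        have hwL : w ∈ L := by rw [hl]; simp
        have h5 : cost ch {c, u, w} ≤ 18 := cost_triple2 h (fun e => hcL (e ▸ huL))
          (fun e => hcL (e ▸ hwL)) huw (hLm u huL).1 (hLm w hwL).1 (hsym u (hLm u huL).2)
          (hsym w (hLm w hwL).2)
        rw [h4, hl]
        calc cost ch {c, u, w} ^ 2 ≤ 18 ^ 2 := Nat.pow_le_pow_left h5 2
          _ ≤ 7 ^ (2 + 1) := by norm_num
    · have hA : univ.filter (fun m => g m = c) = ∅ := by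
        rw [Finset.filter_eq_empty_iff]
        intro m _ hm
        exact hgc (by rw [← hm, h1])
      rw [hA, cost_empty, Finset.card_empty]
      norm_num
  have hsum : ∑ c, (univ.filter (fun m => g m = c)).card = n := by
    have h4 := Finset.card_eq_sum_card_fiberwise (f := g) (s := (univ : Finset (Fin n)))
      (t := univ) (fun m _ => Finset.mem_coe.2 (Finset.mem_univ _))
    rw [Finset.card_univ, Fintype.card_fin] at h4
    exact h4.symm
  calc count ch ^ 4 = (count ch ^ 2) ^ 2 := by ring
    _ ≤ (∏ c, cost ch (univ.filter (fun m => g m = c))) ^ 2 :=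
      Nat.pow_le_pow_left (count_sq_le ch h.two g) 2
    _ = ∏ c, cost ch (univ.filter (fun m => g m = c)) ^ 2 := (Finset.prod_pow _ _ _).symm
    _ ≤ ∏ c, 7 ^ (univ.filter (fun m => g m = c)).card :=
      Finset.prod_le_prod' fun c _ => hc c
    _ = 7 ^ n := by rw [Finset.prod_pow_eq_pow_sum, hsum]

end Pool.Agent.SMP
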