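import Pool.Agent.SMP.Cnt
import Pool.Agent.SMP.Sing
import Pool.Agent.SMP.Star
import Pool.Agent.SMP.En

set_option autoImplicit false

/-!
# The bound for at most three rotations per man (`10 ^ n`)

PAPER PROOF. `F` = the men with three rotations, `D a b` := `a ≠ b ∧ Joined ch a b`. A man `m` of `F`
has a middle rotation `(ch m)[1]`, which has a second man (`two`), so `star` gives `g`.
For a centre `c` (`g c = c`) let `L c = {l ≠ c : g l = c}` be its leaves: they are in `F` and joined
to `c` by a rotation; the rotations of different leaves are different (each rotation has exactly two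
men: `c` and the leaf), so `(L c).card ≤ (ch c).length ≤ 3`.
If `(L c).card = 3` then `(ch c).length = 3` and the three rotations of `c` are those which join it
to its leaves `u, t, w`: say `u` has `(ch c)[0]`, `t` has `(ch c)[1]`, `w` has `(ch c)[2]`. As
`(ch c)[0]` is not the middle rotation of `c` (nodup), `Joined` says `(ch u)[1]? = (ch c)[0]?`, and
`(ch w)[1]? = (ch c)[2]?`. Split `t` off: new grouping `g' t = t`, `g' = g` elsewhere (do this for
all such centres at once).
`count_sq_le` for `g'`: `count ^ 2 ≤ ∏ i, cost {m : g' m = i}`. The groups and their costs: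
* empty group: `1` (`cost_empty`);
* `{c}` without leaves: `c ∉ F`, `cost ≤ 3` (`cost_single`), `3 ^ 2 = 9 ≤ 10`;
* one leaf: `cost_pair3`: `10 ^ 2 ≤ 10 ^ 2`; two leaves: `cost_triple3`: `29 ^ 2 = 841 ≤ 10 ^ 3`;
* three leaves: `{c, u, w}` with cost at most `24` (`cost_ends3`) and `{t}` with cost at most `4`
  (`cost_single`): together `24 ^ 2 * 4 ^ 2 = 9216 ≤ 10 ^ 4`.
So the product over all groups of `cost ^ 2` is at most `10 ^ n` (group the factors by centres: the
factor of a split leaf `t` goes to its centre `g t`).
-/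

open Finset

namespace Pool.Agent.SMP

private theorem pc_other {n : ℕ} {R : Type} [DecidableEq R] {ch : Fin n → List R}
    (two : ∀ ρ, (men ch ρ).card = 2) {c : Fin n} {ρ : R} (h : ρ ∈ ch c) :
    ∃ x, x ≠ c ∧ ∀ m, ρ ∈ ch m ↔ m = c ∨ m = x := by
  obtain ⟨x, y, hxy, he⟩ := Finset.card_eq_two.1 (two ρ)
  have hm : ∀ m, ρ ∈ ch m ↔ m = x ∨ m = y := by
    intro m
    rw [← mem_men, he]
    simp
  rcases (hm c).1 h with rfl | rfl
  · exact ⟨y, fun hh => hxy hh.symm, hm⟩
  · refine ⟨x, hxy, fun m => ?_⟩
    rw [hm m]
    exact or_comm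

private theorem pc_symm {n : ℕ} {R : Type} {ch : Fin n → List R} {a b : Fin n}
    (h : Joined ch a b) : Joined ch b a := by
  obtain ⟨ρ, h1, h2, h3⟩ := h
  exact ⟨ρ, h2, h1, h3.symm⟩

/-- the three leaves of a centre with three leaves -/
private theorem pc_three {n : ℕ} {R : Type} [DecidableEq R] {ch : Fin n → List R}
    (h : Net 3 ch) (c : Fin n) (L : Finset (Fin n))
    (hL : ∀ l ∈ L, l ≠ c ∧ (ch l).length = 3 ∧ Joined ch c l) (hc3 : (ch c).length = 3)
    (hL3 : L.card = 3) :
    ∃ u t w, L = {u, t, w} ∧ u ≠ t ∧ u ≠ w ∧ t ≠ w ∧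
      (ch u)[1]? = (ch c)[0]? ∧ (ch w)[1]? = (ch c)[2]? ∧
      ∀ m ∈ L, (∃ ρ ∈ ch m, (ch c)[1]? = some ρ) ↔ m = t := by
  obtain ⟨a, b, d, hcl⟩ := List.length_eq_three.1 hc3
  have hnd := h.nodup c
  rw [hcl] at hnd
  simp only [List.nodup_cons, List.mem_cons, List.not_mem_nil, or_false, not_or, not_false_eq_true,
    List.nodup_nil, and_true] at hnd
  obtain ⟨⟨hab, had⟩, hbd⟩ := hnd
  have hac : a ∈ ch c := by rw [hcl]; simp
  have hbc : b ∈ ch c := by rw [hcl]; simp
  have hdc : d ∈ ch c := by rw [hcl]; simp
  obtain ⟨u, hu, hu'⟩ := pc_other h.two hac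
  obtain ⟨t, ht, ht'⟩ := pc_other h.two hbc
  obtain ⟨w, hw, hw'⟩ := pc_other h.two hdc
  have hsub : L ⊆ {u, t, w} := by
    intro l hl
    obtain ⟨hlc, -, ρ, h1, h2, -⟩ := hL l hl
    rw [hcl] at h1
    simp only [List.mem_cons, List.not_mem_nil, or_false] at h1
    simp only [Finset.mem_insert, Finset.mem_singleton]
    rcases h1 with rfl | rfl | rfl
    · rcases (hu' l).1 h2 with h3 | h3
      · exact absurd h3 hlc
      · exact Or.inl h3
    · rcases (ht' l).1 h2 with h3 | h3
      · exact absurd h3 hlc
      · exact Or.inr (Or.inl h3)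
    · rcases (hw' l).1 h2 with h3 | h3
      · exact absurd h3 hlc
      · exact Or.inr (Or.inr h3)
  have hle : ({u, t, w} : Finset (Fin n)).card ≤ L.card := by
    rw [hL3]
    exact Finset.card_le_three
  have heq : L = {u, t, w} := Finset.eq_of_subset_of_card_le hsub hle
  have hcard : ({u, t, w} : Finset (Fin n)).card = 3 := by rw [← heq]; exact hL3
  have hut : u ≠ t := by
    rintro rfl
    have : ({u, u, w} : Finset (Fin n)).card ≤ 2 := by
      rw [Finset.insert_eq_of_mem (by simp)]
      exact Finset.card_le_two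
    omega
  have huw : u ≠ w := by
    rintro rfl
    have : ({u, t, u} : Finset (Fin n)).card ≤ 2 := by
      rw [Finset.insert_eq_of_mem (by simp)]
      exact Finset.card_le_two
    omega
  have htw : t ≠ w := by
    rintro rfl
    have : ({u, t, t} : Finset (Fin n)).card ≤ 2 := by
      have h9 : ({t, t} : Finset (Fin n)) = {t} := by simp
      rw [h9]
      exact Finset.card_le_two
    omega
  refine ⟨u, t, w, heq, hut, huw, htw, ?_, ?_, ?_⟩
  · obtain ⟨-, -, ρ, h1, h2, h3⟩ := hL u (by rw [heq]; simp)
    have hρ : ρ = a := by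
      rw [hcl] at h1
      simp only [List.mem_cons, List.not_mem_nil, or_false] at h1
      rcases h1 with h4 | rfl | rfl
      · exact h4
      · rcases (ht' u).1 h2 with h5 | h5
        · exact absurd h5 hu
        · exact absurd h5 hut
      · rcases (hw' u).1 h2 with h5 | h5
        · exact absurd h5 hu
        · exact absurd h5 huw
    subst hρ
    rcases h3 with ⟨-, h3⟩ | ⟨-, h3⟩
    · rw [hcl] at h3
      simp only [List.getElem?_cons_succ, List.getElem?_cons_zero, Option.some.injEq] at h3
      exact absurd h3.symm hab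
    · rw [h3, hcl]
      simp
  · obtain ⟨-, -, ρ, h1, h2, h3⟩ := hL w (by rw [heq]; simp)
    have hρ : ρ = d := by
      rw [hcl] at h1
      simp only [List.mem_cons, List.not_mem_nil, or_false] at h1
      rcases h1 with rfl | rfl | h4
      · rcases (hu' w).1 h2 with h5 | h5
        · exact absurd h5 hw
        · exact absurd h5.symm huw
      · rcases (ht' w).1 h2 with h5 | h5
        · exact absurd h5 hw
        · exact absurd h5.symm htw
      · exact h4
    subst hρ
    rcases h3 with ⟨-, h3⟩ | ⟨-, h3⟩
    · rw [hcl] at h3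
      simp only [List.getElem?_cons_succ, List.getElem?_cons_zero, Option.some.injEq] at h3
      exact absurd h3 hbd
    · rw [h3, hcl]
      simp
  · intro m hm
    have hmc := (hL m hm).1
    rw [hcl]
    simp only [List.getElem?_cons_succ, List.getElem?_cons_zero, Option.some.injEq]
    constructor
    · rintro ⟨ρ, h1, rfl⟩
      rcases (ht' m).1 h1 with h5 | h5
      · exact absurd h5 hmc
      · exact h5
    · rintro rfl
      exact ⟨b, (ht' m).2 (Or.inr rfl), rfl⟩

theorem net_bound3 {n : ℕ} {R : Type} [Fintype R] [DecidableEq R] {ch : Fin n → List R}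
    (h : Net 3 ch) : count ch ^ 4 ≤ 10 ^ n := by
  classical
  obtain ⟨g, hgg, hg1, hg2⟩ := star (univ.filter (fun m => (ch m).length = 3))
    (fun a b => a ≠ b ∧ Joined ch a b) (fun a b hab => ⟨hab.1.symm, pc_symm hab.2⟩)
    (fun a ha => ha.1 rfl) (by
      intro m hm
      rw [Finset.mem_filter] at hm
      have h1 : 1 < (ch m).length := by omega
      obtain ⟨x, hx, hx'⟩ := pc_other h.two (List.getElem_mem h1)
      refine ⟨x, hx.symm, (ch m)[1], List.getElem_mem h1, (hx' x).2 (Or.inr rfl), Or.inl ⟨hm.2, ?_⟩⟩
      exact List.getElem?_eq_getElem h1)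
  -- the leaves
  set L : Fin n → Finset (Fin n) := fun c => univ.filter (fun l => l ≠ c ∧ g l = c) with hLdef
  have memL : ∀ c l, l ∈ L c ↔ l ≠ c ∧ g l = c := by
    intro c l
    simp [hLdef]
  have hleaf : ∀ c, ∀ l ∈ L c, l ≠ c ∧ (ch l).length = 3 ∧ Joined ch c l := by
    intro c l hl
    obtain ⟨h1, h2⟩ := (memL c l).1 hl
    have h3 := hg1 l (by rw [h2]; exact h1.symm)
    rw [h2, Finset.mem_filter] at h3
    exact ⟨h1, h3.1.2, pc_symm h3.2.2⟩
  have hLle : ∀ c, (L c).card ≤ (ch c).length := by
    intro c
    have h1 : (L c).card ≤ (ch c).toFinset.card := by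
      refine Finset.card_le_card_of_forall_subsingleton (fun l ρ => ρ ∈ ch l) ?_ ?_
      · intro l hl
        obtain ⟨-, -, ρ, h2, h3, -⟩ := hleaf c l hl
        exact ⟨ρ, List.mem_toFinset.2 h2, h3⟩
      · intro ρ hρ l hl l' hl'
        obtain ⟨x, hx, hx'⟩ := pc_other h.two (List.mem_toFinset.1 hρ)
        have e1 := (hleaf c l hl.1).1
        have e2 := (hleaf c l' hl'.1).1
        rcases (hx' l).1 hl.2 with e3 | e3
        · exact absurd e3 e1
        · rcases (hx' l').1 hl'.2 with e4 | e4
          · exact absurd e4 e2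
          · rw [e3, e4]
    exact h1.trans (List.toFinset_card_le _)
  -- the split leaves
  set T : Finset (Fin n) := univ.filter (fun t => g t ≠ t ∧ (L (g t)).card = 3 ∧
    ∃ ρ ∈ ch t, (ch (g t))[1]? = some ρ) with hTdef
  have memT : ∀ t, t ∈ T ↔ g t ≠ t ∧ (L (g t)).card = 3 ∧ ∃ ρ ∈ ch t, (ch (g t))[1]? = some ρ := by
    intro t
    rw [hTdef, Finset.mem_filter]
    simp
  set A : Fin n → Finset (Fin n) := fun i => univ.filter (fun m => (if m ∈ T then m else g m) = i)
    with hAdef
  have memA : ∀ i m, m ∈ A i ↔ (if m ∈ T then m else g m) = i := by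
    intro i m
    simp [hAdef]
  have hAT : ∀ t ∈ T, A t = {t} := by
    intro t ht
    ext m
    rw [memA, Finset.mem_singleton]
    constructor
    · intro hm
      by_cases hmT : m ∈ T
      · rw [if_pos hmT] at hm
        exact hm
      · rw [if_neg hmT] at hm
        exfalso
        have h1 := hgg m
        rw [hm] at h1
        exact ((memT t).1 ht).1 h1
    · rintro rfl
      rw [if_pos ht]
  have hAn : ∀ c, c ∉ T → ∀ m, m ∈ A c ↔ m ∉ T ∧ g m = c := by
    intro c hc m
    rw [memA]
    by_cases hmT : m ∈ T
    · rw [if_pos hmT]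
      constructor
      · rintro rfl
        exact absurd hmT hc
      · rintro ⟨h1, -⟩
        exact absurd hmT h1
    · rw [if_neg hmT]
      constructor
      · intro h1
        exact ⟨hmT, h1⟩
      · intro h1
        exact h1.2
  -- the bound for every centre
  have hcen : ∀ c, (if c ∉ T then cost ch (A c) ^ 2 else 1) *
      ∏ i ∈ T.filter (fun i => g i = c), cost ch (A i) ^ 2 ≤
      10 ^ (univ.filter (fun m => g m = c)).card := by
    intro c
    by_cases hgc : g c = c
    · have hcT : c ∉ T := fun hc => ((memT c).1 hc).1 hgc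
      rw [if_pos hcT]
      have hfib : univ.filter (fun m => g m = c) = insert c (L c) := by
        ext m
        rw [Finset.mem_filter, Finset.mem_insert, memL]
        constructor
        · rintro ⟨-, h1⟩
          by_cases h2 : m = c
          · exact Or.inl h2
          · exact Or.inr ⟨h2, h1⟩
        · rintro (rfl | ⟨-, h1⟩)
          · exact ⟨Finset.mem_univ _, hgc⟩
          · exact ⟨Finset.mem_univ _, h1⟩
      have hcL : c ∉ L c := fun hc => ((memL c c).1 hc).1 rfl
      rw [hfib, Finset.card_insert_of_notMem hcL]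
      -- no split leaves unless there are three leaves
      have hT0 : (L c).card ≠ 3 → T.filter (fun i => g i = c) = ∅ ∧ A c = insert c (L c) := by
        intro h3
        have h4 : ∀ m, g m = c → m ∉ T := by
          intro m hm hmT
          have h5 := ((memT m).1 hmT).2.1
          rw [hm] at h5
          exact h3 h5
        constructor
        · rw [Finset.filter_eq_empty_iff]
          intro m hmT hm
          exact h4 m hm hmT
        · rw [← hfib]
          ext m
          rw [hAn c hcT]
          constructor
          · rintro ⟨-, h6⟩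
            exact Finset.mem_filter.2 ⟨Finset.mem_univ _, h6⟩
          · intro h6'
            have h6 := (Finset.mem_filter.1 h6').2
            exact ⟨h4 m h6, h6⟩
      have hk : (L c).card ≤ 3 := (hLle c).trans (h.len c)
      have hcases : (L c).card = 0 ∨ (L c).card = 1 ∨ (L c).card = 2 ∨ (L c).card = 3 := by omega
      rcases hcases with hk | hk | hk | hk
      · obtain ⟨hTe, hAc⟩ := hT0 (by omega)
        have hLe : L c = ∅ := Finset.card_eq_zero.1 hk
        rw [hTe, hAc, hLe, Finset.prod_empty, mul_one, Finset.card_empty]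
        have hcF : (ch c).length ≤ 2 := by
          by_contra hcon
          have h5 : (ch c).length = 3 := by
            have := h.len c
            omega
          obtain ⟨m', h6, h7⟩ := hg2 c (Finset.mem_filter.2 ⟨Finset.mem_univ _, h5⟩) hgc
          have h8 : m' ∈ L c := (memL c m').2 ⟨h6, h7⟩
          rw [hLe] at h8
          exact absurd h8 (Finset.notMem_empty _)
        have h5 := cost_single ch h.two c
        have h6 : cost ch (insert c ∅) ≤ 3 := by
          have h7 : (insert c ∅ : Finset (Fin n)) = {c} := rfl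
          rw [h7]
          omega
        calc cost ch (insert c ∅) ^ 2 ≤ 3 ^ 2 := Nat.pow_le_pow_left h6 2
          _ ≤ 10 ^ (0 + 1) := by norm_num
      · obtain ⟨hTe, hAc⟩ := hT0 (by omega)
        obtain ⟨l, hl⟩ := Finset.card_eq_one.1 hk
        obtain ⟨h1, h2, h3⟩ := hleaf c l (by rw [hl]; simp)
        rw [hTe, hAc, hk, hl, Finset.prod_empty, mul_one]
        have h6 := cost_pair3 h h1.symm h2 h3
        calc cost ch {c, l} ^ 2 ≤ 10 ^ 2 := Nat.pow_le_pow_left h6 2
          _ = 10 ^ (1 + 1) := by norm_num
      · obtain ⟨hTe, hAc⟩ := hT0 (by omega)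
        obtain ⟨u, w, huw, hl⟩ := Finset.card_eq_two.1 hk
        obtain ⟨h1, h2, h3⟩ := hleaf c u (by rw [hl]; simp)
        obtain ⟨h1', h2', h3'⟩ := hleaf c w (by rw [hl]; simp)
        rw [hTe, hAc, hk, hl, Finset.prod_empty, mul_one]
        have h6 := cost_triple3 h h1.symm h1'.symm huw h2 h2' h3 h3'
        calc cost ch {c, u, w} ^ 2 ≤ 29 ^ 2 := Nat.pow_le_pow_left h6 2
          _ ≤ 10 ^ (2 + 1) := by norm_num
      · have hc3 : (ch c).length = 3 := by
          have e1 := hLle c
          have e2 := h.len c
          omega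
        obtain ⟨u, t, w, hL3, hut, huw, htw, hju, hjw, hmid⟩ :=
          pc_three h c (L c) (hleaf c) hc3 hk
        obtain ⟨h1, h2, -⟩ := hleaf c u (by rw [hL3]; simp)
        obtain ⟨h1', h2', -⟩ := hleaf c w (by rw [hL3]; simp)
        obtain ⟨h1t, h2t, -⟩ := hleaf c t (by rw [hL3]; simp)
        have hTm : ∀ m ∈ L c, m ∈ T ↔ m = t := by
          intro m hm
          obtain ⟨e1, e2⟩ := (memL c m).1 hm
          rw [memT, e2, ← hmid m hm]
          constructor
          · rintro ⟨-, -, h9⟩
            exact h9
          · intro h9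
            exact ⟨e1.symm, hk, h9⟩
        have htL : t ∈ L c := by rw [hL3]; simp
        have htT : t ∈ T := (hTm t htL).2 rfl
        have hTe : T.filter (fun i => g i = c) = {t} := by
          ext m
          rw [Finset.mem_filter, Finset.mem_singleton]
          constructor
          · rintro ⟨e1, e2⟩
            have e3 : m ∈ L c := by
              rw [memL]
              refine ⟨?_, e2⟩
              rintro rfl
              exact hcT e1
            exact (hTm m e3).1 e1
          · rintro rfl
            exact ⟨htT, ((memL c m).1 htL).2⟩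
        have hAc : A c = {c, u, w} := by
          ext m
          rw [hAn c hcT]
          simp only [Finset.mem_insert, Finset.mem_singleton]
          constructor
          · rintro ⟨e1, e2⟩
            by_cases e3 : m = c
            · exact Or.inl e3
            · have e4 : m ∈ L c := (memL c m).2 ⟨e3, e2⟩
              have e5 : m ≠ t := fun e6 => e1 ((hTm m e4).2 e6)
              rw [hL3] at e4
              simp only [Finset.mem_insert, Finset.mem_singleton] at e4
              rcases e4 with e4 | e4 | e4
              · exact Or.inr (Or.inl e4)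
              · exact absurd e4 e5
              · exact Or.inr (Or.inr e4)
          · rintro (rfl | rfl | rfl)
            · exact ⟨hcT, hgc⟩
            · have e4 : m ∈ L c := by rw [hL3]; simp
              exact ⟨fun e6 => hut ((hTm m e4).1 e6), ((memL c m).1 e4).2⟩
            · have e4 : m ∈ L c := by rw [hL3]; simp
              exact ⟨fun e6 => htw.symm ((hTm m e4).1 e6), ((memL c m).1 e4).2⟩
        rw [hTe, hAc, Finset.prod_singleton, hAT t htT, hk]
        have h6 := cost_ends3 h h1.symm h1'.symm huw hc3 h2 h2' hju hjw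
        have h7 : cost ch {t} ≤ 4 := by
          have h8 := cost_single ch h.two t
          omega
        calc cost ch {c, u, w} ^ 2 * cost ch {t} ^ 2 ≤ 24 ^ 2 * 4 ^ 2 :=
              Nat.mul_le_mul (Nat.pow_le_pow_left h6 2) (Nat.pow_le_pow_left h7 2)
          _ ≤ 10 ^ (3 + 1) := by norm_num
    · -- not a centre
      have hno : ∀ m, g m ≠ c := by
        rintro m rfl
        exact hgc (hgg m)
      have h1 : T.filter (fun i => g i = c) = ∅ := by
        rw [Finset.filter_eq_empty_iff]
        intro m _
        exact hno m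
      have h2 : univ.filter (fun m => g m = c) = ∅ := by
        rw [Finset.filter_eq_empty_iff]
        intro m _
        exact hno m
      rw [h1, h2, Finset.prod_empty, mul_one, Finset.card_empty, pow_zero]
      by_cases hcT : c ∈ T
      · rw [if_neg (not_not_intro hcT)]
      · rw [if_pos hcT]
        have h3 : A c = ∅ := by
          rw [Finset.eq_empty_iff_forall_notMem]
          intro m hm
          exact hno m ((hAn c hcT m).1 hm).2
        rw [h3, cost_empty]
        norm_num
  -- the product
  have hcount := count_sq_le ch h.two (fun m => if m ∈ T then m else g m)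
  have hprod : ∏ i, cost ch (A i) ^ 2 = ∏ c, ((if c ∉ T then cost ch (A c) ^ 2 else 1) *
      ∏ i ∈ T.filter (fun i => g i = c), cost ch (A i) ^ 2) := by
    rw [Finset.prod_mul_distrib, Finset.prod_fiberwise T g (fun i => cost ch (A i) ^ 2),
      ← Finset.prod_filter, mul_comm]
    rw [← Finset.prod_mul_prod_compl T]
    congr 1
    apply Finset.prod_congr _ (fun _ _ => rfl)
    ext i
    simp
  calc count ch ^ 4 = (count ch ^ 2) ^ 2 := by ring
    _ ≤ (∏ i, cost ch (A i)) ^ 2 := Nat.pow_le_pow_left hcount 2
    _ = ∏ i, cost ch (A i) ^ 2 := by rw [Finset.prod_pow]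
    _ = _ := hprod
    _ ≤ ∏ c, 10 ^ (univ.filter (fun m => g m = c)).card :=
        Finset.prod_le_prod' fun c _ => hcen c
    _ = 10 ^ n := by
        rw [Finset.prod_pow_eq_pow_sum]
        congr 1
        have h1 := Finset.card_eq_sum_card_fiberwise (s := (univ : Finset (Fin n)))
          (t := (univ : Finset (Fin n))) (f := g) (fun _ _ => Finset.mem_coe.2 (Finset.mem_univ _))
        rw [Finset.card_univ, Fintype.card_fin] at h1
        exact h1.symm

end Pool.Agent.SMP
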