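import Pool.Agent.SMP.Sel
import Pool.Agent.SMP.PartB
import Pool.Agent.SMP.PartC

set_option autoImplicit false

/-!
# From the full chains to a net

Take `Q` from `select` and `ch m = (cf m).filter (fun ρ => m ∈ Q ρ)`. Then `Net K ch`:
* `nodup`: `hinc` gives `Nodup` of `cf m`, a filter is a sublist;
* `len`: `List.length_filter_le`;
* `two`: `men ch ρ = Q ρ`;
* `par`: if `(ch m).length = K` and `(cf m).length ≤ K` then `ch m = cf m`; so `ρ, σ` in both lists
  give `Q ρ = {m, x} = Q σ` (two elements, both `m` and `x` are in). `Adj` in both lists: the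
  orders agree because of `hinc` (`Nxt l ρ σ` gives `rk ρ < rk σ`), so either `Nxt ρ σ` in both or
  `Nxt σ ρ` in both: excluded by `select`.
Finally `count cf ≤ count ch` (`Dec.sublist`, `Finset.card_le_card`).
-/

open Finset

namespace Pool.Agent.SMP

private theorem nxt_rk' {R : Type} [DecidableEq R] {l : List R} {rk : R → ℕ}
    (hl : l.Pairwise (fun a b => rk a < rk b)) {ρ σ : R} (h : Nxt l ρ σ) : rk ρ < rk σ := by
  obtain ⟨h1, h2, h3⟩ := h
  have e1 := List.idxOf_lt_length_iff.2 h1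
  have e2 := List.idxOf_lt_length_iff.2 h2
  have := List.pairwise_iff_getElem.1 hl (l.idxOf ρ) (l.idxOf σ) e1 e2 (by omega)
  rwa [List.getElem_idxOf, List.getElem_idxOf] at this

private theorem mk_net {n : ℕ} {R : Type} [Fintype R] [DecidableEq R] (K : ℕ) (cf : Fin n → List R)
    (rk : R → ℕ) (hinc : ∀ m, (cf m).Pairwise (fun a b => rk a < rk b))
    (h2 : ∀ ρ, 2 ≤ (men cf ρ).card)
    (hW : ∀ m x, m ≠ x → ∀ ρ σ, Nxt (cf m) ρ σ → Nxt (cf x) ρ σ →
      ((men cf ρ).card = 2 → 4 ≤ (men cf σ).card) ∧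
      ((men cf σ).card = 2 → 4 ≤ (men cf ρ).card))
    (hlen : ∀ m, (cf m).length ≤ K) : ∃ ch : Fin n → List R, Net K ch ∧ count cf ≤ count ch := by
  classical
  obtain ⟨Q, hQ1, hQ2, hQ3⟩ := select cf rk hinc h2 hW
  have hmem : ∀ m ρ, ρ ∈ (cf m).filter (fun ρ => decide (m ∈ Q ρ)) ↔ m ∈ Q ρ := by
    intro m ρ
    rw [List.mem_filter, decide_eq_true_iff]
    exact ⟨fun h => h.2, fun h => ⟨mem_men.1 (hQ1 ρ h), h⟩⟩
  have hsub : ∀ m, ((cf m).filter (fun ρ => decide (m ∈ Q ρ))).Sublist (cf m) := fun m =>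
    List.filter_sublist
  have hfull : ∀ m, ((cf m).filter (fun ρ => decide (m ∈ Q ρ))).length = K →
      (cf m).filter (fun ρ => decide (m ∈ Q ρ)) = cf m := by
    intro m hm
    exact (hsub m).eq_of_length_le (by rw [hm]; exact hlen m)
  have hpair : ∀ m x, m ≠ x → ∀ ρ, m ∈ Q ρ → x ∈ Q ρ → Q ρ = {m, x} := by
    intro m x hmx ρ h3 h4
    symm
    apply Finset.eq_of_subset_of_card_le
    · intro y hy
      rcases Finset.mem_insert.1 hy with rfl | hy
      · exact h3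
      · rw [Finset.mem_singleton.1 hy]; exact h4
    · rw [hQ2, Finset.card_pair hmx]
  refine ⟨fun m => (cf m).filter (fun ρ => decide (m ∈ Q ρ)), ⟨?_, ?_, ?_, ?_⟩, ?_⟩
  · intro m
    have h3 : (cf m).Nodup := (hinc m).imp (fun {a b} h => by
      rintro rfl
      exact lt_irrefl _ h)
    exact h3.filter _
  · intro m
    exact (List.length_filter_le _ _).trans (hlen m)
  · intro ρ
    have h3 : men (fun m => (cf m).filter (fun ρ => decide (m ∈ Q ρ))) ρ = Q ρ := by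
      ext m
      rw [mem_men]
      exact hmem m ρ
    rw [h3, hQ2]
  · rintro m x hmx hm hx ρ σ ⟨h3, h4⟩
    have hm' := hfull m hm
    have hx' := hfull x hx
    have key : ∀ α β, Nxt (cf m) α β → Nxt (cf x) α β → False := by
      intro α β h5 h6
      have hα : Q α = {m, x} := hpair m x hmx α
        ((hmem m α).1 (by rw [hm']; exact h5.1)) ((hmem x α).1 (by rw [hx']; exact h6.1))
      have hβ : Q β = {m, x} := hpair m x hmx β
        ((hmem m β).1 (by rw [hm']; exact h5.2.1)) ((hmem x β).1 (by rw [hx']; exact h6.2.1))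
      exact hQ3 m x hmx α β hα hβ ⟨h5, h6⟩
    rw [hm'] at h3
    rw [hx'] at h4
    rcases h3 with h3 | h3 <;> rcases h4 with h4 | h4
    · exact key ρ σ h3 h4
    · exact lt_asymm (nxt_rk' (hinc m) h3) (nxt_rk' (hinc x) h4)
    · exact lt_asymm (nxt_rk' (hinc m) h3) (nxt_rk' (hinc x) h4)
    · exact key σ ρ h3 h4
  · unfold count
    apply Finset.card_le_card
    intro x hx
    rw [Finset.mem_filter] at hx ⊢
    exact ⟨hx.1, fun m => Dec.sublist (hsub m) (hx.2 m)⟩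

theorem chains_bound3 {n : ℕ} {R : Type} [Fintype R] [DecidableEq R] (cf : Fin n → List R)
    (rk : R → ℕ) (hinc : ∀ m, (cf m).Pairwise (fun a b => rk a < rk b))
    (h2 : ∀ ρ, 2 ≤ (men cf ρ).card)
    (hW : ∀ m x, m ≠ x → ∀ ρ σ, Nxt (cf m) ρ σ → Nxt (cf x) ρ σ →
      ((men cf ρ).card = 2 → 4 ≤ (men cf σ).card) ∧
      ((men cf σ).card = 2 → 4 ≤ (men cf ρ).card))
    (hlen : ∀ m, (cf m).length ≤ 3) : count cf ^ 4 ≤ 10 ^ n := by
  obtain ⟨ch, h3, h4⟩ := mk_net 3 cf rk hinc h2 hW hlen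
  exact (Nat.pow_le_pow_left h4 4).trans (net_bound3 h3)

theorem chains_bound2 {n : ℕ} {R : Type} [Fintype R] [DecidableEq R] (cf : Fin n → List R)
    (rk : R → ℕ) (hinc : ∀ m, (cf m).Pairwise (fun a b => rk a < rk b))
    (h2 : ∀ ρ, 2 ≤ (men cf ρ).card)
    (hW : ∀ m x, m ≠ x → ∀ ρ σ, Nxt (cf m) ρ σ → Nxt (cf x) ρ σ →
      ((men cf ρ).card = 2 → 4 ≤ (men cf σ).card) ∧
      ((men cf σ).card = 2 → 4 ≤ (men cf ρ).card))
    (hlen : ∀ m, (cf m).length ≤ 2) : count cf ^ 4 ≤ 7 ^ n := by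
  obtain ⟨ch, h3, h4⟩ := mk_net 2 cf rk hinc h2 hW hlen
  exact (Nat.pow_le_pow_left h4 4).trans (net_bound2 h3)

end Pool.Agent.SMP
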