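import Pool.Agent.SMP.Chn
import Pool.Agent.SMP.Mk
import Pool.Agent.SMP.Blk
import Pool.Agent.SMP.Base

set_option autoImplicit false

/-!
# The theorem (helper58)
-/

open Finset

namespace Pool.Agent.SMP

open Pool.Agent.StabM

theorem good_four {n : ℕ} {S : Finset (Equiv.Perm (Fin n))} {r : Fin n → Fin n → ℤ}
    (hg : Good S r) (hK : ∀ m, (S.image (fun σ => σ m)).card ≤ 4) : S.card ^ 4 ≤ 10 ^ n := by
  rcases S.eq_empty_or_nonempty with h | hS
  · subst h
    simp
  · obtain ⟨R, _, _, cf, rk, h1, h2, h3, h4, h5⟩ := exists_chains hg hS 3 hK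
    exact (Nat.pow_le_pow_left h5 4).trans (chains_bound3 cf rk h1 h2 h3 h4)

theorem good_three {n : ℕ} {S : Finset (Equiv.Perm (Fin n))} {r : Fin n → Fin n → ℤ}
    (hg : Good S r) (hK : ∀ m, (S.image (fun σ => σ m)).card ≤ 3) : S.card ^ 4 ≤ 7 ^ n := by
  rcases S.eq_empty_or_nonempty with h | hS
  · subst h
    simp
  · obtain ⟨R, _, _, cf, rk, h1, h2, h3, h4, h5⟩ := exists_chains hg hS 2 hK
    exact (Nat.pow_le_pow_left h5 4).trans (chains_bound2 cf rk h1 h2 h3 h4)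

end Pool.Agent.SMP
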