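import Pool.Agent.SMP.Bas

set_option autoImplicit false

/-!
# A Hoelder inequality for Boolean variables (owner: see help_requests)

PAPER PROOF. Induction on `W` (`Finset.induction_on` with `N`, `F` generalised).
* `W = ∅`: all `N g = ∅`, the only point of `supp ∅` is `0`, and `F g 0 = sqrt (F g 0 ^ 2)`.
* `W = insert v W'`, `v ∉ W'`. Put `N' g = (N g).erase v`,
  `F' g x = if v ∈ N g then sqrt (F g (update x v false) ^ 2 + F g (update x v true) ^ 2)`
  `else F g x`. Then `sum over supp W of ∏ g, F g x = sum over x in supp W' of`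
  `(∏ g, F g (update x v false) + ∏ g, F g (update x v true))`, and pointwise
  `∏ g a_g + ∏ g c_g ≤ ∏ g F' g x` with `a_g = F g (update x v false)`, `c_g` the same with `true`:
  for `g` with `v ∉ N g` we have `a_g = c_g = F' g x` (by `hF`); at least two indices `g1 ≠ g2` have
  `v ∈ N g` (by `hN`), there `a1 a2 + c1 c2 ≤ sqrt (a1^2+c1^2) * sqrt (a2^2+c2^2)`
  (Cauchy - Schwarz), for all the other ones `a_g, c_g ≤ sqrt (a_g^2+c_g^2)`.
  Apply the induction hypothesis to `N', F'` and use
  `sum over supp (N' g) of F' g x ^ 2 = sum over supp (N g) of F g x ^ 2`.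
-/

open Finset

namespace Pool.Agent.SMP

/-- Boolean functions vanishing off `W` -/
def supp {V : Type} [Fintype V] [DecidableEq V] (W : Finset V) : Finset (V → Bool) :=
  univ.filter (fun x => ∀ v, v ∉ W → x v = false)

private lemma sum_supp_insert {V : Type} [Fintype V] [DecidableEq V] (W : Finset V) (v : V)
    (hv : v ∉ W) (f : (V → Bool) → ℝ) :
    ∑ x ∈ supp (insert v W), f x =
      ∑ x ∈ supp W, (f (Function.update x v false) + f (Function.update x v true)) := by
  rw [← Finset.sum_filter_add_sum_filter_not (supp (insert v W)) (fun x => x v = false),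
    Finset.sum_add_distrib]
  congr 1
  · apply Finset.sum_nbij' (fun x => x) (fun x => x)
    · intro x hx
      simp only [supp, Finset.mem_filter, Finset.mem_univ, true_and, Finset.mem_insert,
        not_or] at hx ⊢
      intro w hw
      by_cases h : w = v
      · rw [h]; exact hx.2
      · exact hx.1 w ⟨h, hw⟩
    · intro x hx
      simp only [supp, Finset.mem_filter, Finset.mem_univ, true_and, Finset.mem_insert,
        not_or] at hx ⊢
      exact ⟨fun w hw => hx w hw.2, hx v hv⟩
    · intro x _; rfl
    · intro x _; rfl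
    · intro x hx
      simp only [Finset.mem_filter] at hx
      rw [← hx.2, Function.update_eq_self]
  · apply Finset.sum_nbij' (fun x => Function.update x v false)
      (fun x => Function.update x v true)
    · intro x hx
      simp only [supp, Finset.mem_filter, Finset.mem_univ, true_and, Finset.mem_insert,
        not_or] at hx ⊢
      intro w hw
      by_cases h : w = v
      · rw [h, Function.update_self]
      · rw [Function.update_of_ne h]; exact hx.1 w ⟨h, hw⟩
    · intro x hx
      simp only [supp, Finset.mem_filter, Finset.mem_univ, true_and, Finset.mem_insert,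
        not_or] at hx ⊢
      refine ⟨fun w hw => ?_, ?_⟩
      · rw [Function.update_of_ne hw.1]; exact hx w hw.2
      · rw [Function.update_self]; decide
    · intro x hx
      simp only [Finset.mem_filter] at hx
      have h1 : x v = true := by
        cases h : x v
        · exact absurd h hx.2
        · rfl
      rw [Function.update_idem, ← h1, Function.update_eq_self]
    · intro x hx
      simp only [supp, Finset.mem_filter, Finset.mem_univ, true_and] at hx
      rw [Function.update_idem, ← hx v hv, Function.update_eq_self]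
    · intro x hx
      simp only [Finset.mem_filter] at hx
      have h1 : x v = true := by
        cases h : x v
        · exact absurd h hx.2
        · rfl
      rw [Function.update_idem, ← h1, Function.update_eq_self]

private lemma le_sqrt_left (a c : ℝ) (ha : 0 ≤ a) : a ≤ Real.sqrt (a ^ 2 + c ^ 2) := by
  calc a = Real.sqrt (a ^ 2) := (Real.sqrt_sq ha).symm
    _ ≤ _ := Real.sqrt_le_sqrt (by nlinarith [sq_nonneg c])

private lemma le_sqrt_right (a c : ℝ) (hc : 0 ≤ c) : c ≤ Real.sqrt (a ^ 2 + c ^ 2) := by
  calc c = Real.sqrt (c ^ 2) := (Real.sqrt_sq hc).symm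
    _ ≤ _ := Real.sqrt_le_sqrt (by nlinarith [sq_nonneg a])

private lemma cs (a1 a2 c1 c2 : ℝ) (h1 : 0 ≤ a1) (h2 : 0 ≤ a2) (h3 : 0 ≤ c1) (h4 : 0 ≤ c2) :
    a1 * a2 + c1 * c2 ≤ Real.sqrt (a1 ^ 2 + c1 ^ 2) * Real.sqrt (a2 ^ 2 + c2 ^ 2) := by
  rw [← Real.sqrt_mul (by positivity)]
  have h : 0 ≤ a1 * a2 + c1 * c2 := by positivity
  calc a1 * a2 + c1 * c2 = Real.sqrt ((a1 * a2 + c1 * c2) ^ 2) := (Real.sqrt_sq h).symm
    _ ≤ _ := Real.sqrt_le_sqrt (by nlinarith [sq_nonneg (a1 * c2 - a2 * c1)])

private lemma pointwise {G : Type} [Fintype G] [DecidableEq G] (a c s : G → ℝ)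
    (ha : ∀ g, 0 ≤ a g) (hc : ∀ g, 0 ≤ c g) (has : ∀ g, a g ≤ s g) (hcs : ∀ g, c g ≤ s g)
    (g1 g2 : G) (h12 : g1 ≠ g2)
    (h : a g1 * a g2 + c g1 * c g2 ≤ s g1 * s g2) :
    ∏ g, a g + ∏ g, c g ≤ ∏ g, s g := by
  have key : ∀ f : G → ℝ, ∏ g, f g = f g1 * f g2 * ∏ g ∈ (univ.erase g1).erase g2, f g := by
    intro f
    rw [← Finset.mul_prod_erase univ f (Finset.mem_univ g1),
      ← Finset.mul_prod_erase (univ.erase g1) f
        (Finset.mem_erase.2 ⟨h12.symm, Finset.mem_univ g2⟩), mul_assoc]
  rw [key a, key c, key s]
  have hs : ∀ g, 0 ≤ s g := fun g => (ha g).trans (has g)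
  have h1 : ∏ g ∈ (univ.erase g1).erase g2, a g ≤ ∏ g ∈ (univ.erase g1).erase g2, s g :=
    Finset.prod_le_prod (fun g _ => ha g) (fun g _ => has g)
  have h2 : ∏ g ∈ (univ.erase g1).erase g2, c g ≤ ∏ g ∈ (univ.erase g1).erase g2, s g :=
    Finset.prod_le_prod (fun g _ => hc g) (fun g _ => hcs g)
  have h3 : 0 ≤ ∏ g ∈ (univ.erase g1).erase g2, s g := Finset.prod_nonneg (fun g _ => hs g)
  calc a g1 * a g2 * ∏ g ∈ (univ.erase g1).erase g2, a g +
        c g1 * c g2 * ∏ g ∈ (univ.erase g1).erase g2, c g
      ≤ a g1 * a g2 * ∏ g ∈ (univ.erase g1).erase g2, s g +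
        c g1 * c g2 * ∏ g ∈ (univ.erase g1).erase g2, s g :=
        add_le_add (mul_le_mul_of_nonneg_left h1 (mul_nonneg (ha _) (ha _)))
          (mul_le_mul_of_nonneg_left h2 (mul_nonneg (hc _) (hc _)))
    _ = (a g1 * a g2 + c g1 * c g2) * ∏ g ∈ (univ.erase g1).erase g2, s g := by ring
    _ ≤ _ := mul_le_mul_of_nonneg_right h h3

theorem holder {V G : Type} [Fintype V] [DecidableEq V] [Fintype G] [DecidableEq G]
    (W : Finset V) (N : G → Finset V) (hNW : ∀ g, N g ⊆ W)
    (hN : ∀ v ∈ W, 2 ≤ (univ.filter (fun g => v ∈ N g)).card)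
    (F : G → (V → Bool) → ℝ) (h0 : ∀ g x, 0 ≤ F g x)
    (hF : ∀ g x y, (∀ v ∈ N g, x v = y v) → F g x = F g y) :
    ∑ x ∈ supp W, ∏ g, F g x ≤ ∏ g, Real.sqrt (∑ x ∈ supp (N g), F g x ^ 2) := by
  induction W using Finset.induction_on generalizing N F with
  | empty =>
    have hN0 : ∀ g, N g = ∅ := fun g => Finset.subset_empty.1 (hNW g)
    have hs : supp (∅ : Finset V) = {fun _ => false} := by
      ext x
      simp only [supp, Finset.mem_filter, Finset.mem_univ, true_and, Finset.notMem_empty,
        not_false_eq_true, forall_true_left, Finset.mem_singleton]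
      constructor
      · intro h; funext v; exact h v
      · intro h v; rw [h]
    simp only [hN0, hs, Finset.sum_singleton]
    apply le_of_eq
    apply Finset.prod_congr rfl
    intro g _
    rw [Real.sqrt_sq (h0 g _)]
  | insert v W hv ih =>
    have hsq : ∀ g, ∑ x ∈ supp ((N g).erase v), (if v ∈ N g then
        Real.sqrt (F g (Function.update x v false) ^ 2 + F g (Function.update x v true) ^ 2)
        else F g x) ^ 2 = ∑ x ∈ supp (N g), F g x ^ 2 := by
      intro g
      by_cases hg : v ∈ N g
      · have h1 : N g = insert v ((N g).erase v) := (Finset.insert_erase hg).symm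
        have h2 := sum_supp_insert ((N g).erase v) v (Finset.notMem_erase v (N g))
          (fun x => F g x ^ 2)
        rw [← h1] at h2
        rw [h2]
        apply Finset.sum_congr rfl
        intro x _
        rw [if_pos hg, Real.sq_sqrt (by positivity)]
      · rw [Finset.erase_eq_of_notMem hg]
        apply Finset.sum_congr rfl
        intro x _
        rw [if_neg hg]
    have h := ih (fun g => (N g).erase v)
      (fun g w hw => by
        have h1 := hNW g (Finset.mem_of_mem_erase hw)
        exact (Finset.mem_insert.1 h1).resolve_left (Finset.ne_of_mem_erase hw))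
      (fun w hw => by
        refine (hN w (Finset.mem_insert_of_mem hw)).trans (Finset.card_le_card ?_)
        intro g hg
        simp only [Finset.mem_filter, Finset.mem_univ, true_and, Finset.mem_erase] at hg ⊢
        exact ⟨fun h => hv (h ▸ hw), hg⟩)
      (fun g x => if v ∈ N g then
        Real.sqrt (F g (Function.update x v false) ^ 2 + F g (Function.update x v true) ^ 2)
        else F g x)
      (fun g x => by
        split_ifs
        · exact Real.sqrt_nonneg _
        · exact h0 g x)
      (fun g x y hxy => by
        by_cases hg : v ∈ N g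
        · rw [if_pos hg, if_pos hg]
          have hu : ∀ b : Bool, F g (Function.update x v b) = F g (Function.update y v b) := by
            intro b
            apply hF
            intro w hw
            by_cases hwv : w = v
            · rw [hwv, Function.update_self, Function.update_self]
            · rw [Function.update_of_ne hwv, Function.update_of_ne hwv]
              exact hxy w (Finset.mem_erase.2 ⟨hwv, hw⟩)
          rw [hu false, hu true]
        · rw [if_neg hg, if_neg hg]
          apply hF
          intro w hw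
          exact hxy w (Finset.mem_erase.2 ⟨fun h => hg (h ▸ hw), hw⟩))
    rw [sum_supp_insert W v hv]
    refine (Finset.sum_le_sum ?_).trans (h.trans (le_of_eq ?_))
    · intro x _
      obtain ⟨g1, hg1, g2, hg2, h12⟩ :=
        Finset.one_lt_card.1 (lt_of_lt_of_le one_lt_two (hN v (Finset.mem_insert_self v W)))
      rw [Finset.mem_filter] at hg1 hg2
      have hoff : ∀ g, v ∉ N g → ∀ b : Bool, F g (Function.update x v b) = F g x := by
        intro g hg b
        apply hF
        intro w hw
        have hwv : w ≠ v := fun h => hg (h ▸ hw)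
        rw [Function.update_of_ne hwv]
      apply pointwise (fun g => F g (Function.update x v false))
        (fun g => F g (Function.update x v true)) _ (fun g => h0 g _) (fun g => h0 g _) _ _
        g1 g2 h12
      · rw [if_pos hg1.2, if_pos hg2.2]
        exact cs _ _ _ _ (h0 _ _) (h0 _ _) (h0 _ _) (h0 _ _)
      · intro g
        split_ifs with hg
        · exact le_sqrt_left _ _ (h0 _ _)
        · exact le_of_eq (hoff g hg false)
      · intro g
        split_ifs with hg
        · exact le_sqrt_right _ _ (h0 _ _)
        · exact le_of_eq (hoff g hg true)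
    · apply Finset.prod_congr rfl
      intro g _
      rw [hsq g]

end Pool.Agent.SMP
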