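import Pool.Agent.StabM.StabLat
import Pool.Agent.SMP.Bas

set_option autoImplicit false

/-!
# The rotations of a good family: least elements

`S` is closed under pointwise maxima and minima (`StabM.Good`), `β` is its least element. For
`w ∈ low S r β m` (a partner of `m` in `S` of larger rank than `β m`), `ji S r m w` is the least
element `ν` of `S` with `r m w ≤ r m (ν m)`; it has `ν m = w`: this is `StabM.exists_least` for
`σ = β`.
`exists_bot`: an element of `S` with the least `∑ q, r q (σ q)` (`Finset.exists_min_image`); with any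
`τ ∈ S` its pointwise minimum with `τ` is in `S`, so it is the element itself (copy the proof of
`hleast` in `StabM.exists_least`).
-/

open Finset

namespace Pool.Agent.SMP

open Pool.Agent.StabM

variable {n : ℕ} {S : Finset (Equiv.Perm (Fin n))} {r : Fin n → Fin n → ℤ}

theorem exists_bot (hg : Good S r) (hS : S.Nonempty) : ∃ β ∈ S, ∀ τ ∈ S, Ple r β τ := by
  obtain ⟨β, hβ, hmin⟩ := Finset.exists_min_image S (fun τ => ∑ q, r q (τ q)) hS
  refine ⟨β, hβ, fun τ hτ => ?_⟩
  obtain ⟨κ, hκ, hk⟩ := hg.min β hβ τ hτ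
  have h3 := hmin κ hκ
  intro q
  by_contra hcon
  rw [not_le] at hcon
  have h4 : ∑ q, r q (κ q) < ∑ q, r q (β q) := by
    apply Finset.sum_lt_sum
    · intro q' _
      rw [hk q']
      exact min_le_left _ _
    · refine ⟨q, Finset.mem_univ _, ?_⟩
      rw [hk q]
      exact lt_of_le_of_lt (min_le_right _ _) hcon
  exact absurd h3 (not_le.mpr h4)

open Classical in
/-- the least element of `S` in which `m` has the partner `w` (or one of larger rank) -/
noncomputable def ji (S : Finset (Equiv.Perm (Fin n))) (r : Fin n → Fin n → ℤ) (m w : Fin n) :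
    Equiv.Perm (Fin n) :=
  if h : ∃ ν ∈ S, ν m = w ∧ ∀ τ ∈ S, r m w ≤ r m (τ m) → Ple r ν τ then h.choose else 1

theorem ji_spec (hg : Good S r) {β : Equiv.Perm (Fin n)} (hβ : β ∈ S)
    (hb : ∀ τ ∈ S, Ple r β τ) {m w : Fin n} (hw : w ∈ low S r β m) :
    ji S r m w ∈ S ∧ ji S r m w m = w ∧
      ∀ τ ∈ S, (Ple r (ji S r m w) τ ↔ r m w ≤ r m (τ m)) := by
  classical
  have hex : ∃ ν ∈ S, ν m = w ∧ ∀ τ ∈ S, r m w ≤ r m (τ m) → Ple r ν τ := by
    obtain ⟨ν, hν, -, hνm, h1, -⟩ := exists_least hg hβ hw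
    exact ⟨ν, hν, hνm, fun τ hτ h => h1 τ hτ (hb τ hτ) h⟩
  have hji : ji S r m w = hex.choose := by
    unfold ji
    exact dif_pos hex
  obtain ⟨h1, h2, h3⟩ := hex.choose_spec
  rw [← hji] at h1 h2 h3
  refine ⟨h1, h2, fun τ hτ => ⟨fun h => ?_, h3 τ hτ⟩⟩
  have h4 := h m
  rwa [h2] at h4

/-- pointwise comparison is antisymmetric on permutations -/
theorem ple_antisymm (hg : Good S r) {σ τ : Equiv.Perm (Fin n)} (h : Ple r σ τ)
    (h' : Ple r τ σ) : σ = τ :=
  Equiv.ext fun m => hg.inj m (le_antisymm (h m) (h' m))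

end Pool.Agent.SMP
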