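import Pool.Agent.SMP.Ji

set_option autoImplicit false

/-!
# The element directly below a rotation

PAPER PROOF of `exists_pre`. Let `ρ = ji S r m w`. The set `T` of the `τ ∈ S` with `Ple r τ ρ`,
`τ ≠ ρ` contains `β`, and every `τ ∈ T` has `r m (τ m) < r m w` (otherwise `Ple r ρ τ` by `ji_spec`
and `τ = ρ`). Let `π ∈ T` have the largest `∑ q, r q (π q)`. For `τ ∈ T` the pointwise maximum `κ`
of `π` and `τ` is in `S`, `Ple r κ ρ`, and `r m (κ m) < r m w`, so `κ ≠ ρ`, `κ ∈ T`, and its sum is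
not larger than that of `π`: so `Ple r τ π`.
For `x` with `π x ≠ ρ x`: `r x (π x) < r x (ρ x)` (`Ple` and injectivity), so
`ρ x ∈ low S r β x`; `ν = ji S r x (ρ x)` has `Ple r ν ρ`; if `ν ≠ ρ` then `Ple r ν π` and
`r x (ρ x) = r x (ν x) ≤ r x (π x)`, contradiction; so `ν = ρ`. Conversely, if
`ji S r x (ρ x) = ρ` and `π x = ρ x` then `Ple r ρ π` by `ji_spec`, so `π = ρ`, contradiction.
Gap: if `τ ∈ S` and `r x (π x) < r x (τ x) < r x (ρ x)` then `ν = ji S r x (τ x)` has `Ple r ν ρ`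
(`ji_spec` with `ρ`), `ν x = τ x ≠ ρ x`, so `ν ≠ ρ`, `Ple r ν π`, `r x (τ x) ≤ r x (π x)`:
contradiction.
`two_le_moved`: two different permutations differ in at least two points.
-/

open Finset

namespace Pool.Agent.SMP

open Pool.Agent.StabM

variable {n : ℕ} {S : Finset (Equiv.Perm (Fin n))} {r : Fin n → Fin n → ℤ}

/-- `ρ` is a rotation (a join irreducible element) -/
def IsRot (S : Finset (Equiv.Perm (Fin n))) (r : Fin n → Fin n → ℤ) (β ρ : Equiv.Perm (Fin n)) :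
    Prop := ∃ m, ∃ w ∈ low S r β m, ji S r m w = ρ

theorem exists_pre (hg : Good S r) {β : Equiv.Perm (Fin n)} (hβ : β ∈ S)
    (hb : ∀ τ ∈ S, Ple r β τ) {ρ : Equiv.Perm (Fin n)} (hρ : IsRot S r β ρ) :
    ∃ π ∈ S, Ple r π ρ ∧ π ≠ ρ ∧ (∀ τ ∈ S, Ple r τ ρ → τ ≠ ρ → Ple r τ π) ∧
      (∀ x, π x ≠ ρ x ↔ (ρ x ∈ low S r β x ∧ ji S r x (ρ x) = ρ)) ∧
      (∀ x, π x ≠ ρ x → r x (π x) < r x (ρ x) ∧
        ∀ τ ∈ S, r x (τ x) ≤ r x (π x) ∨ r x (ρ x) ≤ r x (τ x)) := by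
  classical
  obtain ⟨m, w, hw, hjw⟩ := hρ
  obtain ⟨hρS, hρm, hρu⟩ := ji_spec hg hβ hb hw
  rw [hjw] at hρS hρm hρu
  have hwlt : r m (β m) < r m w := (mem_low.mp hw).2
  have hlt : ∀ τ ∈ S, Ple r τ ρ → τ ≠ ρ → r m (τ m) < r m w := by
    intro τ hτ h1 h2
    by_contra hc
    exact h2 (ple_antisymm hg h1 ((hρu τ hτ).mpr (not_lt.mp hc)))
  set T : Finset (Equiv.Perm (Fin n)) := S.filter (fun τ => Ple r τ ρ ∧ τ ≠ ρ) with hT
  have memT : ∀ τ, τ ∈ T ↔ τ ∈ S ∧ Ple r τ ρ ∧ τ ≠ ρ := fun τ => by rw [hT, Finset.mem_filter]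
  have hβT : β ∈ T := by
    rw [memT]
    refine ⟨hβ, hb ρ hρS, ?_⟩
    intro h
    rw [h, hρm] at hwlt
    exact lt_irrefl _ hwlt
  obtain ⟨π, hπT, hπmax⟩ := Finset.exists_max_image T (fun τ => ∑ q, r q (τ q)) ⟨β, hβT⟩
  obtain ⟨hπS, hπρ, hπne⟩ := (memT π).mp hπT
  have hmax : ∀ τ ∈ S, Ple r τ ρ → τ ≠ ρ → Ple r τ π := by
    intro τ hτ h1 h2
    obtain ⟨κ, hκS, hκ⟩ := hg.max π hπS τ hτ
    have hκρ : Ple r κ ρ := fun q => by
      rw [hκ q]
      exact max_le (hπρ q) (h1 q)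
    have hκm : r m (κ m) < r m w := by
      rw [hκ m]
      exact max_lt (hlt π hπS hπρ hπne) (hlt τ hτ h1 h2)
    have hκne : κ ≠ ρ := by
      intro h
      rw [h, hρm] at hκm
      exact lt_irrefl _ hκm
    have hle := hπmax κ ((memT κ).mpr ⟨hκS, hκρ, hκne⟩)
    have hge : ∀ q ∈ (Finset.univ : Finset (Fin n)), r q (π q) ≤ r q (κ q) := fun q _ => by
      rw [hκ q]
      exact le_max_left _ _
    have heq := (Finset.sum_eq_sum_iff_of_le hge).mp (le_antisymm (Finset.sum_le_sum hge) hle)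
    intro q
    rw [heq q (Finset.mem_univ q), hκ q]
    exact le_max_right _ _
  have hstrict : ∀ x, π x ≠ ρ x → r x (π x) < r x (ρ x) := by
    intro x hx
    refine lt_of_le_of_ne (hπρ x) ?_
    intro h
    exact hx (hg.inj x h)
  refine ⟨π, hπS, hπρ, hπne, hmax, ?_, ?_⟩
  · intro x
    constructor
    · intro hx
      have h1 : ρ x ∈ low S r β x :=
        mem_low.mpr ⟨⟨ρ, hρS, rfl⟩, lt_of_le_of_lt (hb π hπS x) (hstrict x hx)⟩
      obtain ⟨h2, h3, h4⟩ := ji_spec hg hβ hb h1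
      refine ⟨h1, ?_⟩
      by_contra hne
      have h5 : Ple r (ji S r x (ρ x)) ρ := (h4 ρ hρS).mpr le_rfl
      have h6 := hmax _ h2 h5 hne x
      rw [h3] at h6
      exact absurd (hstrict x hx) (not_lt.mpr h6)
    · rintro ⟨h1, h2⟩ hx
      obtain ⟨h3, h4, h5⟩ := ji_spec hg hβ hb h1
      have h6 : Ple r (ji S r x (ρ x)) π := (h5 π hπS).mpr (by rw [hx])
      rw [h2] at h6
      exact hπne (ple_antisymm hg hπρ h6)
  · intro x hx
    refine ⟨hstrict x hx, ?_⟩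
    intro τ hτ
    by_contra hc
    push Not at hc
    obtain ⟨hc1, hc2⟩ := hc
    have h1 : τ x ∈ low S r β x := mem_low.mpr ⟨⟨τ, hτ, rfl⟩, lt_of_le_of_lt (hb π hπS x) hc1⟩
    obtain ⟨h2, h3, h4⟩ := ji_spec hg hβ hb h1
    have h5 : Ple r (ji S r x (τ x)) ρ := (h4 ρ hρS).mpr hc2.le
    have h6 : ji S r x (τ x) ≠ ρ := by
      intro h
      rw [h] at h3
      rw [h3] at hc2
      exact lt_irrefl _ hc2
    have h7 := hmax _ h2 h5 h6 x
    rw [h3] at h7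
    exact absurd hc1 (not_lt.mpr h7)

theorem two_le_moved {π ρ : Equiv.Perm (Fin n)} (h : π ≠ ρ) :
    2 ≤ (univ.filter (fun x => π x ≠ ρ x)).card := by
  have h1 : ∃ x, π x ≠ ρ x := by
    by_contra hc
    push Not at hc
    exact h (Equiv.ext hc)
  obtain ⟨x, hx⟩ := h1
  set y := π.symm (ρ x) with hy
  have hy1 : π y = ρ x := by rw [hy, Equiv.apply_symm_apply]
  have hyx : x ≠ y := by
    intro h2
    rw [← h2] at hy1
    exact hx hy1
  have hy2 : π y ≠ ρ y := by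
    intro h2
    rw [hy1] at h2
    exact hyx (ρ.injective h2)
  have h3 : 1 < (univ.filter (fun x => π x ≠ ρ x)).card := by
    rw [Finset.one_lt_card]
    exact ⟨x, by simp [hx], y, by simp [hy2], hyx⟩
  exact h3

end Pool.Agent.SMP
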