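import Pool.Agent.SMP.Bas

set_option autoImplicit false

/-!
# Choice of two men for every rotation

`cf m` is the full chain of the man `m`, increasing for `rk`; every rotation has at least two men.
A pair `{m, x}` of men of `σ` is called next-forbidden for `σ` if some `τ` has
`Nxt (cf m) σ τ`, `Nxt (cf x) σ τ` and `men cf τ = {m, x}`. Every man is in at most one
next-forbidden pair for `σ` (his next rotation `τ` is unique). If `σ` has at most three men, there is
no next-forbidden pair (by `hW`, `(men τ).card = 2` gives `4 ≤ (men σ).card`).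
CLAIM (induction on a list of all rotations with increasing `rk`, or strong induction on `rk`, or on
down-closed finsets of rotations): for every finset `E` of rotations closed under smaller `rk`
(ties broken in any way; `Nxt l ρ σ` implies `rk ρ < rk σ`) there is `Q` with, for `ρ ∈ E`:
`Q ρ ⊆ men cf ρ`, `(Q ρ).card = 2`, `Q ρ` not next-forbidden for `ρ`, and for `ρ, σ ∈ E`, `m ≠ x`,
`Q ρ = Q σ = {m, x}` not both `Nxt (cf m) ρ σ` and `Nxt (cf x) ρ σ`.
STEP: add `σ` with the smallest `rk` outside `E`. Fix a man `m ∈ men cf σ`. Candidates: the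
`{m, x}`, `x ∈ men cf σ`, `x ≠ m`; there are `(men cf σ).card - 1` of them. Bad ones:
(a) next-forbidden ones: at most one, none if `(men cf σ).card ≤ 3`;
(b) those for which some `ρ ∈ E` has `Nxt (cf m) ρ σ`, `Nxt (cf x) ρ σ`, `Q ρ = {m, x}`: at most one
(`ρ` is the rotation directly before `σ` in `cf m`, and `x` is the other man of `Q ρ`); if
`(men cf σ).card = 2` there is none: `men cf σ = {m, x} = Q ρ`, so `Q ρ` would be next-forbidden for
`ρ` (with `τ = σ`).
So a good candidate exists if the number of men is 2 (0 bad of 1), 3 (1 bad of 2), at least 4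
(2 bad of at least 3).
-/

open Finset

namespace Pool.Agent.SMP

private theorem nxt_rk {R : Type} [DecidableEq R] {l : List R} {rk : R → ℕ}
    (hl : l.Pairwise (fun a b => rk a < rk b)) {ρ σ : R} (h : Nxt l ρ σ) : rk ρ < rk σ := by
  obtain ⟨h1, h2, h3⟩ := h
  have e1 := List.idxOf_lt_length_iff.2 h1
  have e2 := List.idxOf_lt_length_iff.2 h2
  have := List.pairwise_iff_getElem.1 hl (l.idxOf ρ) (l.idxOf σ) e1 e2 (by omega)
  rwa [List.getElem_idxOf, List.getElem_idxOf] at this

private theorem nxt_right {R : Type} [DecidableEq R] {l : List R} {ρ σ σ' : R}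
    (h : Nxt l ρ σ) (h' : Nxt l ρ σ') : σ = σ' :=
  (List.idxOf_inj h.2.1).1 (by have := h.2.2; have := h'.2.2; omega)

private theorem nxt_left {R : Type} [DecidableEq R] {l : List R} {ρ ρ' σ : R}
    (h : Nxt l ρ σ) (h' : Nxt l ρ' σ) : ρ = ρ' :=
  (List.idxOf_inj h.1).1 (by have := h.2.2; have := h'.2.2; omega)

private theorem pair_right {α : Type} [DecidableEq α] {m x x' : α} (hx : x ≠ m)
    (h : ({m, x} : Finset α) = {m, x'}) : x = x' := by
  have : x ∈ ({m, x'} : Finset α) := by rw [← h]; simp
  rcases Finset.mem_insert.1 this with h1 | h1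
  · exact absurd h1 hx
  · exact Finset.mem_singleton.1 h1

theorem select {n : ℕ} {R : Type} [Fintype R] [DecidableEq R] (cf : Fin n → List R)
    (rk : R → ℕ) (hinc : ∀ m, (cf m).Pairwise (fun a b => rk a < rk b))
    (h2 : ∀ ρ, 2 ≤ (men cf ρ).card)
    (hW : ∀ m x, m ≠ x → ∀ ρ σ, Nxt (cf m) ρ σ → Nxt (cf x) ρ σ →
      ((men cf ρ).card = 2 → 4 ≤ (men cf σ).card) ∧
      ((men cf σ).card = 2 → 4 ≤ (men cf ρ).card)) :
    ∃ Q : R → Finset (Fin n), (∀ ρ, Q ρ ⊆ men cf ρ) ∧ (∀ ρ, (Q ρ).card = 2) ∧
      ∀ m x, m ≠ x → ∀ ρ σ, Q ρ = {m, x} → Q σ = {m, x} →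
        ¬ (Nxt (cf m) ρ σ ∧ Nxt (cf x) ρ σ) := by
  classical
  have key : ∀ s : Finset R, ∃ Q : R → Finset (Fin n),
      (∀ ρ ∈ s, Q ρ ⊆ men cf ρ ∧ (Q ρ).card = 2 ∧
        ∀ τ, (∀ y ∈ Q ρ, Nxt (cf y) ρ τ) → men cf τ ≠ Q ρ) ∧
      ∀ ρ ∈ s, ∀ σ ∈ s, Q ρ = Q σ → ¬ ∀ y ∈ Q ρ, Nxt (cf y) ρ σ := by
    intro s
    induction s using Finset.induction_on_max_value rk with
    | empty => exact ⟨fun _ => ∅, by simp, by simp⟩
    | insert σ s hσ hmax ih =>
      obtain ⟨Q, hQ1, hQ2⟩ := ih
      have hc := h2 σ
      obtain ⟨m, hm⟩ : (men cf σ).Nonempty := Finset.card_pos.1 (by omega)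
      let badA := ((men cf σ).erase m).filter
        (fun x => ∃ τ, Nxt (cf m) σ τ ∧ Nxt (cf x) σ τ ∧ men cf τ = {m, x})
      let badB := ((men cf σ).erase m).filter
        (fun x => ∃ ρ ∈ s, Nxt (cf m) ρ σ ∧ Nxt (cf x) ρ σ ∧ Q ρ = {m, x})
      have hA1 : badA.card ≤ 1 := by
        refine Finset.card_le_one.2 fun x hx x' hx' => ?_
        obtain ⟨hx1, τ, h1, -, h3⟩ := Finset.mem_filter.1 hx
        obtain ⟨hx1', τ', h1', -, h3'⟩ := Finset.mem_filter.1 hx'
        obtain rfl := nxt_right h1 h1'
        exact pair_right (Finset.ne_of_mem_erase hx1) (h3.symm.trans h3')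
      have hB1 : badB.card ≤ 1 := by
        refine Finset.card_le_one.2 fun x hx x' hx' => ?_
        obtain ⟨hx1, ρ, -, h1, -, h3⟩ := Finset.mem_filter.1 hx
        obtain ⟨hx1', ρ', -, h1', -, h3'⟩ := Finset.mem_filter.1 hx'
        obtain rfl := nxt_left h1 h1'
        exact pair_right (Finset.ne_of_mem_erase hx1) (h3.symm.trans h3')
      have hA0 : (men cf σ).card ≤ 3 → badA = ∅ := by
        intro hle
        refine Finset.eq_empty_of_forall_notMem fun x hx => ?_
        obtain ⟨hx1, τ, h1, h1', h3⟩ := Finset.mem_filter.1 hx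
        have hne := Finset.ne_of_mem_erase hx1
        have := (hW m x hne.symm σ τ h1 h1').2 (by rw [h3]; exact Finset.card_pair hne.symm)
        omega
      have hB0 : (men cf σ).card = 2 → badB = ∅ := by
        intro he
        refine Finset.eq_empty_of_forall_notMem fun x hx => ?_
        obtain ⟨hx1, ρ, hρ, h1, h1', h3⟩ := Finset.mem_filter.1 hx
        have hne := Finset.ne_of_mem_erase hx1
        have hpair : men cf σ = {m, x} := by
          symm
          apply Finset.eq_of_subset_of_card_le
          · intro y hy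
            rcases Finset.mem_insert.1 hy with rfl | hy
            · exact hm
            · rw [Finset.mem_singleton.1 hy]
              exact Finset.mem_of_mem_erase hx1
          · rw [he, Finset.card_pair hne.symm]
        refine (hQ1 ρ hρ).2.2 σ ?_ (hpair.trans h3.symm)
        intro y hy
        rw [h3] at hy
        rcases Finset.mem_insert.1 hy with rfl | hy
        · exact h1
        · rw [Finset.mem_singleton.1 hy]
          exact h1'
      have hcard : ((men cf σ).erase m).card = (men cf σ).card - 1 := Finset.card_erase_of_mem hm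
      have hlt : (badA ∪ badB).card < ((men cf σ).erase m).card := by
        have hu := Finset.card_union_le badA badB
        rcases Nat.lt_or_ge 3 (men cf σ).card with h4 | h4
        · omega
        · have e1 : badA.card = 0 := by rw [hA0 h4]; rfl
          rcases Nat.lt_or_ge 2 (men cf σ).card with h5 | h5
          · omega
          · have e2 : badB.card = 0 := by rw [hB0 (by omega)]; rfl
            omega
      obtain ⟨x, hx, hxb⟩ : ∃ x ∈ (men cf σ).erase m, x ∉ badA ∪ badB := by
        by_contra hcon
        push Not at hcon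
        exact absurd (Finset.card_le_card (fun x hx => hcon x hx)) (by omega)
      have hxm := Finset.ne_of_mem_erase hx
      have hxs := Finset.mem_of_mem_erase hx
      have hxA : x ∉ badA := fun h => hxb (Finset.mem_union_left _ h)
      have hxB : x ∉ badB := fun h => hxb (Finset.mem_union_right _ h)
      refine ⟨Function.update Q σ {m, x}, ?_, ?_⟩
      · intro ρ hρ
        by_cases hρσ : ρ = σ
        · subst hρσ
          rw [Function.update_self]
          refine ⟨?_, Finset.card_pair hxm.symm, ?_⟩
          · intro y hy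
            rcases Finset.mem_insert.1 hy with rfl | hy
            · exact hm
            · rw [Finset.mem_singleton.1 hy]
              exact hxs
          · intro τ hτ he
            exact hxA (Finset.mem_filter.2 ⟨hx, τ, hτ m (by simp), hτ x (by simp), he⟩)
        · rw [Function.update_of_ne hρσ]
          exact hQ1 ρ ((Finset.mem_insert.1 hρ).resolve_left hρσ)
      · intro ρ hρ τ hτ he hall
        by_cases hρσ : ρ = σ
        · subst hρσ
          rw [Function.update_self] at hall he
          have h1 := nxt_rk (hinc m) (hall m (by simp))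
          rcases Finset.mem_insert.1 hτ with rfl | hτ'
          · omega
          · have := hmax τ hτ'
            omega
        · have hρs := (Finset.mem_insert.1 hρ).resolve_left hρσ
          rw [Function.update_of_ne hρσ] at hall he
          by_cases hτσ : τ = σ
          · subst hτσ
            rw [Function.update_self] at he
            rw [he] at hall
            exact hxB (Finset.mem_filter.2 ⟨hx, ρ, hρs, hall m (by simp), hall x (by simp), he⟩)
          · rw [Function.update_of_ne hτσ] at he
            exact hQ2 ρ hρs τ ((Finset.mem_insert.1 hτ).resolve_left hτσ) he hall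
  obtain ⟨Q, hQ1, hQ2⟩ := key Finset.univ
  refine ⟨Q, fun ρ => (hQ1 ρ (Finset.mem_univ _)).1, fun ρ => (hQ1 ρ (Finset.mem_univ _)).2.1, ?_⟩
  intro m x _ ρ σ hρ hσ hN
  refine hQ2 ρ (Finset.mem_univ _) σ (Finset.mem_univ _) (hρ.trans hσ.symm) ?_
  intro y hy
  rw [hρ] at hy
  rcases Finset.mem_insert.1 hy with rfl | hy
  · exact hN.1
  · rw [Finset.mem_singleton.1 hy]
    exact hN.2

end Pool.Agent.SMP
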