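import Pool.Agent.SMP.Pre
import Pool.Agent.BukhTail.Shearer

set_option autoImplicit false

/-!
# The weighted product bound

PAPER PROOF. `S` good with least element `β`; for every rotation `ρ` (join irreducible element) let
`pre ρ` be the element directly below it. `σ ∈ S` is determined by the set `D σ` of the rotations
below `σ`. For a man `m` let `F m = {ρ : pre ρ m ≠ ρ m}`, for a woman `w` let
`F w = {ρ : (pre ρ)⁻¹ w ≠ ρ⁻¹ w}`.
* `D σ ∩ F m` depends on `σ m` only: for `ρ ∈ F m`, `Ple r ρ σ ↔ r m (ρ m) ≤ r m (σ m)`.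
* `D σ ∩ F w` depends on `σ⁻¹ w` only: let `ρ ∈ F w`, `σ⁻¹ w = τ⁻¹ w`, `Ple r ρ σ` and
  `κ = min ρ τ`. If `κ ≠ ρ` then `κ ≤ pre ρ ≤ ρ ≤ σ`. Let `x = κ⁻¹ w`. If `κ x = ρ x` then
  `pre ρ x = w`, too, by monotonicity; if `κ x = τ x` then `x = σ⁻¹ w`, and again
  `pre ρ x = ρ x = w` by monotonicity. Both contradict `ρ ∈ F w`. So `κ = ρ` and `Ple r ρ τ`.
* `pre ρ` and `ρ` are different elements of `S`, so the weights of the `a` with `ρ ∈ F a` have
  sum at least `t`; Shearer's inequality for the family of the `D σ`.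
-/

open Finset

namespace Pool.Agent.SMP

open Pool.Agent.StabM

private lemma card_image_le_of {n : ℕ} {β γ : Type} [DecidableEq β] [DecidableEq γ]
    (s : Finset (Equiv.Perm (Fin n))) (f : Equiv.Perm (Fin n) → β) (g : Equiv.Perm (Fin n) → γ)
    (h : ∀ a ∈ s, ∀ b ∈ s, g a = g b → f a = f b) : (s.image f).card ≤ (s.image g).card := by
  have hc : ∀ z ∈ s.image f, ∃ a ∈ s, f a = z := fun z hz => Finset.mem_image.1 hz
  choose! a ha1 ha2 using hc
  refine Finset.card_le_card_of_injOn (fun z => g (a z)) (fun z hz => Finset.mem_image_of_mem g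
    (ha1 z (Finset.mem_coe.1 hz))) ?_
  intro z hz z' hz' he
  rw [← ha2 z (Finset.mem_coe.1 hz), ← ha2 z' (Finset.mem_coe.1 hz')]
  exact h _ (ha1 z (Finset.mem_coe.1 hz)) _ (ha1 z' (Finset.mem_coe.1 hz')) he

theorem good_weights {n : ℕ} {S : Finset (Equiv.Perm (Fin n))} {r : Fin n → Fin n → ℤ}
    (hg : Good S r) (u v : Fin n → ℕ) (t : ℕ) (ht0 : 0 < t)
    (ht : ∀ σ ∈ S, ∀ τ ∈ S, σ ≠ τ →
      t ≤ ∑ m ∈ univ.filter (fun m => σ m ≠ τ m), u m +
        ∑ w ∈ univ.filter (fun w => σ.symm w ≠ τ.symm w), v w) :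
    S.card ^ t ≤ (∏ m, (S.image (fun σ => σ m)).card ^ u m) *
      ∏ w, (S.image (fun σ => σ.symm w)).card ^ v w := by
  classical
  rcases S.eq_empty_or_nonempty with h | hS
  · subst h
    rw [Finset.card_empty, zero_pow ht0.ne']
    exact Nat.zero_le _
  obtain ⟨β, hβ, hb⟩ := exists_bot hg hS
  have hspec := fun {m w : Fin n} (hw : w ∈ low S r β m) => ji_spec hg hβ hb hw
  have hex := fun ρ : {ρ : Equiv.Perm (Fin n) // IsRot S r β ρ} => exists_pre hg hβ hb ρ.2
  choose pre hpS hple hpne hmax hmv hgap using hex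
  have hRS : ∀ ρ : {ρ : Equiv.Perm (Fin n) // IsRot S r β ρ}, ρ.1 ∈ S := by
    rintro ⟨ρ, m, w, hw, rfl⟩
    exact (hspec hw).1
  obtain ⟨D, hD⟩ : ∃ D : Equiv.Perm (Fin n) → Finset {ρ : Equiv.Perm (Fin n) // IsRot S r β ρ},
    D = fun σ => univ.filter (fun ρ => Ple r ρ.1 σ) := ⟨_, rfl⟩
  have memD : ∀ σ ρ, ρ ∈ D σ ↔ Ple r ρ.1 σ := by
    intro σ ρ
    rw [hD, Finset.mem_filter]
    simp
  -- the sets of rotations of the men and of the women
  obtain ⟨F, hF⟩ : ∃ F : Fin n ⊕ Fin n → Finset {ρ : Equiv.Perm (Fin n) // IsRot S r β ρ},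
    F = fun a => univ.filter (fun ρ => Sum.elim (fun m => pre ρ m ≠ ρ.1 m)
      (fun w => (pre ρ).symm w ≠ ρ.1.symm w) a) := ⟨_, rfl⟩
  have memFm : ∀ ρ m, ρ ∈ F (Sum.inl m) ↔ pre ρ m ≠ ρ.1 m := by
    intro ρ m
    rw [hF, Finset.mem_filter]
    simp
  have memFw : ∀ ρ w, ρ ∈ F (Sum.inr w) ↔ (pre ρ).symm w ≠ ρ.1.symm w := by
    intro ρ w
    rw [hF, Finset.mem_filter]
    simp
  -- the elements are determined by the rotations below
  have hinj : Set.InjOn D (S : Set (Equiv.Perm (Fin n))) := by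
    intro σ hσ τ hτ h
    rw [Finset.mem_coe] at hσ hτ
    have key : ∀ σ ∈ S, ∀ τ ∈ S, D σ = D τ → ∀ m, r m (σ m) ≤ r m (τ m) := by
      intro σ hσ τ hτ h m
      by_cases h1 : r m (σ m) ≤ r m (β m)
      · exact h1.trans (hb τ hτ m)
      · push Not at h1
        have h2 : σ m ∈ low S r β m := mem_low.mpr ⟨⟨σ, hσ, rfl⟩, h1⟩
        obtain ⟨h3, h4, h5⟩ := hspec h2
        have h6 : Ple r (ji S r m (σ m)) σ := (h5 σ hσ).mpr le_rfl
        have h7 : (⟨ji S r m (σ m), m, _, h2, rfl⟩ :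
            {ρ : Equiv.Perm (Fin n) // IsRot S r β ρ}) ∈ D τ := by
          rw [← h, memD]
          exact h6
        exact (h5 τ hτ).mp ((memD _ _).1 h7)
    exact Equiv.ext fun m => hg.inj m (le_antisymm (key σ hσ τ hτ h m) (key τ hτ σ hσ h.symm m))
  -- the traces
  have trm : ∀ m, ∀ σ ∈ S, ∀ τ ∈ S, σ m = τ m → D σ ∩ F (Sum.inl m) = D τ ∩ F (Sum.inl m) := by
    intro m σ hσ τ hτ h
    ext ρ
    rw [Finset.mem_inter, Finset.mem_inter, memD, memD, memFm]
    refine and_congr_left fun h0 => ?_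
    obtain ⟨h1, h2⟩ := (hmv ρ m).mp h0
    have h3 := (hspec h1).2.2 σ hσ
    have h4 := (hspec h1).2.2 τ hτ
    rw [h2] at h3 h4
    rw [h3, h4, h]
  have trw' : ∀ w, ∀ σ ∈ S, ∀ τ ∈ S, σ.symm w = τ.symm w → ∀ ρ,
      (pre ρ).symm w ≠ ρ.1.symm w → Ple r ρ.1 σ → Ple r ρ.1 τ := by
    intro w σ hσ τ hτ h ρ h0 h1
    obtain ⟨κ, hκ, hk⟩ := hg.min ρ.1 (hRS ρ) τ hτ
    have h2 : Ple r κ ρ.1 := fun q => by rw [hk q]; exact min_le_left _ _
    have h3 : Ple r κ τ := fun q => by rw [hk q]; exact min_le_right _ _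
    by_cases hne : κ = ρ.1
    · rw [← hne]
      exact h3
    · exfalso
      have h4 := hmax ρ κ hκ h2 hne
      have hx : κ (κ.symm w) = w := Equiv.apply_symm_apply κ w
      obtain ⟨x, hxe⟩ : ∃ x, x = κ.symm w := ⟨_, rfl⟩
      rw [← hxe] at hx
      have h5 : r x w ≤ r x (pre ρ x) := by
        have := h4 x
        rwa [hx] at this
      have h6 := hple ρ x
      have h7 : r x (ρ.1 x) ≤ r x w := by
        have h8 := hk x
        rw [hx] at h8
        rcases le_total (r x (ρ.1 x)) (r x (τ x)) with h9 | h9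
        · rw [min_eq_left h9] at h8
          exact h8.ge
        · rw [min_eq_right h9] at h8
          have h10 : w = τ x := hg.inj x h8
          have h11 : σ.symm w = x := by
            rw [h, h10, Equiv.symm_apply_apply]
          have h12 : σ x = w := by rw [← h11, Equiv.apply_symm_apply]
          have := h1 x
          rwa [h12] at this
      have e1 : pre ρ x = w := hg.inj x (le_antisymm (h6.trans h7) h5)
      have e2 : ρ.1 x = w := hg.inj x (le_antisymm h7 (h5.trans h6))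
      apply h0
      rw [Equiv.symm_apply_eq, ← e2, Equiv.symm_apply_apply, e1, e2]
  have trw : ∀ w, ∀ σ ∈ S, ∀ τ ∈ S, σ.symm w = τ.symm w →
      D σ ∩ F (Sum.inr w) = D τ ∩ F (Sum.inr w) := by
    intro w σ hσ τ hτ h
    ext ρ
    rw [Finset.mem_inter, Finset.mem_inter, memD, memD, memFw]
    exact and_congr_left fun h0 =>
      ⟨trw' w σ hσ τ hτ h ρ h0, trw' w τ hτ σ hσ h.symm ρ h0⟩
  -- Shearer
  obtain ⟨c, hc⟩ : ∃ c : Fin n ⊕ Fin n → ℕ, c = Sum.elim u v := ⟨_, rfl⟩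
  have hcov : ∀ ρ ∈ (univ : Finset {ρ : Equiv.Perm (Fin n) // IsRot S r β ρ}),
      t ≤ (((univ : Finset (Fin n ⊕ Fin n)).sigma (fun a => range (c a))).filter
        (fun i : (_ : Fin n ⊕ Fin n) × ℕ => ρ ∈ F i.1)).card := by
    intro ρ _
    have e1 : (((univ : Finset (Fin n ⊕ Fin n)).sigma (fun a => range (c a))).filter
        (fun i : (_ : Fin n ⊕ Fin n) × ℕ => ρ ∈ F i.1)) =
        (univ.filter (fun a => ρ ∈ F a)).sigma (fun a => range (c a)) := by
      ext ⟨a, j⟩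
      simp only [Finset.mem_filter, Finset.mem_sigma, Finset.mem_univ, true_and]
      exact and_comm
    rw [e1, Finset.card_sigma, Finset.sum_filter]
    simp only [Finset.card_range]
    rw [Fintype.sum_sum_type]
    have e2 := ht _ (hpS ρ) _ (hRS ρ) (hpne ρ)
    rw [Finset.sum_filter, Finset.sum_filter] at e2
    refine e2.trans (le_of_eq ?_)
    congr 1
    · refine Finset.sum_congr rfl fun m _ => ?_
      by_cases h : pre ρ m ≠ ρ.1 m
      · rw [if_pos h, if_pos ((memFm ρ m).2 h), hc]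
        rfl
      · rw [if_neg h, if_neg (fun h' => h ((memFm ρ m).1 h'))]
    · refine Finset.sum_congr rfl fun w _ => ?_
      by_cases h : (pre ρ).symm w ≠ ρ.1.symm w
      · rw [if_pos h, if_pos ((memFw ρ w).2 h), hc]
        rfl
      · rw [if_neg h, if_neg (fun h' => h ((memFw ρ w).1 h'))]
  have hmain := Pool.Agent.BukhTail.shearer univ (S.image D) (fun T _ => Finset.subset_univ T)
    (hS.image D) ((univ : Finset (Fin n ⊕ Fin n)).sigma (fun a => range (c a)))
    (fun i : (_ : Fin n ⊕ Fin n) × ℕ => F i.1) t hcov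
  rw [Finset.card_image_of_injOn hinj, Finset.prod_sigma] at hmain
  simp only [Finset.prod_const, Finset.card_range] at hmain
  rw [Fintype.prod_sum_type] at hmain
  refine hmain.trans (Nat.mul_le_mul ?_ ?_)
  · refine Finset.prod_le_prod' fun m _ => ?_
    have e3 : c (Sum.inl m) = u m := by rw [hc]; rfl
    rw [e3]
    refine Nat.pow_le_pow_left ?_ _
    rw [Finset.image_image]
    exact card_image_le_of S _ _ fun σ hσ τ hτ h => trm m σ hσ τ hτ h
  · refine Finset.prod_le_prod' fun w _ => ?_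
    have e3 : c (Sum.inr w) = v w := by rw [hc]; rfl
    rw [e3]
    refine Nat.pow_le_pow_left ?_ _
    rw [Finset.image_image]
    exact card_image_le_of S _ _ fun σ hσ τ hτ h => trw w σ hσ τ hτ h

end Pool.Agent.SMP
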